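import Mathlib
import Pool.Agent.RMC.Defs

/-!
# Walsh coefficients and coset weights of the first-order Reed-Muller code
-/

set_option autoImplicit false

open Finset

namespace Pool.Agent.RMC68

open Pool.Agent.RMC

/-- the sign of an element of `F₂` -/
def sg (a : ZMod 2) : ℤ := if a = 0 then 1 else -1

lemma sg_add (a b : ZMod 2) : sg (a + b) = sg a * sg b := by
  revert a b; decide

lemma sg_mul_self (a : ZMod 2) : sg a * sg a = 1 := by
  revert a; decide

lemma sg_cases (a : ZMod 2) : sg a = 1 ∨ sg a = -1 := by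
  revert a; decide

lemma sg_zero : sg 0 = 1 := by decide

lemma sg_one : sg 1 = -1 := by decide

lemma sg_inj {a b : ZMod 2} (h : sg a = sg b) : a = b := by
  revert a b; decide

lemma zmod2_cases (a : ZMod 2) : a = 0 ∨ a = 1 := by
  revert a; decide

variable {m : ℕ}

lemma card_vec : Fintype.card (Vec m) = 2 ^ m := by
  simp

lemma vec_add_self (x : Vec m) : x + x = 0 := by
  funext i
  have : ∀ a : ZMod 2, a + a = 0 := by decide
  exact this _

lemma fun_add_self (f : Vec m → ZMod 2) : f + f = 0 := by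
  funext i
  have : ∀ a : ZMod 2, a + a = 0 := by decide
  exact this _

/-- orthogonality -/
lemma sum_sg_dot (x : Vec m) : ∑ a : Vec m, sg (a ⬝ᵥ x) = if x = 0 then 2 ^ m else 0 := by
  split_ifs with h
  · subst h
    simp [sg_zero]
  · obtain ⟨i, hi⟩ : ∃ i, x i ≠ 0 := by
      by_contra hcon
      push Not at hcon
      exact h (funext hcon)
    have hi1 : x i = 1 := by
      rcases zmod2_cases (x i) with h0 | h1
      · exact absurd h0 hi
      · exact h1
    have key : ∑ a : Vec m, sg (a ⬝ᵥ x) = ∑ a : Vec m, sg ((a + Pi.single i 1) ⬝ᵥ x) := by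
      refine (Fintype.sum_equiv (Equiv.addRight (Pi.single i (1 : ZMod 2))) _ _ fun a => ?_).symm
      rfl
    have key2 : ∀ a : Vec m, sg ((a + Pi.single i 1) ⬝ᵥ x) = - sg (a ⬝ᵥ x) := by
      intro a
      rw [add_dotProduct, single_dotProduct, one_mul, hi1, sg_add, sg_one]
      ring
    simp_rw [key2] at key
    rw [Finset.sum_neg_distrib] at key
    omega

lemma sum_sg_dot' (a : Vec m) : ∑ x : Vec m, sg (a ⬝ᵥ x) = if a = 0 then 2 ^ m else 0 := by
  rw [← sum_sg_dot a]
  exact Finset.sum_congr rfl fun x _ => by rw [dotProduct_comm]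

/-- The Walsh coefficient of `f` at `a`. -/
def walsh (f : Vec m → ZMod 2) (a : Vec m) : ℤ := ∑ x, sg (f x + a ⬝ᵥ x)

lemma walsh_inv (f : Vec m → ZMod 2) (y : Vec m) :
    ∑ a : Vec m, sg (a ⬝ᵥ y) * walsh f a = 2 ^ m * sg (f y) := by
  have h1 : ∀ a : Vec m, sg (a ⬝ᵥ y) * walsh f a = ∑ x, sg (f x) * sg (a ⬝ᵥ (x + y)) := by
    intro a
    rw [walsh, Finset.mul_sum]
    refine Finset.sum_congr rfl fun x _ => ?_
    rw [dotProduct_add, sg_add, sg_add]; ring
  simp_rw [h1]
  rw [Finset.sum_comm]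
  have h2 : ∀ x : Vec m, ∑ a : Vec m, sg (f x) * sg (a ⬝ᵥ (x + y)) =
      if x = y then 2 ^ m * sg (f y) else 0 := by
    intro x
    rw [← Finset.mul_sum, sum_sg_dot]
    have : x + y = 0 ↔ x = y := by
      constructor
      · intro h
        have h3 : x + y + y = y := by rw [h, zero_add]
        rwa [add_assoc, vec_add_self, add_zero] at h3
      · rintro rfl; exact vec_add_self x
    by_cases h : x = y
    · rw [if_pos (this.2 h), if_pos h, h]; ring
    · rw [if_neg (fun h' => h (this.1 h')), if_neg h, mul_zero]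
  rw [Finset.sum_congr rfl fun x _ => h2 x, Finset.sum_ite_eq' univ y, if_pos (mem_univ _)]

lemma parseval (f : Vec m → ZMod 2) : ∑ a : Vec m, walsh f a ^ 2 = (2 ^ m) ^ 2 := by
  have h1 : ∀ a : Vec m, walsh f a ^ 2 = ∑ y, sg (f y) * (sg (a ⬝ᵥ y) * walsh f a) := by
    intro a
    rw [pow_two]
    conv_lhs => rw [walsh, Finset.sum_mul]
    exact Finset.sum_congr rfl fun y _ => by rw [sg_add, walsh]; ring
  simp_rw [h1]
  rw [Finset.sum_comm]
  have h2 : ∀ y : Vec m, ∑ a : Vec m, sg (f y) * (sg (a ⬝ᵥ y) * walsh f a) = 2 ^ m := by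
    intro y
    rw [← Finset.mul_sum, walsh_inv]
    have := sg_mul_self (f y)
    linear_combination (2 : ℤ) ^ m * this
  rw [Finset.sum_congr rfl fun y _ => h2 y]
  simp [pow_two]

lemma walsh_injective {f g : Vec m → ZMod 2} (h : ∀ a, walsh f a = walsh g a) : f = g := by
  funext y
  have h1 := walsh_inv f y
  have h2 := walsh_inv g y
  simp_rw [h] at h1
  rw [h1] at h2
  have h3 : sg (f y) = sg (g y) := by
    have : (2 : ℤ) ^ m ≠ 0 := by positivity
    exact mul_left_cancel₀ this h2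
  exact sg_inj h3

/-- Hamming weight in terms of signs -/
lemma sum_sg (f : Vec m → ZMod 2) : ∑ x, sg (f x) = 2 ^ m - 2 * (hammingNorm f : ℤ) := by
  have : ∀ x, sg (f x) = 1 - 2 * (if f x ≠ 0 then 1 else 0) := by
    intro x
    rcases zmod2_cases (f x) with h | h <;> rw [h] <;> decide
  simp_rw [this]
  rw [Finset.sum_sub_distrib, ← Finset.mul_sum, Finset.sum_boole, hammingNorm]
  simp

/-- the affine function `x ↦ a·x + b` -/
def aff (a : Vec m) (b : ZMod 2) : Vec m → ZMod 2 := fun x => a ⬝ᵥ x + b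

lemma aff_mem (a : Vec m) (b : ZMod 2) : aff a b ∈ reedMuller m := ⟨a, b, fun _ => rfl⟩

lemma norm_add_aff (f : Vec m → ZMod 2) (a : Vec m) (b : ZMod 2) :
    2 * (hammingNorm (f + aff a b) : ℤ) = 2 ^ m - sg b * walsh f a := by
  have h1 := sum_sg (f + aff a b)
  have h2 : ∑ x, sg ((f + aff a b) x) = sg b * walsh f a := by
    rw [walsh, Finset.mul_sum]
    refine Finset.sum_congr rfl fun x _ => ?_
    rw [Pi.add_apply, aff, ← add_assoc, sg_add, mul_comm]
  rw [h2] at h1
  linarith

/-- The representatives of the coset of `f` are the functions `f + aff a b`. -/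
lemma mkQ_eq_iff (f g : Vec m → ZMod 2) :
    (reedMuller m).mkQ g = (reedMuller m).mkQ f ↔ ∃ a b, g = f + aff a b := by
  rw [Submodule.mkQ_apply, Submodule.mkQ_apply, Submodule.Quotient.eq]
  constructor
  · rintro ⟨a, b, h⟩
    refine ⟨a, b, ?_⟩
    funext x
    have := h x
    rw [Pi.sub_apply] at this
    rw [Pi.add_apply, aff, ← this]
    ring
  · rintro ⟨a, b, rfl⟩
    rw [add_sub_cancel_left]
    exact aff_mem a b

lemma leaderWeight_spec (f : Vec m → ZMod 2) :
    (∃ a b, hammingNorm (f + aff a b) = leaderWeight ((reedMuller m).mkQ f)) ∧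
    (∀ a b, leaderWeight ((reedMuller m).mkQ f) ≤ hammingNorm (f + aff a b)) := by
  have hne : {w | ∃ g : Vec m → ZMod 2, (reedMuller m).mkQ g = (reedMuller m).mkQ f ∧
      hammingNorm g = w}.Nonempty := ⟨_, f, rfl, rfl⟩
  constructor
  · obtain ⟨g, hg, hw⟩ := Nat.sInf_mem hne
    obtain ⟨a, b, rfl⟩ := (mkQ_eq_iff f g).1 hg
    exact ⟨a, b, hw⟩
  · intro a b
    exact Nat.sInf_le ⟨f + aff a b, (mkQ_eq_iff f _).2 ⟨a, b, rfl⟩, rfl⟩

lemma leaderWeight_le_iff (f : Vec m → ZMod 2) (i : ℕ) :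
    leaderWeight ((reedMuller m).mkQ f) ≤ i ↔ ∃ a, 2 ^ m - 2 * (i : ℤ) ≤ |walsh f a| := by
  obtain ⟨⟨a, b, hab⟩, hle⟩ := leaderWeight_spec f
  constructor
  · intro h
    refine ⟨a, ?_⟩
    have h1 := norm_add_aff f a b
    rw [hab] at h1
    have h2 : sg b * walsh f a ≤ |walsh f a| := by
      rcases sg_cases b with h | h <;> rw [h]
      · rw [one_mul]; exact le_abs_self _
      · rw [neg_one_mul]; exact neg_le_abs _
    have h3 : (leaderWeight ((reedMuller m).mkQ f) : ℤ) ≤ i := by exact_mod_cast h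
    linarith
  · rintro ⟨a, ha⟩
    have : ∃ b, sg b * walsh f a = |walsh f a| := by
      rcases le_total 0 (walsh f a) with h | h
      · exact ⟨0, by rw [sg_zero, one_mul, abs_of_nonneg h]⟩
      · exact ⟨1, by rw [sg_one, neg_one_mul, abs_of_nonpos h]⟩
    obtain ⟨b, hb⟩ := this
    have h1 := norm_add_aff f a b
    rw [hb] at h1
    have h2 := hle a b
    have h3 : (hammingNorm (f + aff a b) : ℤ) ≤ i := by linarith
    have h4 : hammingNorm (f + aff a b) ≤ i := by exact_mod_cast h3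
    exact h2.trans h4

lemma leaderWeight_eq_iff (f : Vec m → ZMod 2) (i : ℕ) :
    leaderWeight ((reedMuller m).mkQ f) = i ↔
      (∀ a, |walsh f a| ≤ 2 ^ m - 2 * (i : ℤ)) ∧ ∃ a, |walsh f a| = 2 ^ m - 2 * (i : ℤ) := by
  constructor
  · intro h
    have hall : ∀ a, |walsh f a| ≤ 2 ^ m - 2 * (i : ℤ) := by
      intro a
      have : ∃ b, sg b * walsh f a = |walsh f a| := by
        rcases le_total 0 (walsh f a) with h | h
        · exact ⟨0, by rw [sg_zero, one_mul, abs_of_nonneg h]⟩
        · exact ⟨1, by rw [sg_one, neg_one_mul, abs_of_nonpos h]⟩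
      obtain ⟨b, hb⟩ := this
      have h1 := norm_add_aff f a b
      rw [hb] at h1
      have h2 := (leaderWeight_spec f).2 a b
      rw [h] at h2
      have h3 : (i : ℤ) ≤ (hammingNorm (f + aff a b) : ℤ) := by exact_mod_cast h2
      linarith
    refine ⟨hall, ?_⟩
    obtain ⟨a, ha⟩ := (leaderWeight_le_iff f i).1 h.le
    exact ⟨a, le_antisymm (hall a) ha⟩
  · rintro ⟨hall, a, ha⟩
    apply le_antisymm
    · exact (leaderWeight_le_iff f i).2 ⟨a, ha.ge⟩
    · by_contra hlt
      push Not at hlt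
      obtain ⟨a', ha'⟩ := (leaderWeight_le_iff f (i - 1)).1 (by omega)
      have h1 := hall a'
      have h2 : (1 : ℤ) ≤ i := by
        have : 1 ≤ i := by omega
        exact_mod_cast this
      have h3 : ((i - 1 : ℕ) : ℤ) = (i : ℤ) - 1 := by
        rw [Nat.cast_sub (by omega)]; simp
      rw [h3] at ha'
      linarith

end Pool.Agent.RMC68
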