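import Pool.Agent.RMC68.Levels
import Pool.Agent.RMC68.Base

/-!
# The numbers of cosets in terms of sets of points
-/

set_option autoImplicit false

open Finset

namespace Pool.Agent.RMC68

open Pool.Agent.RMC

variable {m : ℕ}

/-- the nonzero vectors -/
def nz (m : ℕ) : Finset (Vec m) := univ.erase 0

/-- the character `x ↦ (-1)^(a·x)` -/
def chi (a x : Vec m) : ℤ := sg (a ⬝ᵥ x)

/-- the indicator function of a set of points -/
def ind (A : Finset (Vec m)) : Vec m → ZMod 2 := fun x => if x ∈ A then 1 else 0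

lemma mem_nz {a : Vec m} : a ∈ nz m ↔ a ≠ 0 := by
  rw [nz, mem_erase]
  simp

lemma chi_cases (a x : Vec m) : chi a x = 1 ∨ chi a x = -1 := sg_cases _

lemma chi_sum (a : Vec m) (ha : a ≠ 0) : ∑ x, chi a x = 0 := by
  have := sum_sg_dot' a
  rw [if_neg ha] at this
  exact this

lemma walsh_ind (A : Finset (Vec m)) (a : Vec m) :
    walsh (ind A) a = (if a = 0 then 2 ^ m else 0) - 2 * ∑ x ∈ A, chi a x := by
  have h1 : ∀ x, sg (ind A x + a ⬝ᵥ x) = sg (a ⬝ᵥ x) - 2 * (if x ∈ A then chi a x else 0) := by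
    intro x
    rw [sg_add, ind, chi]
    split_ifs
    · rw [sg_one]; ring
    · rw [sg_zero]; ring
  rw [walsh]
  simp_rw [h1]
  rw [Finset.sum_sub_distrib, sum_sg_dot', ← Finset.mul_sum, Finset.sum_ite_mem, univ_inter]

lemma walsh_ind_zero (A : Finset (Vec m)) : walsh (ind A) 0 = 2 ^ m - 2 * (#A : ℤ) := by
  rw [walsh_ind, if_pos rfl]
  simp [chi, sg_zero]

lemma walsh_ind_ne (A : Finset (Vec m)) (a : Vec m) (ha : a ≠ 0) :
    walsh (ind A) a = - (2 * ∑ x ∈ A, chi a x) := by
  rw [walsh_ind, if_neg ha, zero_sub]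

lemma norm_ind (A : Finset (Vec m)) : hammingNorm (ind A) = #A := by
  rw [hammingNorm]
  congr 1
  ext x
  simp [ind]

/-- sets of points as functions -/
def indE (m : ℕ) : Finset (Vec m) ≃ (Vec m → ZMod 2) where
  toFun := ind
  invFun f := {x | f x = 1}
  left_inv A := by
    ext x
    simp [ind]
  right_inv f := by
    funext x
    rcases zmod2_cases (f x) with h | h
    · simp [ind, h]
    · simp [ind, h]

lemma ind_injective : Function.Injective (ind (m := m)) := (indE m).injective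

lemma ind_surjective : Function.Surjective (ind (m := m)) := (indE m).surjective

lemma card_vec_M {M : ℕ} (hM : 2 ^ m = 2 * M) : Fintype.card (Vec m) = 2 * M := by
  rw [card_vec, hM]

/-- cosets of weight at most `i` -/
lemma far_iff {M : ℕ} (hM : 2 ^ m = 2 * M) (i : ℕ) (A : Finset (Vec m)) :
    leaderWeight ((reedMuller m).mkQ (ind A)) ≤ i ↔
      ¬ (¬ bad (nz m) chi ((M : ℤ) - i) A ∧ |(#A : ℤ) - M| < (M : ℤ) - i) := by
  have hM' : (2 : ℤ) ^ m = 2 * M := by exact_mod_cast hM
  rw [leaderWeight_le_iff, hM', not_and_or, not_not, not_lt]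
  constructor
  · rintro ⟨a, ha⟩
    by_cases h0 : a = 0
    · right
      rw [h0, walsh_ind_zero, hM'] at ha
      have h1 : (2 * (M : ℤ) - 2 * #A) = -(2 * ((#A : ℤ) - M)) := by ring
      rw [h1, abs_neg, abs_mul, abs_of_pos (by norm_num : (0 : ℤ) < 2)] at ha
      linarith
    · left
      refine ⟨a, mem_nz.2 h0, ?_⟩
      rw [walsh_ind_ne A a h0, abs_neg, abs_mul, abs_of_pos (by norm_num : (0 : ℤ) < 2)] at ha
      linarith
  · rintro (⟨a, ha, h⟩ | h)
    · refine ⟨a, ?_⟩
      rw [walsh_ind_ne A a (mem_nz.1 ha), abs_neg, abs_mul, abs_of_pos (by norm_num : (0 : ℤ) < 2)]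
      linarith
    · refine ⟨0, ?_⟩
      have h1 : (2 * (M : ℤ) - 2 * #A) = -(2 * ((#A : ℤ) - M)) := by ring
      rw [walsh_ind_zero, hM', h1, abs_neg, abs_mul, abs_of_pos (by norm_num : (0 : ℤ) < 2)]
      linarith

/-- sets of size `i` which are coset leaders -/
lemma leader_iff {M : ℕ} (hM : 2 ^ m = 2 * M) (i : ℕ) (hi : i ≤ M) (A : Finset (Vec m))
    (hA : #A = i) :
    leaderWeight ((reedMuller m).mkQ (ind A)) = i ↔ ¬ bad (nz m) chi ((M : ℤ) - i + 1) A := by
  have hM' : (2 : ℤ) ^ m = 2 * M := by exact_mod_cast hM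
  have hi' : (i : ℤ) ≤ M := by exact_mod_cast hi
  rw [leaderWeight_eq_iff, hM']
  constructor
  · rintro ⟨h1, -⟩ ⟨a, ha, h⟩
    have h2 := h1 a
    rw [walsh_ind_ne A a (mem_nz.1 ha), abs_neg, abs_mul,
      abs_of_pos (by norm_num : (0 : ℤ) < 2)] at h2
    linarith
  · intro h
    have h0 : walsh (ind A) 0 = 2 * (M : ℤ) - 2 * i := by
      rw [walsh_ind_zero, hM', hA]
    constructor
    · intro a
      by_cases ha : a = 0
      · rw [ha, h0, abs_of_nonneg (by linarith)]
      · rw [walsh_ind_ne A a ha, abs_neg, abs_mul, abs_of_pos (by norm_num : (0 : ℤ) < 2)]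
        by_contra hcon
        exact h ⟨a, mem_nz.2 ha, by omega⟩
    · exact ⟨0, by rw [h0, abs_of_nonneg (by linarith)]⟩

/-- unique leaders give different cosets -/
lemma unique_leader {M : ℕ} (hM : 2 ^ m = 2 * M) (i : ℕ) (hi : i < M) (A B : Finset (Vec m))
    (hA : #A = i) (hB : #B = i) (h : ¬ bad (nz m) chi ((M : ℤ) - i) A)
    (hAB : (reedMuller m).mkQ (ind B) = (reedMuller m).mkQ (ind A)) : A = B := by
  have hM' : (2 : ℤ) ^ m = 2 * M := by exact_mod_cast hM
  have hi' : (i : ℤ) < M := by exact_mod_cast hi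
  obtain ⟨a, b, hab⟩ := (mkQ_eq_iff (ind A) (ind B)).1 hAB
  have h1 := norm_add_aff (ind A) a b
  rw [← hab, norm_ind, hB, hM'] at h1
  by_cases ha : a = 0
  · rw [ha, walsh_ind_zero, hM', hA] at h1
    rcases zmod2_cases b with hb | hb
    · have h2 : ind B = ind A := by
        rw [hab, ha, hb]
        funext x
        simp [aff]
      exact (ind_injective h2).symm
    · rw [hb, sg_one] at h1
      linarith
  · exfalso
    apply h
    refine ⟨a, mem_nz.2 ha, ?_⟩
    rw [walsh_ind_ne A a ha] at h1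
    have h2 : |∑ x ∈ A, chi a x| = |sg b * ∑ x ∈ A, chi a x| := by
      rcases sg_cases b with h | h <;> rw [h]
      · rw [one_mul]
      · rw [neg_one_mul, abs_neg]
    rw [h2]
    have h3 : sg b * ∑ x ∈ A, chi a x = -((M : ℤ) - i) := by linarith
    rw [h3, abs_neg, abs_of_nonneg (by linarith)]

lemma card_reedMuller (m : ℕ) : Nat.card (reedMuller m) = 2 ^ (m + 1) := by
  have e : Nat.card (Vec m × ZMod 2) = Nat.card (reedMuller m) := by
    refine Nat.card_congr (Equiv.ofBijective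
      (fun q => (⟨fun x => q.1 ⬝ᵥ x + q.2, q.1, q.2, fun _ => rfl⟩ : reedMuller m)) ⟨?_, ?_⟩)
    · rintro ⟨a, b⟩ ⟨a', b'⟩ h
      have h1 : ∀ x : Vec m, a ⬝ᵥ x + b = a' ⬝ᵥ x + b' := fun x =>
        congrFun (congrArg Subtype.val h) x
      have hb : b = b' := by simpa using h1 0
      subst hb
      have ha : a = a' := by
        funext j
        simpa using h1 (Pi.single j 1)
      rw [ha]
    · rintro ⟨f, a, b, h⟩
      exact ⟨(a, b), Subtype.ext (funext fun x => (h x).symm)⟩
  rw [← e, Nat.card_prod]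
  simp [pow_succ]

/-- counting functions through cosets -/
lemma card_fun_eq (m : ℕ) (P : ((Vec m → ZMod 2) ⧸ reedMuller m) → Prop) :
    Nat.card {g : Vec m → ZMod 2 // P ((reedMuller m).mkQ g)} =
      Nat.card {q : (Vec m → ZMod 2) ⧸ reedMuller m // P q} * 2 ^ (m + 1) := by
  classical
  have : Fintype ((Vec m → ZMod 2) ⧸ reedMuller m) := Fintype.ofFinite _
  have hfib : ∀ q : (Vec m → ZMod 2) ⧸ reedMuller m,
      Nat.card {g : Vec m → ZMod 2 // (reedMuller m).mkQ g = q} = 2 ^ (m + 1) := by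
    intro q
    obtain ⟨g0, rfl⟩ := Submodule.mkQ_surjective _ q
    rw [← card_reedMuller]
    refine Nat.card_congr ⟨fun g => ⟨g.1 - g0, ?_⟩, fun f => ⟨f.1 + g0, ?_⟩, ?_, ?_⟩
    · exact (Submodule.Quotient.eq _).1 g.2
    · exact (Submodule.Quotient.eq _).2 (by simp)
    · intro g; exact Subtype.ext (sub_add_cancel _ _)
    · intro f; exact Subtype.ext (add_sub_cancel_right _ _)
  have e : {g : Vec m → ZMod 2 // P ((reedMuller m).mkQ g)} ≃
      Σ q : {q : (Vec m → ZMod 2) ⧸ reedMuller m // P q},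
        {g : Vec m → ZMod 2 // (reedMuller m).mkQ g = q.1} :=
    ⟨fun g => ⟨⟨_, g.2⟩, ⟨g.1, rfl⟩⟩, fun s => ⟨s.2.1, by rw [s.2.2]; exact s.1.2⟩,
      fun g => rfl, fun s => by
        rcases s with ⟨⟨q, hq⟩, ⟨g, hg⟩⟩
        dsimp only at hg
        subst hg
        rfl⟩
  rw [Nat.card_congr e, Nat.card_sigma]
  simp_rw [hfib]
  rw [Finset.sum_const, Finset.card_univ, smul_eq_mul, Nat.card_eq_fintype_card]

lemma sum_leaderCount (m i : ℕ) :
    ∑ j ∈ range (i + 1), leaderCount m j =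
      Nat.card {q : (Vec m → ZMod 2) ⧸ reedMuller m // leaderWeight q ≤ i} := by
  classical
  have : Fintype ((Vec m → ZMod 2) ⧸ reedMuller m) := Fintype.ofFinite _
  have h1 : ∀ j, leaderCount m j =
      #{q : (Vec m → ZMod 2) ⧸ reedMuller m | leaderWeight q = j} := by
    intro j
    rw [leaderCount, Nat.card_eq_fintype_card, Fintype.card_subtype]
  simp_rw [h1]
  rw [Nat.card_eq_fintype_card, Fintype.card_subtype,
    Finset.card_eq_sum_card_fiberwise (f := fun q => leaderWeight q) (t := range (i + 1))]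
  · refine Finset.sum_congr rfl fun j hj => ?_
    congr 1
    ext q
    simp only [mem_filter, mem_univ, true_and]
    have := mem_range.1 hj
    omega
  · intro q hq
    simp only [coe_filter, mem_univ, true_and, Set.mem_ofPred_eq, coe_range, Set.mem_Iio] at hq ⊢
    omega

/-- The cumulative numbers in terms of `good`. -/
theorem cumulative {M : ℕ} (hM : 2 ^ m = 2 * M) (i : ℕ) :
    (∑ j ∈ range (i + 1), (leaderCount m j : ℝ)) * 2 ^ (m + 1) =
      2 ^ (2 ^ m) * (1 - good (nz m) chi M i) := by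
  classical
  have h1 := card_fun_eq m (fun q => leaderWeight q ≤ i)
  rw [← sum_leaderCount] at h1
  have h2 : Nat.card {g : Vec m → ZMod 2 // leaderWeight ((reedMuller m).mkQ g) ≤ i} =
      #{A : Finset (Vec m) | ¬ (¬ bad (nz m) chi ((M : ℤ) - i) A ∧
        |(#A : ℤ) - M| < (M : ℤ) - i)} := by
    rw [Nat.card_eq_fintype_card, Fintype.card_subtype]
    refine (Finset.card_equiv (indE m) fun A => ?_).symm
    rw [mem_filter, mem_filter]
    simp only [mem_univ, true_and]
    exact (far_iff hM i A).symm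
  have h3 := Finset.card_filter_add_card_filter_not (s := (univ : Finset (Finset (Vec m))))
    (p := fun A => ¬ bad (nz m) chi ((M : ℤ) - i) A ∧ |(#A : ℤ) - M| < (M : ℤ) - i)
  rw [Finset.card_univ, Fintype.card_finset, card_vec] at h3
  rw [h2] at h1
  have h4 : (∑ j ∈ range (i + 1), (leaderCount m j : ℝ)) * 2 ^ (m + 1) =
      ((∑ j ∈ range (i + 1), leaderCount m j) * 2 ^ (m + 1) : ℕ) := by push_cast; rfl
  rw [h4, ← h1, good, pr_eq_card, card_vec, mul_sub, mul_one,
    mul_div_cancel₀ _ (by positivity : (2 : ℝ) ^ 2 ^ m ≠ 0), eq_sub_iff_add_eq, add_comm]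
  exact_mod_cast h3

/-- Upper bound by the number of leaders. -/
theorem le_leaders {M : ℕ} (hM : 2 ^ m = 2 * M) (i : ℕ) (hi : i ≤ M) :
    (leaderCount m i : ℝ) ≤
      (2 ^ m).choose i * prk i (fun A => ¬ bad (nz m) chi ((M : ℤ) - i + 1) A) := by
  classical
  have hpos : ((2 ^ m).choose i : ℝ) ≠ 0 := by
    have := Nat.choose_pos (show i ≤ 2 ^ m by omega)
    exact_mod_cast this.ne'
  rw [prk_eq_card, card_vec, mul_div_cancel₀ _ hpos]
  have : leaderCount m i ≤ #{S ∈ powersetCard i (univ : Finset (Vec m)) |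
      ¬ bad (nz m) chi ((M : ℤ) - i + 1) S} := by
    rw [leaderCount, ← Fintype.card_coe, ← Nat.card_eq_fintype_card]
    refine Nat.card_le_card_of_surjective (fun A => ⟨(reedMuller m).mkQ (ind A.1), ?_⟩) ?_
    · have := A.2
      rw [mem_filter, mem_powersetCard] at this
      exact (leader_iff hM i hi A.1 this.1.2).2 this.2
    · rintro ⟨q, hq⟩
      have hne : {w | ∃ f : Vec m → ZMod 2, (reedMuller m).mkQ f = q ∧
          hammingNorm f = w}.Nonempty := by
        obtain ⟨f, rfl⟩ := (reedMuller m).mkQ_surjective q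
        exact ⟨_, f, rfl, rfl⟩
      obtain ⟨f, hf, hw⟩ := Nat.sInf_mem hne
      obtain ⟨A, rfl⟩ := ind_surjective f
      rw [norm_ind] at hw
      have hw' : #A = i := by rw [hw]; exact hq
      refine ⟨⟨A, ?_⟩, ?_⟩
      · rw [mem_filter, mem_powersetCard]
        refine ⟨⟨subset_univ _, hw'⟩, ?_⟩
        apply (leader_iff hM i hi A hw').1
        rw [hf]; exact hq
      · simp only [Subtype.mk.injEq]
        exact hf
  exact_mod_cast this

/-- Lower bound by the number of unique leaders. -/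
theorem unique_le {M : ℕ} (hM : 2 ^ m = 2 * M) (i : ℕ) (hi : i < M) :
    (2 ^ m).choose i * (1 - prk i (bad (nz m) chi ((M : ℤ) - i))) ≤ (leaderCount m i : ℝ) := by
  classical
  have hpos : ((2 ^ m).choose i : ℝ) ≠ 0 := by
    have := Nat.choose_pos (show i ≤ 2 ^ m by omega)
    exact_mod_cast this.ne'
  rw [← prk_not i (by rw [card_vec]; omega), prk_eq_card, card_vec, mul_div_cancel₀ _ hpos]
  have : #{S ∈ powersetCard i (univ : Finset (Vec m)) |
      ¬ bad (nz m) chi ((M : ℤ) - i) S} ≤ leaderCount m i := by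
    rw [leaderCount, ← Fintype.card_coe, ← Nat.card_eq_fintype_card]
    have hfin : Finite {q : (Vec m → ZMod 2) ⧸ reedMuller m // leaderWeight q = i} :=
      Subtype.finite
    refine Nat.card_le_card_of_injective (fun A => ⟨(reedMuller m).mkQ (ind A.1), ?_⟩) ?_
    · have := A.2
      rw [mem_filter, mem_powersetCard] at this
      refine (leader_iff hM i hi.le A.1 this.1.2).2 ?_
      rintro ⟨a, ha, h⟩
      exact this.2 ⟨a, ha, by linarith⟩
    · rintro ⟨A, hA⟩ ⟨B, hB⟩ hAB
      rw [mem_filter, mem_powersetCard] at hA hB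
      simp only [Subtype.mk.injEq] at hAB ⊢
      exact unique_leader hM i hi A B hA.1.2 hB.1.2 hA.2 hAB.symm
  exact_mod_cast this

end Pool.Agent.RMC68
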