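import Pool.Agent.RMC68.Heavy

/-!
# Cosets of very large weight are very rare
-/

set_option autoImplicit false

open Finset

namespace Pool.Agent.RMC68

open Pool.Agent.RMC

lemma heavy_anti (m : ℕ) {i j : ℕ} (hij : i ≤ j) :
    (Nat.card {q : (Vec m → ZMod 2) ⧸ reedMuller m // j < leaderWeight q} : ℝ) ≤
      Nat.card {q : (Vec m → ZMod 2) ⧸ reedMuller m // i < leaderWeight q} := by
  have h : Nat.card {q : (Vec m → ZMod 2) ⧸ reedMuller m // j < leaderWeight q} ≤
      Nat.card {q : (Vec m → ZMod 2) ⧸ reedMuller m // i < leaderWeight q} := by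
    refine Nat.card_le_card_of_injective
      (fun q => ⟨q.1, lt_of_le_of_lt hij q.2⟩) ?_
    intro a b hab
    simp only [Subtype.mk.injEq] at hab
    exact Subtype.ext hab
  exact_mod_cast h

lemma exp_aux (Q P l : ℝ) (hP : 0 < P) (hQ : 100000000 * P < Q)
    (h1 : 8000000 * P * (1 + l) ≤ Q) (h2 : Q < 8000000 * P * (1 + 4 * l)) (hl : 0 ≤ l) :
    -l + 2000000 * P * (1 + l) ^ 2 / Q ≤ -(Q / (100000000 * P)) := by
  have hQ0 : 0 < Q := by
    have : 0 < 100000000 * P := by positivity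
    linarith
  have h3 : 2000000 * P * (1 + l) ^ 2 / Q ≤ (1 + l) / 4 := by
    rw [div_le_div_iff₀ hQ0 (by norm_num)]
    have h4 : 0 ≤ 1 + l := by linarith
    have h5 := mul_le_mul_of_nonneg_left h1 h4
    nlinarith
  have h4 : Q / (100000000 * P) < (8 / 100) * (1 + 4 * l) := by
    rw [div_lt_iff₀ (by positivity)]
    have : (8 / 100) * (1 + 4 * l) * (100000000 * P) = 8000000 * P * (1 + 4 * l) := by ring
    rw [this]
    exact h2
  have h5 : (25 : ℝ) / 2 < 1 + 4 * l := by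
    have h6 : 8000000 * P * (25 / 2) < 8000000 * P * (1 + 4 * l) := by
      have : 8000000 * P * (25 / 2) = 100000000 * P := by ring
      rw [this]
      linarith
    exact lt_of_mul_lt_mul_left h6 (by positivity)
  linarith

theorem law_beyond (m : ℕ) (hm : 1 ≤ m) (i : ℕ)
    (h : (2 : ℝ) ^ (m / 4) < 2000000 * (m : ℝ) ^ 2 * (1 + lamN (2 ^ m) i)) :
    (Nat.card {q : (Vec m → ZMod 2) ⧸ reedMuller m // i < leaderWeight q} : ℝ) ≤
      3 * 2 ^ (2 ^ m - m - 1) * Real.exp (-(2 ^ (m / 4) / (100000000 * (m : ℝ) ^ 2))) := by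
  obtain ⟨M, hM⟩ : ∃ M, 2 ^ m = 2 * M := by
    obtain ⟨k, rfl⟩ := Nat.exists_eq_add_of_le hm
    exact ⟨2 ^ k, by rw [pow_add, pow_one]⟩
  have hm1 : (1 : ℝ) ≤ m := by exact_mod_cast hm
  have hP : (0 : ℝ) < (m : ℝ) ^ 2 := by positivity
  set Q : ℝ := (2 : ℝ) ^ (m / 4) with hQ
  set P : ℝ := (m : ℝ) ^ 2 with hPd
  have hQ0 : 0 < Q := by positivity
  have htot : ∀ j, (Nat.card {q : (Vec m → ZMod 2) ⧸ reedMuller m // j < leaderWeight q} : ℝ) ≤
      2 ^ (2 ^ m - m - 1) := by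
    intro j
    rw [heavy_eq hM]
    have h1 := good_le_one hM j
    have h2 : (0 : ℝ) < 2 ^ (2 ^ m - m - 1) := by positivity
    nlinarith
  rcases le_or_gt Q (100000000 * P) with hcase | hcase
  · refine (htot i).trans ?_
    have h1 : Real.exp (-1) ≤ Real.exp (-(Q / (100000000 * P))) := by
      apply Real.exp_le_exp.2
      have : Q / (100000000 * P) ≤ 1 := div_le_one_of_le₀ hcase (by positivity)
      linarith
    have h2 : 1 / 3 ≤ Real.exp (-1) := by
      rw [Real.exp_neg, ← one_div]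
      apply one_div_le_one_div_of_le (Real.exp_pos 1)
      have := Real.exp_one_lt_d9
      linarith
    have h3 : (0 : ℝ) < 2 ^ (2 ^ m - m - 1) := by positivity
    nlinarith
  · -- parameters
    set X : ℕ := 2 ^ (m / 4) with hX
    have hXr : (X : ℝ) = Q := by rw [hX, hQ]; push_cast; rfl
    have hXn : 2000000 * m ^ 2 ≤ X := by
      have h1 : (2000000 : ℝ) * (m : ℝ) ^ 2 ≤ X := by
        rw [hXr, ← hPd]; linarith
      exact_mod_cast h1
    have hN1 : X ^ 4 ≤ 2 ^ m := by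
      rw [hX, ← pow_mul]
      exact Nat.pow_le_pow_right (by norm_num) (by omega)
    have hN2 : 2 ^ m ≤ 8 * X ^ 4 := by
      rw [hX, ← pow_mul, show (8 : ℕ) = 2 ^ 3 by norm_num, ← pow_add]
      exact Nat.pow_le_pow_right (by norm_num) (by omega)
    set R := 4 * m * X ^ 2 with hR
    obtain ⟨p1, p2, p3, p4, p5, p6, p7, p8, p9⟩ :=
      params2 m X (2 ^ m) M R (16 * m * X + 1) (2 ^ m / (16 * R)) hm hXn hN1 hN2 hM rfl rfl rfl
    have hM0 : 0 < M := by
      have : 0 < 2 ^ m := by positivity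
      omega
    have hR0 : 0 < R := by omega
    -- small levels
    have hsmall : ∀ j, j + R ≤ M → lamN (2 ^ m) j ≤ 4 := by
      intro j hj
      have h1 := lamN_small hM hM0 R j hj
      refine h1.trans ?_
      have hRN : 2 * (m : ℝ) ^ 2 ≤ (R : ℝ) ^ 2 / 2 ^ m := by
        rw [le_div_iff₀ (by positivity), mul_comm]
        exact_mod_cast p6
      have h2 : Real.exp (-(2 * (R : ℝ) ^ 2 / 2 ^ m)) ≤ 1 / 2 ^ m := by
        rw [Real.exp_neg, ← one_div]
        apply one_div_le_one_div_of_le (by positivity)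
        have h3 : (2 : ℝ) ^ m ≤ Real.exp m := by
          have h4 : Real.exp (m : ℝ) = Real.exp 1 ^ m := by
            rw [← Real.exp_nat_mul, mul_one]
          rw [h4]
          apply pow_le_pow_left₀ (by norm_num)
          have := Real.exp_one_gt_d9
          linarith
        refine h3.trans (Real.exp_le_exp.2 ?_)
        have h5 : 2 * (R : ℝ) ^ 2 / 2 ^ m = 2 * ((R : ℝ) ^ 2 / 2 ^ m) := by ring
        rw [h5]
        have h6 : (m : ℝ) ≤ m ^ 2 := by
          calc (m : ℝ) = m ^ 1 := (pow_one _).symm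
            _ ≤ m ^ 2 := pow_le_pow_right₀ hm1 (by norm_num)
        have h7 : (0 : ℝ) ≤ (m : ℝ) ^ 2 := by positivity
        linarith
      calc 4 * (2 : ℝ) ^ m * Real.exp (-(2 * (R : ℝ) ^ 2 / 2 ^ m)) ≤
            4 * (2 : ℝ) ^ m * (1 / 2 ^ m) := by gcongr
        _ = 4 := by field_simp
    have hex : ∃ k, Q < 8000000 * P * (1 + lamN (2 ^ m) k) := by
      refine ⟨i, ?_⟩
      have h1 := lamN_nonneg (2 ^ m) i
      have h2 : 0 ≤ P * (1 + lamN (2 ^ m) i) := by positivity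
      have h3 : 8000000 * P * (1 + lamN (2 ^ m) i) =
        4 * (2000000 * P * (1 + lamN (2 ^ m) i)) := by ring
      rw [h3]
      linarith
    classical
    set k1 := Nat.find hex with hk1
    have hk1a := Nat.find_spec hex
    have hk1b := fun k hk => Nat.find_min hex (m := k) hk
    have hk1i : k1 ≤ i := by
      apply Nat.find_min' hex
      have h1 := lamN_nonneg (2 ^ m) i
      have h2 : 0 ≤ P * (1 + lamN (2 ^ m) i) := by positivity
      have h3 : 8000000 * P * (1 + lamN (2 ^ m) i) =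
        4 * (2000000 * P * (1 + lamN (2 ^ m) i)) := by ring
      rw [h3]
      linarith
    have hk1R : M < k1 + R := by
      by_contra hcon
      push Not at hcon
      have h1 := hsmall k1 hcon
      have h2 : Q < 8000000 * P * (1 + lamN (2 ^ m) k1) := hk1a
      have h3 : 8000000 * P * (1 + lamN (2 ^ m) k1) ≤ 8000000 * P * (1 + 4) := by gcongr
      linarith
    have hRM : R ≤ M := by omega
    have hk10 : 1 ≤ k1 := by omega
    have hk : 8000000 * P * (1 + lamN (2 ^ m) (k1 - 1)) ≤ Q :=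
      not_lt.1 (hk1b (k1 - 1) (by omega))
    have hstep : lamN (2 ^ m) k1 ≤ 4 * lamN (2 ^ m) (k1 - 1) := by
      have h3 := lamN_step (2 ^ m) (k1 - 1)
      rw [Nat.sub_add_cancel hk10] at h3
      have h4 := choose_add_le M R (k1 - 1) 1 p1 hM0 (by omega) (by
        have : 8 * R * 1 ≤ 8 * R * (2 ^ m / (16 * R)) := by gcongr
        omega)
      rw [← hM, Nat.sub_add_cancel hk10] at h4
      have h5 : 2 * ((2 ^ m : ℕ) : ℝ) * ((2 ^ m).choose (k1 - 1) : ℝ) / 2 ^ 2 ^ m ≤
          lamN (2 ^ m) (k1 - 1) := by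
        rw [lamN]
        have h6 : ((2 ^ m).choose (k1 - 1) : ℝ) ≤
            ∑ l ∈ range (k1 - 1 + 1), ((2 ^ m).choose l : ℝ) :=
          Finset.single_le_sum (f := fun l => ((2 ^ m).choose l : ℝ))
            (fun _ _ => by positivity) (by rw [mem_range]; omega)
        gcongr
      have h7 : 2 * ((2 ^ m : ℕ) : ℝ) * ((2 ^ m).choose k1 : ℝ) / 2 ^ 2 ^ m ≤
          3 * (2 * ((2 ^ m : ℕ) : ℝ) * ((2 ^ m).choose (k1 - 1) : ℝ) / 2 ^ 2 ^ m) := by
        calc 2 * ((2 ^ m : ℕ) : ℝ) * ((2 ^ m).choose k1 : ℝ) / 2 ^ 2 ^ m ≤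
              2 * ((2 ^ m : ℕ) : ℝ) * (3 * ((2 ^ m).choose (k1 - 1) : ℝ)) / 2 ^ 2 ^ m := by
              gcongr
          _ = _ := by ring
      linarith
    have hcond : 2000000 * (m : ℝ) ^ 2 * (1 + lamN (2 ^ m) (k1 - 1)) ≤ 2 ^ (m / 4) := by
      rw [← hPd, ← hQ]
      have h1 := lamN_nonneg (2 ^ m) (k1 - 1)
      have h2 : 0 ≤ P * (1 + lamN (2 ^ m) (k1 - 1)) := by positivity
      have h3 : 8000000 * P * (1 + lamN (2 ^ m) (k1 - 1)) =
        4 * (2000000 * P * (1 + lamN (2 ^ m) (k1 - 1))) := by ring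
      rw [h3] at hk
      have h4 : 0 ≤ 2000000 * P * (1 + lamN (2 ^ m) (k1 - 1)) := by positivity
      linarith
    obtain ⟨-, θ, hθ1, hθ2⟩ := law_rel m hm (k1 - 1) hcond
    refine (heavy_anti m (show k1 - 1 ≤ i by omega)).trans ?_
    rw [hθ2]
    have hkl : Q < 8000000 * P * (1 + 4 * lamN (2 ^ m) (k1 - 1)) := by
      refine lt_of_lt_of_le hk1a ?_
      gcongr
    have hexp := exp_aux Q P (lamN (2 ^ m) (k1 - 1)) hP hcase hk hkl (lamN_nonneg _ _)
    rw [← hPd, ← hQ] at hθ1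
    have h1 : Real.exp (-lamN (2 ^ m) (k1 - 1) + θ) ≤ Real.exp (-(Q / (100000000 * P))) := by
      apply Real.exp_le_exp.2
      have := le_abs_self θ
      linarith
    have h2 : (0 : ℝ) < 2 ^ (2 ^ m - m - 1) := by positivity
    have h3 := Real.exp_pos (-(Q / (100000000 * P)))
    calc (2 : ℝ) ^ (2 ^ m - m - 1) * Real.exp (-lamN (2 ^ m) (k1 - 1) + θ) ≤
          2 ^ (2 ^ m - m - 1) * Real.exp (-(Q / (100000000 * P))) := by gcongr
      _ ≤ _ := by nlinarith [mul_pos h2 h3]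

end Pool.Agent.RMC68
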