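import Pool.Agent.RMC68.Tail

/-!
# Comparison of two levels
-/

set_option autoImplicit false

open Finset

namespace Pool.Agent.RMC68

variable {α : Type*} [Fintype α] [DecidableEq α]

lemma nested_aux (i j : ℕ) (hij : i ≤ j) (hj : j ≤ Fintype.card α) :
    ∃ A0 B0 D0 : Finset α, #A0 = i ∧ #B0 = j ∧ #D0 = j - i ∧
      ∀ (χ : α → ℤ) (σ : Equiv.Perm α),
        ∑ x ∈ B0.map σ.toEmbedding, χ x = ∑ x ∈ A0.map σ.toEmbedding, χ x +
          ∑ x ∈ D0.map σ.toEmbedding, χ x := by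
  obtain ⟨B0, -, hB⟩ := Finset.exists_subset_card_eq (s := (univ : Finset α)) (n := j)
    (by rwa [Finset.card_univ])
  obtain ⟨A0, hAB, hA⟩ := Finset.exists_subset_card_eq (s := B0) (n := i) (by rwa [hB])
  refine ⟨A0, B0, B0 \ A0, hA, hB, by rw [Finset.card_sdiff_of_subset hAB, hA, hB], ?_⟩
  intro χ σ
  rw [Finset.sum_map, Finset.sum_map, Finset.sum_map, add_comm]
  exact (Finset.sum_sdiff hAB).symm

lemma nested (i j : ℕ) (hi : i ≤ Fintype.card α) (hj : j ≤ Fintype.card α) :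
    ∃ A0 B0 D0 : Finset α, #A0 = i ∧ #B0 = j ∧ (#D0 : ℝ) = |(i : ℝ) - j| ∧
      ∀ (χ : α → ℤ) (σ : Equiv.Perm α),
        |∑ x ∈ A0.map σ.toEmbedding, χ x - ∑ x ∈ B0.map σ.toEmbedding, χ x| =
          |∑ x ∈ D0.map σ.toEmbedding, χ x| := by
  rcases le_total i j with h | h
  · obtain ⟨A0, B0, D0, hA, hB, hD, hs⟩ := nested_aux (α := α) i j h hj
    refine ⟨A0, B0, D0, hA, hB, ?_, ?_⟩
    · rw [hD, Nat.cast_sub h, abs_of_nonpos (by
        have : (i : ℝ) ≤ j := by exact_mod_cast h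
        linarith)]
      ring
    · intro χ σ
      rw [hs χ σ, sub_add_cancel_left, abs_neg]
  · obtain ⟨A0, B0, D0, hA, hB, hD, hs⟩ := nested_aux (α := α) j i h hi
    refine ⟨B0, A0, D0, hB, hA, ?_, ?_⟩
    · rw [hD, Nat.cast_sub h, abs_of_nonneg (by
        have : (j : ℝ) ≤ i := by exact_mod_cast h
        linarith)]
    · intro χ σ
      rw [hs χ σ, add_sub_cancel_left]

variable {ι : Type*} (s : Finset ι) (χ : ι → α → ℤ)

/-- some sum over the set is at least `k` in absolute value -/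
def bad (k : ℤ) (A : Finset α) : Prop := ∃ a ∈ s, k ≤ |∑ x ∈ A, χ a x|

/-- some sum over the set is `k` in absolute value -/
def tie (k : ℤ) (A : Finset α) : Prop := ∃ a ∈ s, |∑ x ∈ A, χ a x| = k

/-- the sum for `a` is within `δ` of `k` in absolute value -/
def win (k δ : ℤ) (a : ι) (A : Finset α) : Prop :=
  k - δ ≤ |∑ x ∈ A, χ a x| ∧ |∑ x ∈ A, χ a x| < k + δ

/-- The comparison of the levels `i` and `j`. -/
theorem couple (hχ : ∀ a ∈ s, ∀ x, χ a x = 1 ∨ χ a x = -1) (hsum : ∀ a ∈ s, ∑ x, χ a x = 0)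
    (hα : 0 < Fintype.card α) (i j : ℕ) (hi : i ≤ Fintype.card α) (hj : j ≤ Fintype.card α)
    (dm : ℝ) (hdm : 0 < dm) (hd : |(i : ℝ) - j| ≤ dm) (k : ℤ) (δ : ℕ) (hδ : 0 < δ) :
    |prk i (bad s χ k) - prk j (bad s χ k)| ≤
      #s * (2 * Fintype.card α * Real.exp (-((δ : ℝ) ^ 2 / (2 * dm)))) +
        ∑ a ∈ s, prk j (win χ k δ a) ∧
    prk i (tie s χ k) ≤
      #s * (2 * Fintype.card α * Real.exp (-((δ : ℝ) ^ 2 / (2 * dm)))) +
        ∑ a ∈ s, prk j (win χ k δ a) := by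
  obtain ⟨A0, B0, D0, hA, hB, hD, hs⟩ := nested (α := α) i j hi hj
  set G : Equiv.Perm α → Prop := fun σ => ∃ a ∈ s,
    ((δ : ℝ) ≤ |((∑ x ∈ D0.map σ.toEmbedding, χ a x : ℤ) : ℝ)| ∨
      win χ k δ a (B0.map σ.toEmbedding)) with hG
  have hGle : prP G ≤ #s * (2 * Fintype.card α * Real.exp (-((δ : ℝ) ^ 2 / (2 * dm)))) +
        ∑ a ∈ s, prk j (win χ k δ a) := by
    rw [← nsmul_eq_mul, ← Finset.sum_const, ← Finset.sum_add_distrib]
    refine (prP_exists s _).trans (Finset.sum_le_sum fun a ha => ?_)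
    refine (prP_or _ _).trans (add_le_add ?_ (le_of_eq ?_))
    · rw [prP_map D0 (fun D : Finset α => (δ : ℝ) ≤ |((∑ x ∈ D, χ a x : ℤ) : ℝ)|)]
      refine tail_balanced (χ a) (hχ a ha) (hsum a ha) hα _ (Finset.card_le_univ _) dm δ ?_ hdm
        (by positivity)
      rw [hD]; exact hd
    · rw [prP_map B0, hB]
  have hoff : ∀ σ, ¬ G σ → ∀ a ∈ s,
      (k ≤ |∑ x ∈ A0.map σ.toEmbedding, χ a x| ↔ k ≤ |∑ x ∈ B0.map σ.toEmbedding, χ a x|) ∧
        |∑ x ∈ A0.map σ.toEmbedding, χ a x| ≠ k := by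
    intro σ hσ a ha
    have h1 : ¬ ((δ : ℝ) ≤ |((∑ x ∈ D0.map σ.toEmbedding, χ a x : ℤ) : ℝ)| ∨
      win χ k δ a (B0.map σ.toEmbedding)) := fun h => hσ ⟨a, ha, h⟩
    rw [not_or] at h1
    obtain ⟨h2, h3⟩ := h1
    rw [win] at h3
    have h4 : |∑ x ∈ D0.map σ.toEmbedding, χ a x| < (δ : ℤ) := by
      rw [not_le] at h2
      exact_mod_cast h2
    rw [← hs] at h4
    generalize (∑ x ∈ A0.map σ.toEmbedding, χ a x) = u at *
    generalize (∑ x ∈ B0.map σ.toEmbedding, χ a x) = v at *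
    have h5 : |u| ≤ |v| + |u - v| := by
      have := abs_add_le v (u - v)
      rwa [add_sub_cancel] at this
    have h6 : |v| ≤ |u| + |u - v| := by
      have := abs_sub_abs_le_abs_sub v u
      rw [abs_sub_comm v u] at this
      linarith
    generalize |u - v| = w at *
    generalize |u| = u' at *
    generalize |v| = v' at *
    omega
  constructor
  · rw [← hA, ← hB, ← prP_map A0, ← prP_map B0, abs_le]
    rw [hB]
    constructor
    · have := prP_sub_le (q := fun σ : Equiv.Perm α => bad s χ k (B0.map σ.toEmbedding))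
        (r := fun σ : Equiv.Perm α => bad s χ k (A0.map σ.toEmbedding)) (G := G) ?_
      · linarith
      · rintro σ ⟨a, ha, h⟩ hnot
        by_contra hcon
        exact hnot ⟨a, ha, ((hoff σ hcon a ha).1).2 h⟩
    · have := prP_sub_le (q := fun σ : Equiv.Perm α => bad s χ k (A0.map σ.toEmbedding))
        (r := fun σ : Equiv.Perm α => bad s χ k (B0.map σ.toEmbedding)) (G := G) ?_
      · linarith
      · rintro σ ⟨a, ha, h⟩ hnot
        by_contra hcon
        exact hnot ⟨a, ha, ((hoff σ hcon a ha).1).1 h⟩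
  · rw [← hA, ← prP_map A0]
    refine (prP_mono (r := G) ?_).trans hGle
    rintro σ ⟨a, ha, h⟩
    by_contra hcon
    exact (hoff σ hcon a ha).2 h

end Pool.Agent.RMC68
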