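import Mathlib

/-!
# A discrete delay differential equation
-/

set_option autoImplicit false

open Finset

namespace Pool.Agent.RMC68

/-- elementary inequality for the logarithm -/
lemma log_low (x y d w t : ℝ) (hy : y = d * (1 - t - 4 * w)) (hd0 : 0 ≤ d) (hdw : d ≤ w)
    (ht0 : 0 ≤ t) (hw0 : 0 ≤ w) (h1 : 0 < 1 - t - 4 * w) (hyx : y ≤ x) :
    d - d * (2 * t + 8 * w) ≤ Real.log (1 + x) := by
  have hy0 : 0 ≤ y := by rw [hy]; positivity
  have hx0 : 0 ≤ x := hy0.trans hyx
  have h11 := Real.one_sub_inv_le_log_of_pos (by linarith : 0 < 1 + x)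
  have h12 : 1 - (1 + x)⁻¹ = x / (1 + x) := by
    field_simp
    ring
  rw [h12] at h11
  have h13 : y / (1 + y) ≤ x / (1 + x) := by
    rw [div_le_div_iff₀ (by linarith) (by linarith)]
    linarith
  have h14 : y - y ^ 2 ≤ y / (1 + y) := by
    rw [le_div_iff₀ (by linarith)]
    have : (y - y ^ 2) * (1 + y) = y - y ^ 3 := by ring
    rw [this]
    have := pow_nonneg hy0 3
    linarith
  have h17 : y ≤ d := by
    rw [hy]
    have h18 : 1 - t - 4 * w ≤ 1 := by linarith
    calc d * (1 - t - 4 * w) ≤ d * 1 := by gcongr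
      _ = d := mul_one d
  have h15 : y ^ 2 ≤ d * w := by
    rw [pow_two]
    exact mul_le_mul h17 (h17.trans hdw) hy0 hd0
  have h16 : y = d - d * t - 4 * (d * w) := by rw [hy]; ring
  have h19 : 0 ≤ d * t := mul_nonneg hd0 ht0
  have h20 : 0 ≤ d * w := mul_nonneg hd0 hw0
  have h21 : d - d * (2 * t + 8 * w) = d - 2 * (d * t) - 8 * (d * w) := by ring
  rw [h21]
  linarith

section

variable (u p lam : ℕ → ℝ) (D n : ℕ) (w t : ℝ)

lemma delay_sum (ht0 : 0 ≤ t) (hu : Antitone u) (hl : Monotone lam)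
    (hstep : ∀ i, i + 1 ≤ n + D → u i - u (i + 1) = (lam (i + 1) - lam i) * p (i + 1))
    (hup : ∀ i ≤ n + D, p i ≤ (1 + t) * u (i - D)) (a r : ℕ) (har : a + r ≤ n + D) :
    u a - u (a + r) ≤ (lam (a + r) - lam a) * ((1 + t) * u (a - D)) := by
  induction r with
  | zero => simp
  | succ r ih =>
    have h1 := ih (by omega)
    have h2 := hstep (a + r) (by omega)
    have h3 := hup (a + r + 1) (by omega)
    have h4 : u (a + r + 1 - D) ≤ u (a - D) := hu (by omega)
    have h5 : lam (a + r) ≤ lam (a + r + 1) := hl (by omega)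
    have h6 : p (a + r + 1) ≤ (1 + t) * u (a - D) := by
      refine h3.trans ?_
      gcongr
    have h7 : (lam (a + r + 1) - lam (a + r)) * p (a + r + 1) ≤
        (lam (a + r + 1) - lam (a + r)) * ((1 + t) * u (a - D)) := by
      apply mul_le_mul_of_nonneg_left h6
      linarith
    rw [← add_assoc]
    linarith

lemma delay_ratio (hD : 1 ≤ D) (ht0 : 0 ≤ t) (ht : t ≤ 1 / 2) (hw0 : 0 ≤ w) (hw : w ≤ 1 / 16)
    (hu : Antitone u) (hl : Monotone lam)
    (hstep : ∀ i, i + 1 ≤ n + D → u i - u (i + 1) = (lam (i + 1) - lam i) * p (i + 1))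
    (hup : ∀ i ≤ n + D, p i ≤ (1 + t) * u (i - D))
    (hwin : ∀ i ≤ n + D, lam i - lam (i - D) ≤ w) (hu0 : 0 < u 0) :
    ∀ i ≤ n + D, 0 < u i ∧ (1 - 4 * w) * u (i - D) ≤ u i := by
  intro i
  induction i using Nat.strong_induction_on with
  | _ i ih =>
    intro hi
    rcases Nat.eq_zero_or_pos i with h0 | h0
    · subst h0
      rw [Nat.zero_sub]
      refine ⟨hu0, ?_⟩
      nlinarith
    · set a := i - D with ha
      have hai : a < i := by omega
      obtain ⟨r, hr⟩ : ∃ r, i = a + r := ⟨i - a, by omega⟩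
      have h1 := delay_sum u p lam D n t ht0 hu hl hstep hup a r (by omega)
      rw [← hr] at h1
      obtain ⟨h2, h3⟩ := ih a hai (by omega)
      have h4 := hwin i hi
      rw [← ha] at h4
      have h5 : lam a ≤ lam i := hl hai.le
      have h6 : 0 < u (a - D) := lt_of_lt_of_le h2 (hu (Nat.sub_le a D))
      have h7 : u (a - D) ≤ 4 / 3 * u a := by nlinarith
      have h8 : (lam i - lam a) * ((1 + t) * u (a - D)) ≤ w * ((3 / 2) * (4 / 3 * u a)) := by
        have h9 : (1 + t) * u (a - D) ≤ (3 / 2) * (4 / 3 * u a) := by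
          have : 0 ≤ 1 + t := by linarith
          have h10 : 1 + t ≤ 3 / 2 := by linarith
          calc (1 + t) * u (a - D) ≤ (3 / 2) * u (a - D) := by gcongr
            _ ≤ (3 / 2) * (4 / 3 * u a) := by gcongr
        have h11 : 0 ≤ (1 + t) * u (a - D) := by positivity
        calc (lam i - lam a) * ((1 + t) * u (a - D)) ≤ w * ((1 + t) * u (a - D)) := by gcongr
          _ ≤ w * ((3 / 2) * (4 / 3 * u a)) := by gcongr
      have h9 : (1 - 4 * w) * u a ≤ u i := by nlinarith
      refine ⟨?_, h9⟩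
      refine lt_of_lt_of_le ?_ h9
      have : 0 < 1 - 4 * w := by linarith
      positivity

/-- The main estimate: `u` and `p` are `exp (-lam (1 + small))`. -/
theorem delay (e : ℝ) (hD : 1 ≤ D) (ht0 : 0 ≤ t) (ht : t ≤ 1 / 2) (hw0 : 0 ≤ w)
    (hw : w ≤ 1 / 16) (hu : Antitone u) (hl : Monotone lam) (hl0 : 0 ≤ lam 0)
    (hstep : ∀ i, i + 1 ≤ n + D → u i - u (i + 1) = (lam (i + 1) - lam i) * p (i + 1))
    (hup : ∀ i ≤ n + D, p i ≤ (1 + t) * u (i - D))
    (hlow : ∀ i ≤ n, (1 - t) * u (i + D) ≤ p i)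
    (hwin : ∀ i ≤ n + D, lam i - lam (i - D) ≤ w) (hu0 : 0 < u 0)
    (he : |Real.log (u 0) + lam 0| ≤ e) :
    ∀ i ≤ n, 0 < u i ∧ 0 < p i ∧ |Real.log (u i) + lam i| ≤ e + (2 * t + 8 * w) * lam i ∧
      |Real.log (p i) + lam i| ≤ e + (2 * t + 8 * w) * (1 + lam i) := by
  have hratio := delay_ratio u p lam D n w t hD ht0 ht hw0 hw hu hl hstep hup hwin hu0
  have hw4 : 0 < 1 - 4 * w := by linarith
  -- bounds for `p i / u i`
  have hpu : ∀ i ≤ n, (1 - t) * (1 - 4 * w) * u i ≤ p i ∧ p i ≤ (1 + t) * (1 + 8 * w) * u i := by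
    intro i hi
    obtain ⟨h1, h2⟩ := hratio i (by omega)
    obtain ⟨h3, h4⟩ := hratio (i + D) (by omega)
    rw [Nat.add_sub_cancel] at h4
    have h5 := hup i (by omega)
    have h6 := hlow i hi
    have ht1 : 0 ≤ 1 - t := by linarith
    constructor
    · calc (1 - t) * (1 - 4 * w) * u i = (1 - t) * ((1 - 4 * w) * u i) := by ring
        _ ≤ (1 - t) * u (i + D) := by gcongr
        _ ≤ p i := h6
    · refine h5.trans ?_
      have h7 : u (i - D) ≤ (1 + 8 * w) * u i := by
        have h8 : 0 < u (i - D) := lt_of_lt_of_le h1 (hu (Nat.sub_le i D))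
        have h9 : (1 + 8 * w) * ((1 - 4 * w) * u (i - D)) ≤ (1 + 8 * w) * u i := by gcongr
        have h10 : u (i - D) ≤ (1 + 8 * w) * ((1 - 4 * w) * u (i - D)) := by
          have h11 : 1 ≤ (1 + 8 * w) * (1 - 4 * w) := by nlinarith
          nlinarith
        linarith
      calc (1 + t) * u (i - D) ≤ (1 + t) * ((1 + 8 * w) * u i) := by gcongr
        _ = _ := by ring
  have hup1 : (1 + t) * (1 + 8 * w) ≤ 1 + 2 * t + 8 * w := by nlinarith
  have hlow1 : 1 - t - 4 * w ≤ (1 - t) * (1 - 4 * w) := by nlinarith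
  have hinc : ∀ i, i + 1 ≤ n →
      |Real.log (u i) - Real.log (u (i + 1)) - (lam (i + 1) - lam i)| ≤
        (lam (i + 1) - lam i) * (2 * t + 8 * w) := by
    intro i hi
    obtain ⟨h1, -⟩ := hratio i (by omega)
    obtain ⟨h2, -⟩ := hratio (i + 1) (by omega)
    obtain ⟨h3, h4⟩ := hpu (i + 1) hi
    have h5 := hstep i (by omega)
    set d := lam (i + 1) - lam i with hd
    have hd0 : 0 ≤ d := by
      have : lam i ≤ lam (i + 1) := hl (by omega)
      linarith
    have hdw : d ≤ w := by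
      have h6 := hwin (i + 1) (by omega)
      have h7 : lam (i + 1 - D) ≤ lam i := hl (by omega)
      linarith
    set x := d * p (i + 1) / u (i + 1) with hx
    have h6 : u i / u (i + 1) = 1 + x := by
      rw [hx]
      field_simp
      linarith
    have h7 : Real.log (u i) - Real.log (u (i + 1)) = Real.log (1 + x) := by
      rw [← Real.log_div h1.ne' h2.ne', h6]
    have h8 : x ≤ d * (1 + 2 * t + 8 * w) := by
      rw [hx, div_le_iff₀ h2]
      calc d * p (i + 1) ≤ d * ((1 + t) * (1 + 8 * w) * u (i + 1)) := by gcongr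
        _ ≤ d * ((1 + 2 * t + 8 * w) * u (i + 1)) := by gcongr
        _ = _ := by ring
    have h9 : d * (1 - t - 4 * w) ≤ x := by
      rw [hx, le_div_iff₀ h2]
      calc d * (1 - t - 4 * w) * u (i + 1) = d * ((1 - t - 4 * w) * u (i + 1)) := by ring
        _ ≤ d * ((1 - t) * (1 - 4 * w) * u (i + 1)) := by gcongr
        _ ≤ d * p (i + 1) := by gcongr
    have h10 : 0 < 1 - t - 4 * w := by linarith
    have hx0 : 0 ≤ x := le_trans (by positivity) h9
    rw [h7, abs_le]
    constructor
    · have h11 := log_low x (d * (1 - t - 4 * w)) d w t rfl hd0 hdw ht0 hw0 h10 h9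
      linarith
    · have h11 := Real.log_le_sub_one_of_pos (by linarith : 0 < 1 + x)
      linarith
  have hlog : ∀ i ≤ n, |Real.log (u i) + lam i| ≤ e + (2 * t + 8 * w) * (lam i - lam 0) := by
    intro i
    induction i with
    | zero => intro _; simpa using he
    | succ i ih =>
      intro hi
      have h1 := ih (by omega)
      have h2 := hinc i hi
      have h3 := abs_sub (Real.log (u i) + lam i)
        (Real.log (u i) - Real.log (u (i + 1)) - (lam (i + 1) - lam i))
      have h4 : Real.log (u i) + lam i -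
          (Real.log (u i) - Real.log (u (i + 1)) - (lam (i + 1) - lam i)) =
          Real.log (u (i + 1)) + (lam (i + 1)) := by ring
      rw [h4] at h3
      refine h3.trans ?_
      linarith
  intro i hi
  obtain ⟨h1, -⟩ := hratio i (by omega)
  obtain ⟨h3, h4⟩ := hpu i hi
  have ht1 : 0 < 1 - t := by linarith
  have hp : 0 < p i := lt_of_lt_of_le (by positivity) h3
  have h5 := hlog i hi
  have hC : 0 ≤ 2 * t + 8 * w := by linarith
  have h6 : |Real.log (u i) + lam i| ≤ e + (2 * t + 8 * w) * lam i := by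
    refine h5.trans ?_
    have : (2 * t + 8 * w) * (lam i - lam 0) ≤ (2 * t + 8 * w) * lam i := by
      apply mul_le_mul_of_nonneg_left _ hC
      linarith
    linarith
  refine ⟨h1, hp, h6, ?_⟩
  have h7 : |Real.log (p i) - Real.log (u i)| ≤ 2 * t + 8 * w := by
    have hq1 : Real.log (p i) ≤ Real.log ((1 + t) * (1 + 8 * w) * u i) :=
      Real.log_le_log hp h4
    have hq2 : Real.log ((1 - t) * (1 - 4 * w) * u i) ≤ Real.log (p i) :=
      Real.log_le_log (by positivity) h3
    rw [Real.log_mul (by positivity) h1.ne'] at hq1 hq2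
    rw [Real.log_mul (by positivity) (by positivity)] at hq1 hq2
    have a1 := Real.log_le_sub_one_of_pos (by linarith : 0 < 1 + t)
    have a2 := Real.log_le_sub_one_of_pos (by linarith : 0 < 1 + 8 * w)
    have a3 := Real.one_sub_inv_le_log_of_pos ht1
    have a4 := Real.one_sub_inv_le_log_of_pos hw4
    have a5 : -(2 * t) ≤ 1 - (1 - t)⁻¹ := by
      have : (1 - t)⁻¹ ≤ 1 + 2 * t := by
        rw [inv_le_comm₀ ht1 (by linarith), ← one_div, div_le_iff₀ (by linarith)]
        nlinarith
      linarith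
    have a6 : -(8 * w) ≤ 1 - (1 - 4 * w)⁻¹ := by
      have : (1 - 4 * w)⁻¹ ≤ 1 + 8 * w := by
        rw [inv_le_comm₀ hw4 (by linarith), ← one_div, div_le_iff₀ (by linarith)]
        nlinarith
      linarith
    rw [abs_le]
    constructor <;> linarith
  have h8 := abs_add_le (Real.log (u i) + lam i) (Real.log (p i) - Real.log (u i))
  have h9 : Real.log (u i) + lam i + (Real.log (p i) - Real.log (u i)) =
    Real.log (p i) + lam i := by ring
  rw [h9] at h8
  refine h8.trans ?_
  have h10 : (2 * t + 8 * w) * (1 + lam i) = (2 * t + 8 * w) * lam i + (2 * t + 8 * w) := by ring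
  linarith

end

end Pool.Agent.RMC68
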