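import Pool.Agent.RMC68.Tail

/-!
# Tail bound for a nearly balanced sign sum over a uniform subset of given size
-/

set_option autoImplicit false

open Finset

namespace Pool.Agent.RMC68

/-- the terms of the binomial expansion of `(h + (n-h))^n` -/
def bterm (n h t : ℕ) : ℕ := n.choose t * h ^ t * (n - h) ^ (n - t)

lemma bterm_up (n h t : ℕ) (hn : h ≤ n) (ht : t < h) : bterm n h t ≤ bterm n h (t + 1) := by
  have h1 := Nat.choose_succ_right_eq n t
  have h2 : n - t = (n - (t + 1)) + 1 := by omega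
  have h3 : n.choose t * (n - h) ≤ n.choose (t + 1) * h := by
    have h4 : (n.choose t * (n - h)) * (t + 1) ≤ (n.choose (t + 1) * h) * (t + 1) := by
      calc (n.choose t * (n - h)) * (t + 1) ≤ (n.choose t * (n - t)) * h := by
            have h5 : n - h ≤ n - t := by omega
            have h6 : t + 1 ≤ h := ht
            calc (n.choose t * (n - h)) * (t + 1) ≤ (n.choose t * (n - t)) * h := by gcongr
              _ = _ := rfl
        _ = (n.choose (t + 1) * h) * (t + 1) := by rw [← h1]; ring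
    exact Nat.le_of_mul_le_mul_right h4 (by omega)
  rw [bterm, bterm, h2, pow_succ, pow_succ]
  calc n.choose t * h ^ t * ((n - h) ^ (n - (t + 1)) * (n - h)) =
        (n.choose t * (n - h)) * (h ^ t * (n - h) ^ (n - (t + 1))) := by ring
    _ ≤ (n.choose (t + 1) * h) * (h ^ t * (n - h) ^ (n - (t + 1))) := by gcongr
    _ = _ := by ring

lemma bterm_down (n h t : ℕ) (hn : h ≤ n) (ht : h ≤ t) : bterm n h (t + 1) ≤ bterm n h t := by
  rcases Nat.lt_or_ge t n with htn | htn
  · have h1 := Nat.choose_succ_right_eq n t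
    have h2 : n - t = (n - (t + 1)) + 1 := by omega
    have h3 : n.choose (t + 1) * h ≤ n.choose t * (n - h) := by
      have h4 : (n.choose (t + 1) * h) * (t + 1) ≤ (n.choose t * (n - h)) * (t + 1) := by
        calc (n.choose (t + 1) * h) * (t + 1) = (n.choose t * (n - t)) * h := by rw [← h1]; ring
          _ ≤ (n.choose t * (n - h)) * (t + 1) := by
            have h5 : n - t ≤ n - h := by omega
            have h6 : h ≤ t + 1 := by omega
            gcongr
      exact Nat.le_of_mul_le_mul_right h4 (by omega)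
    rw [bterm, bterm, h2, pow_succ, pow_succ]
    calc n.choose (t + 1) * (h ^ t * h) * (n - h) ^ (n - (t + 1)) =
          (n.choose (t + 1) * h) * (h ^ t * (n - h) ^ (n - (t + 1))) := by ring
      _ ≤ (n.choose t * (n - h)) * (h ^ t * (n - h) ^ (n - (t + 1))) := by gcongr
      _ = _ := by ring
  · rw [bterm, Nat.choose_eq_zero_of_lt (by omega)]
    simp

lemma bterm_le (n h t : ℕ) (hn : h ≤ n) : bterm n h t ≤ bterm n h h := by
  rcases le_total t h with ht | ht
  · obtain ⟨s, rfl⟩ := Nat.exists_eq_add_of_le ht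
    clear ht
    have : ∀ s' ≤ s, bterm n (t + s) t ≤ bterm n (t + s) (t + s') := by
      intro s' hs'
      induction s' with
      | zero => exact le_rfl
      | succ s' ih =>
        exact (ih (by omega)).trans (bterm_up n (t + s) (t + s') hn (by omega))
    exact this s le_rfl
  · obtain ⟨s, rfl⟩ := Nat.exists_eq_add_of_le ht
    clear ht
    induction s with
    | zero => exact le_rfl
    | succ s ih => exact (bterm_down n h (h + s) hn (by omega)).trans ih

lemma pow_self_le (n h : ℕ) (hn : h ≤ n) :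
    n ^ n ≤ (n + 1) * (n.choose h * h ^ h * (n - h) ^ (n - h)) := by
  have h1 : (h + (n - h)) ^ n = ∑ t ∈ range (n + 1), h ^ t * (n - h) ^ (n - t) * n.choose t :=
    add_pow h (n - h) n
  rw [Nat.add_sub_cancel' hn] at h1
  rw [h1]
  calc ∑ t ∈ range (n + 1), h ^ t * (n - h) ^ (n - t) * n.choose t ≤
        ∑ _t ∈ range (n + 1), bterm n h h := by
        refine Finset.sum_le_sum fun t _ => ?_
        refine le_trans (le_of_eq ?_) (bterm_le n h t hn)
        rw [bterm]; ring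
    _ = (n + 1) * (n.choose h * h ^ h * (n - h) ^ (n - h)) := by
        rw [Finset.sum_const, card_range, smul_eq_mul, bterm]

variable {α : Type*} [Fintype α] [DecidableEq α]

lemma sum_exp_w (D : Finset α) (a b θ : ℝ) :
    ∑ H : Finset α, a ^ #H * b ^ (Fintype.card α - #H) *
      Real.exp (θ * (2 * (#(D ∩ H) : ℝ) - #D)) =
      (a * Real.exp θ + b * Real.exp (-θ)) ^ #D * (a + b) ^ (Fintype.card α - #D) := by
  have h1 := Finset.prod_add (fun x : α => a * if x ∈ D then Real.exp θ else 1)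
    (fun x : α => b * if x ∈ D then Real.exp (-θ) else 1) univ
  have h2 : ∏ x : α, ((a * if x ∈ D then Real.exp θ else 1) +
      b * if x ∈ D then Real.exp (-θ) else 1) =
      (a * Real.exp θ + b * Real.exp (-θ)) ^ #D * (a + b) ^ (Fintype.card α - #D) := by
    have h3 : ∀ x : α, ((a * if x ∈ D then Real.exp θ else 1) +
        b * if x ∈ D then Real.exp (-θ) else 1) =
        (if x ∈ D then (a * Real.exp θ + b * Real.exp (-θ)) else (a + b)) := by
      intro x
      split_ifs <;> ring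
    simp_rw [h3]
    rw [Finset.prod_ite, Finset.prod_const, Finset.prod_const]
    congr 2
    · rw [Finset.filter_mem_eq_inter, univ_inter]
    · have : (univ.filter fun x => x ∉ D) = Dᶜ := by
        ext x; simp
      rw [this, Finset.card_compl]
  rw [h2, Finset.powerset_univ] at h1
  rw [h1]
  refine Finset.sum_congr rfl fun H _ => ?_
  rw [Finset.prod_mul_distrib, Finset.prod_mul_distrib, Finset.prod_const, Finset.prod_const,
    Finset.prod_ite_mem, Finset.prod_ite_mem, Finset.prod_const, Finset.prod_const,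
    ← Real.exp_nat_mul, ← Real.exp_nat_mul]
  have h4 : #(univ \ H ∩ D) = #D - #(D ∩ H) := by
    have h5 : univ \ H ∩ D = D \ (D ∩ H) := by
      ext x; simp only [mem_inter, mem_sdiff, mem_univ, true_and]; tauto
    rw [h5, Finset.card_sdiff_of_subset Finset.inter_subset_left]
  have h6 : #(univ \ H) = Fintype.card α - #H := by
    rw [Finset.card_sdiff_of_subset (subset_univ _), Finset.card_univ]
  rw [h4, h6, Nat.cast_sub (Finset.card_le_card Finset.inter_subset_left), Finset.inter_comm H D]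
  have h7 : Real.exp (θ * (2 * (#(D ∩ H) : ℝ) - #D)) =
      Real.exp ((#(D ∩ H) : ℝ) * θ) * Real.exp (((#D : ℝ) - #(D ∩ H)) * -θ) := by
    rw [← Real.exp_add]; congr 1; ring
  rw [h7]
  ring

lemma mgf_le (h n : ℕ) (K θ : ℝ) (hn : 0 < n) (hh : h ≤ n) (hK : |2 * (h : ℝ) - n| ≤ K)
    (hθ : |θ| ≤ 1) :
    (h * Real.exp θ + ((n : ℝ) - h) * Real.exp (-θ)) ≤ n * Real.exp (K * |θ| / n + θ ^ 2) := by
  have hn' : (0 : ℝ) < n := by exact_mod_cast hn
  have hh' : (h : ℝ) ≤ n := by exact_mod_cast hh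
  have h0 : (0 : ℝ) ≤ h := by positivity
  have h1 : Real.exp θ ≤ 1 + θ + θ ^ 2 := by
    have := Real.abs_exp_sub_one_sub_id_le hθ
    rw [abs_le] at this
    linarith [this.2]
  have h2 : Real.exp (-θ) ≤ 1 - θ + θ ^ 2 := by
    have := Real.abs_exp_sub_one_sub_id_le (x := -θ) (by rwa [abs_neg])
    rw [abs_le] at this
    have h3 := this.2
    nlinarith
  have h3 : (h * Real.exp θ + ((n : ℝ) - h) * Real.exp (-θ)) ≤
      n * (1 + θ ^ 2) + (2 * (h : ℝ) - n) * θ := by
    have h4 := mul_le_mul_of_nonneg_left h1 h0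
    have h5 := mul_le_mul_of_nonneg_left h2 (by linarith : (0 : ℝ) ≤ n - h)
    nlinarith
  have h4 : (2 * (h : ℝ) - n) * θ ≤ K * |θ| := by
    calc (2 * (h : ℝ) - n) * θ ≤ |(2 * (h : ℝ) - n) * θ| := le_abs_self _
      _ = |2 * (h : ℝ) - n| * |θ| := abs_mul _ _
      _ ≤ K * |θ| := by gcongr
  have h5 : n * (1 + θ ^ 2) + K * |θ| = n * (1 + (K * |θ| / n + θ ^ 2)) := by
    field_simp
    ring
  have h6 := Real.add_one_le_exp (K * |θ| / n + θ ^ 2)
  have h7 : n * (1 + (K * |θ| / n + θ ^ 2)) ≤ n * Real.exp (K * |θ| / n + θ ^ 2) := by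
    gcongr
    linarith
  linarith

open Classical in
lemma tail_one_w (D : Finset α) (h : ℕ) (hh : h ≤ Fintype.card α) (hn : 0 < Fintype.card α)
    (dm δ s K : ℝ) (hs : s = 1 ∨ s = -1) (hd : (#D : ℝ) ≤ dm)
    (hdm : 0 < dm) (hδ : 0 ≤ δ) (hδm : δ ≤ 2 * dm) (hK : |2 * (h : ℝ) - Fintype.card α| ≤ K) :
    (#{H ∈ powersetCard h (univ : Finset α) | δ ≤ s * (2 * (#(D ∩ H) : ℝ) - #D)} : ℝ) ≤
      (Fintype.card α).choose h * ((Fintype.card α + 1) *
        Real.exp (-(δ ^ 2 / (4 * dm)) + δ * K / (2 * Fintype.card α))) := by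
  set n := Fintype.card α with hnn
  set θ : ℝ := δ / (2 * dm) with hθ
  have hθ0 : 0 ≤ θ := by positivity
  have hθ1 : θ ≤ 1 := by rw [hθ]; exact div_le_one_of_le₀ hδm (by positivity)
  have hK0 : 0 ≤ K := (abs_nonneg _).trans hK
  have hn' : (0 : ℝ) < n := by exact_mod_cast hn
  have hsθ : |s * θ| = θ := by
    rcases hs with rfl | rfl
    · rw [one_mul, abs_of_nonneg hθ0]
    · rw [neg_one_mul, abs_neg, abs_of_nonneg hθ0]
  have hDn : #D ≤ n := Finset.card_le_univ D
  set a : ℝ := (h : ℝ) with ha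
  set b : ℝ := (n : ℝ) - h with hb
  have hb0 : 0 ≤ b := by
    rw [hb]
    have : (h : ℝ) ≤ n := by exact_mod_cast hh
    linarith
  have ha0 : 0 ≤ a := by positivity
  have h1 := sum_exp_w D a b (s * θ)
  rw [← hnn] at h1
  have hab : a + b = n := by rw [hb]; ring
  rw [hab] at h1
  have h2 : (#{H ∈ powersetCard h (univ : Finset α) | δ ≤ s * (2 * (#(D ∩ H) : ℝ) - #D)} : ℝ) *
      (a ^ h * b ^ (n - h) * Real.exp (θ * δ)) ≤
      ∑ H : Finset α, a ^ #H * b ^ (n - #H) *
        Real.exp (s * θ * (2 * (#(D ∩ H) : ℝ) - #D)) := by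
    rw [← nsmul_eq_mul, ← Finset.sum_const]
    refine le_trans (Finset.sum_le_sum fun H hH => ?_)
      (Finset.sum_le_sum_of_subset_of_nonneg (Finset.subset_univ _) fun _ _ _ => by positivity)
    rw [mem_filter, mem_powersetCard] at hH
    rw [hH.1.2]
    apply mul_le_mul_of_nonneg_left _ (by positivity)
    apply Real.exp_le_exp.2
    have := mul_le_mul_of_nonneg_left hH.2 hθ0
    linarith
  rw [h1] at h2
  have h3 : a * Real.exp (s * θ) + b * Real.exp (-(s * θ)) ≤ n * Real.exp (K * θ / n + θ ^ 2) := by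
    have := mgf_le h n K (s * θ) hn hh hK (by rw [hsθ]; exact hθ1)
    rw [hsθ] at this
    have hsq : (s * θ) ^ 2 = θ ^ 2 := by
      rcases hs with rfl | rfl <;> ring
    rwa [hsq] at this
  have h4 : (a * Real.exp (s * θ) + b * Real.exp (-(s * θ))) ^ #D * (n : ℝ) ^ (n - #D) ≤
      (n : ℝ) ^ n * Real.exp (dm * (K * θ / n + θ ^ 2)) := by
    have h5 : 0 ≤ a * Real.exp (s * θ) + b * Real.exp (-(s * θ)) := by positivity
    calc (a * Real.exp (s * θ) + b * Real.exp (-(s * θ))) ^ #D * (n : ℝ) ^ (n - #D) ≤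
          (n * Real.exp (K * θ / n + θ ^ 2)) ^ #D * (n : ℝ) ^ (n - #D) := by gcongr
      _ = ((n : ℝ) ^ #D * (n : ℝ) ^ (n - #D)) * Real.exp (#D * (K * θ / n + θ ^ 2)) := by
          rw [mul_pow, ← Real.exp_nat_mul]; ring
      _ = (n : ℝ) ^ n * Real.exp (#D * (K * θ / n + θ ^ 2)) := by
          rw [← pow_add, Nat.add_sub_cancel' hDn]
      _ ≤ (n : ℝ) ^ n * Real.exp (dm * (K * θ / n + θ ^ 2)) := by gcongr
  have h5 : ((n : ℝ) ^ n) ≤ (n + 1) * (n.choose h * a ^ h * b ^ (n - h)) := by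
    have h6 := pow_self_le n h hh
    have h7 : (((n - h : ℕ)) : ℝ) = b := by rw [hb, Nat.cast_sub hh]
    have h8 : ((n ^ n : ℕ) : ℝ) ≤
        (((n + 1) * (n.choose h * h ^ h * (n - h) ^ (n - h)) : ℕ) : ℝ) := by exact_mod_cast h6
    push_cast at h8
    rwa [← Nat.cast_pow, ← Nat.cast_pow, Nat.cast_pow, Nat.cast_pow, h7] at h8
  have h6 : (0 : ℝ) < (n : ℝ) ^ n := by positivity
  have h7 : 0 < a ^ h * b ^ (n - h) := by
    by_contra hcon
    push Not at hcon
    have h8 : a ^ h * b ^ (n - h) = 0 := le_antisymm hcon (by positivity)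
    have h9 : (n + 1 : ℝ) * (n.choose h * a ^ h * b ^ (n - h)) =
      (n + 1) * n.choose h * (a ^ h * b ^ (n - h)) := by ring
    rw [h9, h8, mul_zero] at h5
    linarith
  have h8 : (#{H ∈ powersetCard h (univ : Finset α) | δ ≤ s * (2 * (#(D ∩ H) : ℝ) - #D)} : ℝ) *
      (a ^ h * b ^ (n - h) * Real.exp (θ * δ)) ≤
      ((n + 1) * n.choose h * Real.exp (dm * (K * θ / n + θ ^ 2))) * (a ^ h * b ^ (n - h)) := by
    refine h2.trans (h4.trans ?_)
    calc (n : ℝ) ^ n * Real.exp (dm * (K * θ / n + θ ^ 2)) ≤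
          ((n + 1) * (n.choose h * a ^ h * b ^ (n - h))) *
            Real.exp (dm * (K * θ / n + θ ^ 2)) := by gcongr
      _ = _ := by ring
  have h9 : (#{H ∈ powersetCard h (univ : Finset α) | δ ≤ s * (2 * (#(D ∩ H) : ℝ) - #D)} : ℝ) *
      Real.exp (θ * δ) ≤ (n + 1) * n.choose h * Real.exp (dm * (K * θ / n + θ ^ 2)) := by
    refine le_of_mul_le_mul_right ?_ h7
    calc _ = (#{H ∈ powersetCard h (univ : Finset α) |
          δ ≤ s * (2 * (#(D ∩ H) : ℝ) - #D)} : ℝ) * (a ^ h * b ^ (n - h) * Real.exp (θ * δ)) := by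
          ring
      _ ≤ _ := h8
  have h10 : (0 : ℝ) < Real.exp (θ * δ) := Real.exp_pos _
  rw [← le_div_iff₀ h10] at h9
  refine h9.trans (le_of_eq ?_)
  rw [mul_div_assoc, ← Real.exp_sub]
  have h11 : dm * (K * θ / n + θ ^ 2) - θ * δ = -(δ ^ 2 / (4 * dm)) + δ * K / (2 * n) := by
    rw [hθ]
    field_simp
    ring
  rw [h11]
  ring

/-- Tail bound for a sign function with total sum at most `K` in absolute value. -/
theorem tail_near (χ : α → ℤ) (hχ : ∀ x, χ x = 1 ∨ χ x = -1) (K : ℝ)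
    (hsum : |((∑ x, χ x : ℤ) : ℝ)| ≤ K)
    (hα : 0 < Fintype.card α) (d : ℕ) (hdc : d ≤ Fintype.card α) (dm δ : ℝ) (hd : (d : ℝ) ≤ dm)
    (hdm : 0 < dm) (hδ : 0 ≤ δ) (hδm : δ ≤ 2 * dm) :
    prk d (fun D : Finset α => δ ≤ |((∑ x ∈ D, χ x : ℤ) : ℝ)|) ≤
      2 * ((Fintype.card α + 1) *
        Real.exp (-(δ ^ 2 / (4 * dm)) + δ * K / (2 * Fintype.card α))) := by
  classical
  obtain ⟨D0, hD0⟩ : ∃ D0 : Finset α, #D0 = d := by
    obtain ⟨D0, -, h⟩ := Finset.exists_subset_card_eq (s := (univ : Finset α)) (n := d)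
      (by rwa [Finset.card_univ])
    exact ⟨D0, h⟩
  set H0 : Finset α := {x | χ x = 1} with hH0
  have hval : ∀ D : Finset α, (∑ x ∈ D, χ x) = 2 * (#(D ∩ H0) : ℤ) - #D := by
    intro D
    have h1 : ∀ x ∈ D, χ x = 2 * (if x ∈ H0 then 1 else 0) - 1 := by
      intro x _
      rcases hχ x with h | h
      · rw [if_pos (by rw [hH0, mem_filter]; exact ⟨mem_univ _, h⟩), h]; norm_num
      · rw [if_neg (by rw [hH0, mem_filter]; rintro ⟨-, h'⟩; rw [h] at h'; norm_num at h'), h]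
        norm_num
    rw [Finset.sum_congr rfl h1, Finset.sum_sub_distrib, ← Finset.mul_sum, Finset.sum_boole,
      Finset.filter_mem_eq_inter]
    simp
  have hH0K : |2 * (#H0 : ℝ) - Fintype.card α| ≤ K := by
    have := hval univ
    rw [Finset.univ_inter, Finset.card_univ] at this
    rw [this] at hsum
    push_cast at hsum
    exact hsum
  have h1 : prk d (fun D : Finset α => δ ≤ |((∑ x ∈ D, χ x : ℤ) : ℝ)|) =
      prk #H0 (fun H : Finset α => δ ≤ |2 * (#(D0 ∩ H) : ℝ) - #D0|) := by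
    rw [← prP_map H0, ← prP_inv, ← hD0, ← prP_map D0]
    congr 1
    funext σ
    rw [hval, Finset.card_map]
    have h2 : #(D0.map σ.toEmbedding ∩ H0) = #(D0 ∩ H0.map (σ⁻¹ : Equiv.Perm α).toEmbedding) := by
      have h3 : D0.map σ.toEmbedding ∩ H0 =
          (D0 ∩ H0.map (σ⁻¹ : Equiv.Perm α).toEmbedding).map σ.toEmbedding := by
        ext x
        simp only [mem_inter, Finset.mem_map_equiv, Equiv.Perm.inv_def, Equiv.symm_symm,
          Equiv.apply_symm_apply]
      rw [h3, Finset.card_map]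
    rw [h2]
    push_cast
    rfl
  have hHn : #H0 ≤ Fintype.card α := Finset.card_le_univ _
  have h8 : (0 : ℝ) < (Fintype.card α).choose #H0 := by
    exact_mod_cast Nat.choose_pos hHn
  rw [h1, prk, div_le_iff₀ h8]
  have h4 := tail_one_w D0 #H0 hHn hα dm δ 1 K (Or.inl rfl) (by rwa [hD0]) hdm hδ hδm hH0K
  have h5 := tail_one_w D0 #H0 hHn hα dm δ (-1) K (Or.inr rfl) (by rwa [hD0]) hdm hδ hδm hH0K
  have h4' : (#{H ∈ powersetCard #H0 (univ : Finset α) |
      δ ≤ 1 * (2 * (#(D0 ∩ H) : ℝ) - #D0)} : ℝ) ≤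
      (Fintype.card α).choose #H0 * ((Fintype.card α + 1) *
        Real.exp (-(δ ^ 2 / (4 * dm)) + δ * K / (2 * Fintype.card α))) := by
    refine le_trans (le_of_eq ?_) h4
    congr
  have h5' : (#{H ∈ powersetCard #H0 (univ : Finset α) |
      δ ≤ -1 * (2 * (#(D0 ∩ H) : ℝ) - #D0)} : ℝ) ≤
      (Fintype.card α).choose #H0 * ((Fintype.card α + 1) *
        Real.exp (-(δ ^ 2 / (4 * dm)) + δ * K / (2 * Fintype.card α))) := by
    refine le_trans (le_of_eq ?_) h5
    congr
  have h6 : #{H ∈ powersetCard #H0 (univ : Finset α) | δ ≤ |2 * (#(D0 ∩ H) : ℝ) - #D0|} ≤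
      #{H ∈ powersetCard #H0 (univ : Finset α) | δ ≤ 1 * (2 * (#(D0 ∩ H) : ℝ) - #D0)} +
      #{H ∈ powersetCard #H0 (univ : Finset α) | δ ≤ -1 * (2 * (#(D0 ∩ H) : ℝ) - #D0)} := by
    refine le_trans (Finset.card_le_card ?_) (Finset.card_union_le _ _)
    intro H hH
    rw [mem_filter] at hH
    rw [mem_union, mem_filter, mem_filter]
    rcases le_abs.1 hH.2 with h | h
    · left; exact ⟨hH.1, by linarith⟩
    · right; exact ⟨hH.1, by linarith⟩
  have h7 : (#{H ∈ powersetCard #H0 (univ : Finset α) | δ ≤ |2 * (#(D0 ∩ H) : ℝ) - #D0|} : ℝ) ≤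
      #{H ∈ powersetCard #H0 (univ : Finset α) | δ ≤ 1 * (2 * (#(D0 ∩ H) : ℝ) - #D0)} +
      #{H ∈ powersetCard #H0 (univ : Finset α) | δ ≤ -1 * (2 * (#(D0 ∩ H) : ℝ) - #D0)} := by
    exact_mod_cast h6
  refine le_trans (le_of_eq ?_) (h7.trans ((add_le_add h4' h5').trans (le_of_eq ?_)))
    (b := (#{H ∈ powersetCard #H0 (univ : Finset α) | δ ≤ |2 * (#(D0 ∩ H) : ℝ) - #D0|} : ℝ))
  · congr
  · ring

omit [Fintype α] in
/-- The same for subsets of a given set. -/
theorem tail_sub (S : Finset α) (hS : S.Nonempty) (χ : α → ℤ) (hχ : ∀ x, χ x = 1 ∨ χ x = -1)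
    (K : ℝ) (hsum : |((∑ x ∈ S, χ x : ℤ) : ℝ)| ≤ K) (d : ℕ) (hdc : d ≤ #S) (dm δ : ℝ)
    (hd : (d : ℝ) ≤ dm) (hdm : 0 < dm) (hδ : 0 ≤ δ) (hδm : δ ≤ 2 * dm)
    [DecidablePred fun D : Finset α => δ ≤ |((∑ x ∈ D, χ x : ℤ) : ℝ)|] :
    (#{D ∈ powersetCard d S | δ ≤ |((∑ x ∈ D, χ x : ℤ) : ℝ)|} : ℝ) ≤
      (#S).choose d * (2 * ((#S + 1) *
        Real.exp (-(δ ^ 2 / (4 * dm)) + δ * K / (2 * #S)))) := by
  classical
  have hcard : Fintype.card {x // x ∈ S} = #S := Fintype.card_coe S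
  have h1 := tail_near (α := {x // x ∈ S}) (fun x => χ x.1) (fun x => hχ x.1) K (by
    rw [Finset.univ_eq_attach, Finset.sum_attach S χ]; exact hsum)
    (by rw [hcard]; exact Finset.card_pos.2 hS) d (by rw [hcard]; exact hdc) dm δ hd hdm hδ hδm
  rw [prk, hcard, div_le_iff₀ (by exact_mod_cast Nat.choose_pos hdc)] at h1
  refine le_trans (le_of_eq ?_) (h1.trans (le_of_eq (by ring)))
  have h2 : powersetCard d S = (powersetCard d (univ : Finset {x // x ∈ S})).map
      (mapEmbedding (Function.Embedding.subtype fun x => x ∈ S)).toEmbedding := by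
    rw [← Finset.powersetCard_map, Finset.univ_eq_attach, Finset.attach_map_val]
  rw [h2, Finset.filter_map, Finset.card_map]
  norm_cast
  congr 1
  ext D
  simp only [mem_filter, Function.comp_apply]
  have h3 : ∑ x ∈ (mapEmbedding (Function.Embedding.subtype fun x => x ∈ S)).toEmbedding D, χ x =
      ∑ x ∈ D, χ x.1 := by
    simp [Finset.mapEmbedding_apply, Finset.sum_map]
  rw [h3]

end Pool.Agent.RMC68
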