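import Pool.Agent.RMC68.Levels
import Pool.Agent.RMC68.TailU

/-!
# Multiplicative comparison of levels
-/

set_option autoImplicit false

open Finset

namespace Pool.Agent.RMC68

variable {α : Type*} [Fintype α] [DecidableEq α] {ι : Type*} (s : Finset ι) (χ : ι → α → ℤ)

/-- the error factor -/
noncomputable def tau (c N : ℕ) (dm δ : ℝ) : ℝ :=
  c * (2 * ((N + 1) * Real.exp (-(δ ^ 2 / (4 * dm)) + 1)))

lemma tau_nonneg (c N : ℕ) (dm δ : ℝ) : 0 ≤ tau c N dm δ := by rw [tau]; positivity

open Classical in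
lemma ext_count (hχ : ∀ a ∈ s, ∀ x, χ a x = 1 ∨ χ a x = -1) (hsum : ∀ a ∈ s, ∑ x, χ a x = 0)
    (i d : ℕ) (hi : i + d ≤ Fintype.card α) (hin : i < Fintype.card α) (dm : ℝ) (hdm : 0 < dm)
    (hd : (d : ℝ) ≤ dm) (k : ℤ) (δ : ℕ) (hδm : (δ : ℝ) ≤ 2 * dm)
    (hK : (δ : ℝ) * k ≤ 2 * ((Fintype.card α : ℝ) - i)) (A : Finset α) (hA : #A = i)
    (hbad : ¬ bad s χ k A) :
    ((Fintype.card α - i).choose d : ℝ) * (1 - tau #s (Fintype.card α) dm δ) ≤
      #{D ∈ powersetCard d Aᶜ | ¬ bad s χ (k + δ) (A ∪ D)} := by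
  set N := Fintype.card α with hN
  have hcA : #Aᶜ = N - i := by rw [Finset.card_compl, hA]
  have h1 : ∀ a ∈ s, (#{D ∈ powersetCard d Aᶜ | (δ : ℝ) ≤ |((∑ x ∈ D, χ a x : ℤ) : ℝ)|} : ℝ) ≤
      (N - i).choose d * (2 * ((N + 1) * Real.exp (-((δ : ℝ) ^ 2 / (4 * dm)) + 1))) := by
    intro a ha
    have h2 : |∑ x ∈ A, χ a x| < k := by
      by_contra hcon
      exact hbad ⟨a, ha, not_lt.1 hcon⟩
    have h3 : ∑ x ∈ Aᶜ, χ a x = - ∑ x ∈ A, χ a x := by
      have := Finset.sum_add_sum_compl A (χ a)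
      rw [hsum a ha] at this
      linarith
    have h4 : |((∑ x ∈ Aᶜ, χ a x : ℤ) : ℝ)| ≤ k := by
      rw [h3]
      push_cast
      rw [abs_neg]
      have h5 : ((|∑ x ∈ A, χ a x| : ℤ) : ℝ) ≤ k := by exact_mod_cast h2.le
      push_cast at h5
      exact h5
    have h5 := tail_sub (Aᶜ) (Finset.card_pos.1 (by rw [hcA]; omega)) (fun x => χ a x)
      (fun x => hχ a ha x) (k : ℝ) h4 d (by rw [hcA]; omega) dm δ hd hdm (by positivity) hδm
    refine h5.trans ?_
    rw [hcA]
    have h6 : ((N - i : ℕ) : ℝ) = (N : ℝ) - i := by rw [Nat.cast_sub hin.le]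
    have h7 : (0 : ℝ) < (N : ℝ) - i := by
      have : (i : ℝ) < N := by exact_mod_cast hin
      linarith
    have h8 : ((N - i : ℕ) : ℝ) + 1 ≤ N + 1 := by
      rw [h6]
      have : (0 : ℝ) ≤ i := by positivity
      linarith
    have h9 : Real.exp (-((δ : ℝ) ^ 2 / (4 * dm)) + δ * k / (2 * ((N - i : ℕ) : ℝ))) ≤
        Real.exp (-((δ : ℝ) ^ 2 / (4 * dm)) + 1) := by
      apply Real.exp_le_exp.2
      have : (δ : ℝ) * k / (2 * ((N - i : ℕ) : ℝ)) ≤ 1 := by
        rw [h6, div_le_one (by positivity)]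
        exact hK
      linarith
    gcongr
  have h2 : #{D ∈ powersetCard d Aᶜ | ¬ ¬ bad s χ (k + δ) (A ∪ D)} ≤
      ∑ a ∈ s, #{D ∈ powersetCard d Aᶜ | (δ : ℝ) ≤ |((∑ x ∈ D, χ a x : ℤ) : ℝ)|} := by
    refine le_trans (Finset.card_le_card ?_) Finset.card_biUnion_le
    intro D hD
    rw [mem_filter, not_not] at hD
    obtain ⟨hD1, a, ha, hD2⟩ := hD
    rw [mem_biUnion]
    refine ⟨a, ha, ?_⟩
    rw [mem_filter]
    refine ⟨hD1, ?_⟩
    have hdis : Disjoint A D := by
      rw [mem_powersetCard] at hD1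
      exact (Finset.subset_compl_iff_disjoint_left.1 hD1.1)
    rw [Finset.sum_union hdis] at hD2
    have h3 : |∑ x ∈ A, χ a x| < k := by
      by_contra hcon
      exact hbad ⟨a, ha, not_lt.1 hcon⟩
    have h4 := abs_add_le (∑ x ∈ A, χ a x) (∑ x ∈ D, χ a x)
    have h5 : (δ : ℤ) ≤ |∑ x ∈ D, χ a x| := by omega
    exact_mod_cast h5
  have h3 : (#{D ∈ powersetCard d Aᶜ | ¬ ¬ bad s χ (k + δ) (A ∪ D)} : ℝ) ≤
      ∑ a ∈ s, ((N - i).choose d : ℝ) *
        (2 * ((N + 1) * Real.exp (-((δ : ℝ) ^ 2 / (4 * dm)) + 1))) := by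
    refine le_trans ?_ (Finset.sum_le_sum h1)
    exact_mod_cast h2
  have h4 := Finset.card_filter_add_card_filter_not (s := powersetCard d Aᶜ)
    (p := fun D => ¬ bad s χ (k + δ) (A ∪ D))
  rw [card_powersetCard, hcA] at h4
  have h5 : (#{D ∈ powersetCard d Aᶜ | ¬ bad s χ (k + δ) (A ∪ D)} : ℝ) +
      #{D ∈ powersetCard d Aᶜ | ¬ ¬ bad s χ (k + δ) (A ∪ D)} = (N - i).choose d := by
    exact_mod_cast h4
  rw [Finset.sum_const, nsmul_eq_mul] at h3
  rw [tau]
  have h6 : (#s : ℝ) * (((N - i).choose d : ℝ) *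
      (2 * ((N + 1) * Real.exp (-((δ : ℝ) ^ 2 / (4 * dm)) + 1)))) =
      ((N - i).choose d : ℝ) *
        (#s * (2 * ((N + 1) * Real.exp (-((δ : ℝ) ^ 2 / (4 * dm)) + 1)))) := by ring
  rw [h6] at h3
  linarith

theorem up_le (hχ : ∀ a ∈ s, ∀ x, χ a x = 1 ∨ χ a x = -1) (hsum : ∀ a ∈ s, ∑ x, χ a x = 0)
    (i j : ℕ) (hij : i ≤ j) (hj : j ≤ Fintype.card α) (hin : i < Fintype.card α) (dm : ℝ)
    (hdm : 0 < dm) (hd : (j : ℝ) - i ≤ dm) (k : ℤ) (δ : ℕ) (hδm : (δ : ℝ) ≤ 2 * dm)
    (hK : (δ : ℝ) * k ≤ 2 * ((Fintype.card α : ℝ) - i)) :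
    (1 - tau #s (Fintype.card α) dm δ) * prk i (fun A => ¬ bad s χ k A) ≤
      prk j (fun A => ¬ bad s χ (k + δ) A) := by
  classical
  obtain ⟨d, rfl⟩ := Nat.exists_eq_add_of_le hij
  set N := Fintype.card α with hN
  set G : Finset (Finset α) := {A ∈ powersetCard i (univ : Finset α) | ¬ bad s χ k A} with hG
  set G' : Finset (Finset α) :=
    {A ∈ powersetCard (i + d) (univ : Finset α) | ¬ bad s χ (k + δ) A} with hG'
  have h1 : ∑ A ∈ G, #{D ∈ powersetCard d Aᶜ | ¬ bad s χ (k + δ) (A ∪ D)} ≤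
      ∑ B ∈ G', #(powersetCard i B) := by
    rw [← Finset.card_sigma, ← Finset.card_sigma]
    refine Finset.card_le_card_of_injOn (fun q => (⟨q.1 ∪ q.2, q.1⟩ : Σ _ : Finset α, Finset α))
      ?_ ?_
    · rintro ⟨A, D⟩ hq
      rw [Finset.mem_coe, mem_sigma, hG, mem_filter, mem_filter, mem_powersetCard,
        mem_powersetCard] at hq
      obtain ⟨⟨⟨-, hA⟩, -⟩, ⟨hD1, hD2⟩, hD3⟩ := hq
      simp only at hA hD1 hD2 hD3
      rw [Finset.mem_coe, mem_sigma, hG', mem_filter, mem_powersetCard, mem_powersetCard]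
      have hdis : Disjoint A D := Finset.subset_compl_iff_disjoint_left.1 hD1
      refine ⟨⟨⟨subset_univ _, ?_⟩, hD3⟩, Finset.subset_union_left, hA⟩
      simp only
      rw [Finset.card_union_of_disjoint hdis, hA, hD2]
    · rintro ⟨A, D⟩ hq ⟨A', D'⟩ hq' heq
      rw [Finset.mem_coe, mem_sigma, hG, mem_filter, mem_filter, mem_powersetCard,
        mem_powersetCard] at hq hq'
      obtain ⟨-, ⟨hD1, -⟩, -⟩ := hq
      obtain ⟨-, ⟨hD1', -⟩, -⟩ := hq'
      simp only at hD1 hD1' heq
      have hdis : Disjoint A D := Finset.subset_compl_iff_disjoint_left.1 hD1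
      have hdis' : Disjoint A' D' := Finset.subset_compl_iff_disjoint_left.1 hD1'
      rw [Sigma.mk.injEq] at heq
      obtain ⟨h1, h2⟩ := heq
      have h2' : A = A' := eq_of_heq h2
      subst h2'
      have h3 : D = D' := by
        have h4 : (A ∪ D) \ A = (A ∪ D') \ A := by rw [h1]
        rwa [Finset.union_sdiff_cancel_left hdis, Finset.union_sdiff_cancel_left hdis'] at h4
      subst h3
      rfl
  have h2 : ∑ B ∈ G', #(powersetCard i B) = #G' * (i + d).choose i := by
    rw [← smul_eq_mul, ← Finset.sum_const]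
    refine Finset.sum_congr rfl fun B hB => ?_
    rw [hG', mem_filter, mem_powersetCard] at hB
    rw [card_powersetCard, hB.1.2]
  have hd' : (d : ℝ) ≤ dm := by push_cast at hd; linarith
  have h3 : (#G : ℝ) * (((N - i).choose d : ℝ) * (1 - tau #s N dm δ)) ≤
      #G' * (i + d).choose i := by
    have h4 : ∑ A ∈ G, (((N - i).choose d : ℝ) * (1 - tau #s N dm δ)) ≤
        ∑ A ∈ G, (#{D ∈ powersetCard d Aᶜ | ¬ bad s χ (k + δ) (A ∪ D)} : ℝ) := by
      refine Finset.sum_le_sum fun A hA => ?_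
      rw [hG, mem_filter, mem_powersetCard] at hA
      exact ext_count s χ hχ hsum i d (by rw [← hN]; exact hj) (by rw [← hN]; exact hin) dm hdm
        hd' k δ hδm (by rw [← hN]; exact hK) A hA.1.2 hA.2
    rw [Finset.sum_const, nsmul_eq_mul] at h4
    refine h4.trans ?_
    rw [h2] at h1
    exact_mod_cast h1
  have h4 : (N.choose (i + d) : ℝ) * (i + d).choose i = N.choose i * (N - i).choose d := by
    have := Nat.choose_mul (n := N) (Nat.le_add_right i d)
    rw [Nat.add_sub_cancel_left] at this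
    exact_mod_cast this
  have p1 : (0 : ℝ) < N.choose (i + d) := by exact_mod_cast Nat.choose_pos hj
  have p2 : (0 : ℝ) < N.choose i := by exact_mod_cast Nat.choose_pos hin.le
  have p3 : (0 : ℝ) < (N - i).choose d := by exact_mod_cast Nat.choose_pos (by omega)
  have p4 : (0 : ℝ) < (i + d).choose i := by
    exact_mod_cast Nat.choose_pos (Nat.le_add_right i d)
  have e1 : prk i (fun A => ¬ bad s χ k A) = (#G : ℝ) / N.choose i := by
    rw [prk_eq_card]
  have e2 : prk (i + d) (fun A => ¬ bad s χ (k + δ) A) = (#G' : ℝ) / N.choose (i + d) := by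
    rw [prk_eq_card]
  rw [e1, e2, le_div_iff₀ p1, ← mul_div_assoc, div_mul_eq_mul_div, div_le_iff₀ p2]
  refine le_of_mul_le_mul_right ?_ p4
  calc (1 - tau #s N dm δ) * #G * N.choose (i + d) * (i + d).choose i =
        (1 - tau #s N dm δ) * #G * (N.choose (i + d) * (i + d).choose i) := by ring
    _ = (#G * (((N - i).choose d : ℝ) * (1 - tau #s N dm δ))) * N.choose i := by rw [h4]; ring
    _ ≤ (#G' * (i + d).choose i) * N.choose i := by gcongr
    _ = _ := by ring

/-- complementary sets -/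
lemma prk_compl (hsum : ∀ a ∈ s, ∑ x, χ a x = 0) (i : ℕ) (hi : i ≤ Fintype.card α) (k : ℤ) :
    prk (Fintype.card α - i) (fun A => ¬ bad s χ k A) = prk i (fun A => ¬ bad s χ k A) := by
  classical
  have hb : ∀ A : Finset α, bad s χ k Aᶜ ↔ bad s χ k A := by
    intro A
    have h3 : ∀ a ∈ s, |∑ x ∈ Aᶜ, χ a x| = |∑ x ∈ A, χ a x| := by
      intro a ha
      have := Finset.sum_add_sum_compl A (χ a)
      rw [hsum a ha] at this
      have h4 : ∑ x ∈ Aᶜ, χ a x = - ∑ x ∈ A, χ a x := by linarith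
      rw [h4, abs_neg]
    constructor
    · rintro ⟨a, ha, h⟩
      exact ⟨a, ha, by rwa [← h3 a ha]⟩
    · rintro ⟨a, ha, h⟩
      exact ⟨a, ha, by rwa [h3 a ha]⟩
  rw [prk_eq_card, prk_eq_card, Nat.choose_symm hi]
  congr 2
  have hinv : Function.Involutive fun B : Finset α => Bᶜ := fun B => compl_compl B
  refine Finset.card_equiv (hinv.toPerm _) fun B => ?_
  simp only [mem_filter, mem_powersetCard, subset_univ, true_and,
    Function.Involutive.coe_toPerm, hb, Finset.card_compl]
  have := Finset.card_le_univ B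
  constructor
  · rintro ⟨h1, h2⟩
    exact ⟨by omega, h2⟩
  · rintro ⟨h1, h2⟩
    exact ⟨by omega, h2⟩

/-- comparison of any two levels -/
theorem cmp_le (hχ : ∀ a ∈ s, ∀ x, χ a x = 1 ∨ χ a x = -1) (hsum : ∀ a ∈ s, ∑ x, χ a x = 0)
    (i j : ℕ) (hj : j ≤ Fintype.card α) (hi0 : 0 < i) (hin : i < Fintype.card α) (dm : ℝ)
    (hdm : 0 < dm) (hd : |(j : ℝ) - i| ≤ dm) (k : ℤ) (δ : ℕ) (hδm : (δ : ℝ) ≤ 2 * dm)
    (hK : (δ : ℝ) * k ≤ 2 * ((Fintype.card α : ℝ) - i)) (hK' : (δ : ℝ) * k ≤ 2 * (i : ℝ)) :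
    (1 - tau #s (Fintype.card α) dm δ) * prk i (fun A => ¬ bad s χ k A) ≤
      prk j (fun A => ¬ bad s χ (k + δ) A) := by
  rw [abs_le] at hd
  rcases le_total i j with h | h
  · exact up_le s χ hχ hsum i j h hj hin dm hdm hd.2 k δ hδm hK
  · rw [← prk_compl s χ hsum i hin.le, ← prk_compl s χ hsum j hj]
    have e1 : ((Fintype.card α - i : ℕ) : ℝ) = (Fintype.card α : ℝ) - i := by
      rw [Nat.cast_sub hin.le]
    have e2 : ((Fintype.card α - j : ℕ) : ℝ) = (Fintype.card α : ℝ) - j := by
      rw [Nat.cast_sub hj]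
    refine up_le s χ hχ hsum (Fintype.card α - i) (Fintype.card α - j) (by omega) (by omega)
      (by omega) dm hdm ?_ k δ hδm ?_
    · rw [e1, e2]; linarith [hd.1]
    · rw [e1]
      have : 2 * ((Fintype.card α : ℝ) - ((Fintype.card α : ℝ) - i)) = 2 * (i : ℝ) := by ring
      rw [this]; exact hK'

omit [DecidableEq α] in
/-- `good` as a sum over the levels -/
lemma good_eq_sum (M i : ℕ) : good s χ M i =
    ∑ j ∈ range (Fintype.card α + 1), lw (Fintype.card α) j *
      (if |(j : ℤ) - M| < (M : ℤ) - i then prk j (fun A => ¬ bad s χ ((M : ℤ) - i) A) else 0) := by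
  rw [good, pr_eq_sum]
  refine Finset.sum_congr rfl fun j hj => ?_
  congr 1
  split_ifs with h
  · apply le_antisymm
    · exact prk_mono fun S hS hS' => hS'.1
    · refine prk_mono fun S hS hS' => ⟨hS', ?_⟩
      rw [hS]; exact h
  · apply le_antisymm _ (prk_nonneg _ _)
    refine (prk_mono (r := fun _ => False) ?_).trans ?_
    · intro S hS hS'
      rw [hS] at hS'
      exact h hS'.2
    · rw [prk]; simp

/-- total weight of the central levels -/
lemma center_weight (M i : ℕ) (hM : Fintype.card α = 2 * M) (hi : i < M) :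
    1 - lamN (Fintype.card α) i / Fintype.card α ≤
      ∑ j ∈ range (Fintype.card α + 1), lw (Fintype.card α) j *
        (if |(j : ℤ) - M| < (M : ℤ) - i then 1 else 0) := by
  have h1 := pr_center (α := α) M i hM hi
  rw [pr_eq_sum] at h1
  have h2 : ∑ j ∈ range (Fintype.card α + 1), lw (Fintype.card α) j *
      (if |(j : ℤ) - M| < (M : ℤ) - i then 0 else 1) ≤
      ∑ j ∈ range (Fintype.card α + 1), lw (Fintype.card α) j *
        prk j (fun A : Finset α => (M : ℤ) - i ≤ |(#A : ℤ) - M|) := by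
    refine Finset.sum_le_sum fun j hj => ?_
    refine mul_le_mul_of_nonneg_left ?_ (lw_nonneg _ _)
    split_ifs with h
    · exact prk_nonneg _ _
    · have h2 : prk j (fun A : Finset α => ¬ ((M : ℤ) - i ≤ |(#A : ℤ) - M|)) ≤ 0 := by
        refine (prk_mono (r := fun _ => False) ?_).trans ?_
        · intro S hS hS'
          rw [hS] at hS'
          exact hS' (not_lt.1 h)
        · rw [prk]; simp
      rw [prk_not j (by rw [mem_range] at hj; omega)] at h2
      linarith
  have h3 : ∑ j ∈ range (Fintype.card α + 1), lw (Fintype.card α) j *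
        (if |(j : ℤ) - M| < (M : ℤ) - i then 1 else 0) =
      1 - ∑ j ∈ range (Fintype.card α + 1), lw (Fintype.card α) j *
        (if |(j : ℤ) - M| < (M : ℤ) - i then 0 else 1) := by
    rw [eq_sub_iff_add_eq, ← Finset.sum_add_distrib]
    refine Eq.trans ?_ (sum_lw (Fintype.card α))
    refine Finset.sum_congr rfl fun j _ => ?_
    split_ifs <;> ring
  rw [h3]
  linarith

/-- upper bound for the proportion of leaders -/
theorem upper_mix (hχ : ∀ a ∈ s, ∀ x, χ a x = 1 ∨ χ a x = -1) (hsum : ∀ a ∈ s, ∑ x, χ a x = 0)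
    (M i R δ : ℕ) (hM : Fintype.card α = 2 * M) (hi : i < M) (hR : M ≤ i + R)
    (hδR : δ + 1 ≤ R) (h4R : 4 * R ≤ M) (hδRM : 8 * R * δ ≤ M) :
    (1 - tau #s (Fintype.card α) (4 * R) δ) *
      (1 - lamN (Fintype.card α) (i - (δ + 1)) / Fintype.card α) *
        prk i (fun A => ¬ bad s χ ((M : ℤ) - i + 1) A) ≤ good s χ M (i - (δ + 1)) := by
  set N := Fintype.card α with hN
  set g := prk i (fun A => ¬ bad s χ ((M : ℤ) - i + 1) A) with hg
  set t := tau #s N (4 * R) δ with ht
  have hg0 : 0 ≤ g := prk_nonneg _ _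
  have hR0 : 0 < R := by omega
  have hcast : ((i - (δ + 1) : ℕ) : ℤ) = (i : ℤ) - δ - 1 := by omega
  have hgood0 : 0 ≤ good s χ M (i - (δ + 1)) := pr_nonneg _
  rcases le_or_gt (1 - t) 0 with ht1 | ht1
  · rcases le_or_gt 0 (1 - lamN N (i - (δ + 1)) / N) with h1 | h1
    · have h2 : (1 - t) * (1 - lamN N (i - (δ + 1)) / N) ≤ 0 :=
        mul_nonpos_of_nonpos_of_nonneg ht1 h1
      have h3 := mul_nonpos_of_nonpos_of_nonneg h2 hg0
      linarith
    · exfalso
      have h2 := pr_center (α := α) M (i - (δ + 1)) (by rw [← hN]; exact hM) (by omega)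
      -- the proportion is at most one
      have hN0 : (0 : ℝ) < N := by
        have : 0 < N := by omega
        exact_mod_cast this
      have h3 : lamN N (i - (δ + 1)) / N ≤ 1 := by
        rw [lamN, div_div, div_le_one (by positivity)]
        have h4 : ∑ l ∈ range (i - (δ + 1) + 1), (N.choose l : ℝ) ≤ 2 ^ N / 2 := by
          have h5 : 2 * (∑ l ∈ range (i - (δ + 1) + 1), N.choose l) ≤ 2 ^ N := by
            rw [← Nat.sum_range_choose N, two_mul]
            have h6 : ∑ l ∈ range (i - (δ + 1) + 1), N.choose l =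
                ∑ l ∈ (range (i - (δ + 1) + 1)).image (fun l => N - l), N.choose l := by
              rw [Finset.sum_image]
              · refine Finset.sum_congr rfl fun l hl => ?_
                rw [mem_range] at hl
                rw [Nat.choose_symm (by omega)]
              · intro a ha b hb hab
                rw [Finset.mem_coe, mem_range] at ha hb
                simp only at hab
                omega
            nth_rw 2 [h6]
            rw [← Finset.sum_union]
            · apply Finset.sum_le_sum_of_subset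
              intro x hx
              rw [mem_union, mem_range, mem_image] at hx
              rw [mem_range]
              rcases hx with hx | ⟨y, hy, rfl⟩
              · omega
              · omega
            · rw [Finset.disjoint_left]
              intro x hx hx'
              rw [mem_range] at hx
              rw [mem_image] at hx'
              obtain ⟨y, hy, rfl⟩ := hx'
              rw [mem_range] at hy
              omega
          have h6 : (2 : ℝ) * (∑ l ∈ range (i - (δ + 1) + 1), (N.choose l : ℝ)) ≤ 2 ^ N := by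
            have h7 : ((2 * (∑ l ∈ range (i - (δ + 1) + 1), N.choose l) : ℕ) : ℝ) ≤
              ((2 ^ N : ℕ) : ℝ) := by exact_mod_cast h5
            push_cast at h7
            exact h7
          linarith
        have h5 : (0 : ℝ) ≤ N := by positivity
        nlinarith
      linarith
  · have h1 := center_weight (α := α) M (i - (δ + 1)) (by rw [← hN]; exact hM) (by omega)
    rw [← hN] at h1
    rw [good_eq_sum]
    calc (1 - t) * (1 - lamN N (i - (δ + 1)) / N) * g ≤
          (1 - t) * (∑ j ∈ range (N + 1), lw N j *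
            (if |(j : ℤ) - M| < (M : ℤ) - ((i - (δ + 1) : ℕ) : ℤ) then 1 else 0)) * g := by
          gcongr
      _ = ∑ j ∈ range (N + 1), lw N j *
            (if |(j : ℤ) - M| < (M : ℤ) - ((i - (δ + 1) : ℕ) : ℤ) then (1 - t) * g else 0) := by
          rw [Finset.mul_sum, Finset.sum_mul]
          refine Finset.sum_congr rfl fun j _ => ?_
          split_ifs <;> ring
      _ ≤ _ := by
          refine Finset.sum_le_sum fun j hj => ?_
          refine mul_le_mul_of_nonneg_left ?_ (lw_nonneg _ _)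
          split_ifs with h
          · rw [hcast] at h ⊢
            rw [mem_range] at hj
            have e : (M : ℤ) - ((i : ℤ) - δ - 1) = (M : ℤ) - i + 1 + δ := by ring
            rw [e] at h ⊢
            rw [abs_lt] at h
            have hprod : δ * (M - i + 1) ≤ 2 * i := by
              have h2 : M - i + 1 ≤ 2 * R := by omega
              have h3 : δ * (M - i + 1) ≤ δ * (2 * R) := by gcongr
              have h4 : 8 * R * δ = 4 * (δ * (2 * R)) := by ring
              omega
            have hcst : (((M : ℤ) - i + 1 : ℤ) : ℝ) = ((M - i + 1 : ℕ) : ℝ) := by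
              have : ((M : ℤ) - i + 1) = ((M - i + 1 : ℕ) : ℤ) := by omega
              rw [this]; norm_cast
            have hprodr : (δ : ℝ) * ((M - i + 1 : ℕ) : ℝ) ≤ 2 * i := by exact_mod_cast hprod
            have hNr : (N : ℝ) = 2 * M := by rw [hM]; push_cast; ring
            have hiM : (i : ℝ) ≤ M := by exact_mod_cast hi.le
            refine cmp_le s χ hχ hsum i j (by rw [← hN]; omega) (by omega)
              (by rw [← hN]; omega) (4 * R) (by positivity) ?_ ((M : ℤ) - i + 1) δ ?_ ?_ ?_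
            · have h2 : |(j : ℤ) - i| ≤ 4 * R := by
                rw [abs_le]; omega
              exact_mod_cast h2
            · have h2 : δ ≤ 2 * (4 * R) := by omega
              exact_mod_cast h2
            · rw [← hN, hcst, hNr]; linarith
            · rw [hcst]; exact hprodr
          · exact le_rfl

/-- lower bound for the proportion of unique leaders -/
theorem lower_mix (hχ : ∀ a ∈ s, ∀ x, χ a x = 1 ∨ χ a x = -1) (hsum : ∀ a ∈ s, ∑ x, χ a x = 0)
    (M i R δ : ℕ) (hM : Fintype.card α = 2 * M) (hi : i < M) (hR : M ≤ i + R)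
    (hδR : δ + 1 ≤ R) (h4R : 4 * R ≤ M) (hδRM : 8 * R * δ ≤ M) :
    (1 - tau #s (Fintype.card α) (4 * R) δ) * good s χ M (i + δ) ≤
      prk i (fun A => ¬ bad s χ ((M : ℤ) - i) A) := by
  set N := Fintype.card α with hN
  set g := prk i (fun A => ¬ bad s χ ((M : ℤ) - i) A) with hg
  set t := tau #s N (4 * R) δ with ht
  have hg0 : 0 ≤ g := prk_nonneg _ _
  have hR0 : 0 < R := by omega
  have hone := sum_lw N
  rw [good_eq_sum, Finset.mul_sum]
  calc ∑ j ∈ range (N + 1), (1 - t) * (lw N j *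
        (if |(j : ℤ) - M| < (M : ℤ) - ((i + δ : ℕ) : ℤ) then
          prk j (fun A => ¬ bad s χ ((M : ℤ) - ((i + δ : ℕ) : ℤ)) A) else 0)) ≤
        ∑ j ∈ range (N + 1), lw N j * g := by
        refine Finset.sum_le_sum fun j hj => ?_
        rw [mul_left_comm]
        refine mul_le_mul_of_nonneg_left ?_ (lw_nonneg _ _)
        split_ifs with h
        · rw [mem_range] at hj
          push_cast at h ⊢
          rw [abs_lt] at h
          have e : (M : ℤ) - i = (M : ℤ) - (i + δ) + δ := by ring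
          rw [hg, e]
          have hk : (M : ℤ) - (i + δ) ≤ R := by omega
          have hk0 : 0 < (M : ℤ) - (i + δ) := by omega
          have hNr : (N : ℝ) = 2 * M := by rw [hM]; push_cast; ring
          have hprod : (δ : ℝ) * (((M : ℤ) - (i + δ) : ℤ) : ℝ) ≤ 2 * j := by
            have h3 : (((M : ℤ) - (i + δ) : ℤ) : ℝ) ≤ R := by exact_mod_cast hk
            have h4 : (δ : ℝ) * (((M : ℤ) - (i + δ) : ℤ) : ℝ) ≤ δ * R := by gcongr
            have h5 : δ * R ≤ 2 * j := by
              have h6 : 8 * R * δ = 8 * (δ * R) := by ring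
              omega
            have h6 : (δ : ℝ) * R ≤ 2 * j := by exact_mod_cast h5
            linarith
          have hprod' : (δ : ℝ) * (((M : ℤ) - (i + δ) : ℤ) : ℝ) ≤ 2 * ((N : ℝ) - j) := by
            have h3 : (((M : ℤ) - (i + δ) : ℤ) : ℝ) ≤ R := by exact_mod_cast hk
            have h4 : (δ : ℝ) * (((M : ℤ) - (i + δ) : ℤ) : ℝ) ≤ δ * R := by gcongr
            have h5 : δ * R + 2 * j ≤ 2 * N := by
              have h6 : 8 * R * δ = 8 * (δ * R) := by ring
              omega
            have h6 : (δ : ℝ) * R + 2 * j ≤ 2 * N := by exact_mod_cast h5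
            linarith
          refine cmp_le s χ hχ hsum j i (by rw [← hN]; omega) (by omega)
            (by rw [← hN]; omega) (4 * R) (by positivity) ?_ ((M : ℤ) - (i + δ)) δ ?_ hprod' hprod
          · have h2 : |(i : ℤ) - j| ≤ 4 * R := by
              rw [abs_le]; omega
            exact_mod_cast h2
          · have h2 : δ ≤ 2 * (4 * R) := by omega
            exact_mod_cast h2
        · rw [mul_zero]; exact hg0
    _ = g := by rw [← Finset.sum_mul, hone, one_mul]

end Pool.Agent.RMC68
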