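import Pool.Agent.RMC68.Param
import Pool.Agent.RMC68.Mult
import Pool.Agent.RMC68.Delay

/-!
# The law of the coset leader weights with relative error
-/

set_option autoImplicit false

open Finset

namespace Pool.Agent.RMC68

open Pool.Agent.RMC

lemma params2 (m X N M R D L : ℕ) (hm : 1 ≤ m) (hX : 2000000 * m ^ 2 ≤ X)
    (hN1 : X ^ 4 ≤ N) (hN2 : N ≤ 8 * X ^ 4) (hM : N = 2 * M) (hR : R = 4 * m * X ^ 2)
    (hD : D = 16 * m * X + 1) (hL : L = N / (16 * R)) :
    4 * R ≤ M ∧ 1 ≤ L ∧ L ≤ R ∧ 8 * R * L ≤ M ∧ 8 * R * D ≤ M ∧ N * (2 * m ^ 2) ≤ R ^ 2 ∧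
      18 * D * X ≤ 39168 * m ^ 2 * L ∧ (16 * m * X) ^ 2 = 64 * m * R ∧ D < R := by
  have hmm : m ≤ m ^ 2 := Nat.le_self_pow (by norm_num) m
  have hX0 : 0 < X := by
    have : 0 < 2000000 * m ^ 2 := by positivity
    omega
  have hDle : D ≤ 17 * m * X := by
    rw [hD]
    have h1 : 1 ≤ m * X := Nat.mul_pos hm hX0
    nlinarith
  have h1 : 1088 * m ^ 2 ≤ X := by omega
  have h2 : 64 * m ≤ X := by omega
  have h16R : 16 * R ≤ N := by
    calc 16 * R = (64 * m) * X ^ 2 := by rw [hR]; ring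
      _ ≤ X * X ^ 2 := by gcongr
      _ ≤ X ^ 4 := by
        calc X * X ^ 2 = X ^ 3 := by ring
          _ ≤ X ^ 4 := Nat.pow_le_pow_right hX0 (by norm_num)
      _ ≤ N := hN1
  have hR0 : 0 < R := by rw [hR]; positivity
  have hL1 : 1 ≤ L := by
    rw [hL, Nat.one_le_div_iff (by omega)]
    exact h16R
  have hLR0 : L * (16 * R) ≤ N := by rw [hL]; exact Nat.div_mul_le_self _ _
  have hLN : N < 32 * R * L := by
    have h3 : N < (L + 1) * (16 * R) := by
      rw [hL, add_mul, one_mul]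
      exact Nat.lt_div_mul_add (by omega)
    calc N < (L + 1) * (16 * R) := h3
      _ ≤ (2 * L) * (16 * R) := by gcongr; omega
      _ = 32 * R * L := by ring
  have hRD : 16 * R * D ≤ N := by
    calc 16 * R * D ≤ 16 * R * (17 * m * X) := by gcongr
      _ = (1088 * m ^ 2) * X ^ 3 := by rw [hR]; ring
      _ ≤ X * X ^ 3 := by gcongr
      _ = X ^ 4 := by ring
      _ ≤ N := hN1
  have hRR : N * (2 * m ^ 2) ≤ R ^ 2 := by
    calc N * (2 * m ^ 2) ≤ (8 * X ^ 4) * (2 * m ^ 2) := by gcongr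
      _ = R ^ 2 := by rw [hR]; ring
  refine ⟨by omega, hL1, ?_, ?_, ?_, hRR, ?_, ?_, ?_⟩
  · by_contra hlt
    push Not at hlt
    have h3 : R * (16 * R) ≤ L * (16 * R) := by gcongr
    have h4 : N < R * (16 * R) := by
      have h5 : 1 ≤ m ^ 2 := Nat.one_le_pow _ _ hm
      have h6 : N * 2 ≤ N * (2 * m ^ 2) := by gcongr; omega
      have h7 : 0 < N := by omega
      nlinarith
    omega
  · have : 16 * R * L ≤ N := by rw [mul_comm] at hLR0; exact hLR0
    have h3 : 16 * R * L = 2 * (8 * R * L) := by ring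
    omega
  · have h3 : 16 * R * D = 2 * (8 * R * D) := by ring
    omega
  · have h3 : X ^ 2 * X ^ 2 ≤ X ^ 2 * (128 * m * L) := by
      calc X ^ 2 * X ^ 2 = X ^ 4 := by ring
        _ ≤ N := hN1
        _ ≤ 32 * R * L := hLN.le
        _ = X ^ 2 * (128 * m * L) := by rw [hR]; ring
    have h4 : X ^ 2 ≤ 128 * m * L := Nat.le_of_mul_le_mul_left h3 (by positivity)
    calc 18 * D * X ≤ 18 * (17 * m * X) * X := by gcongr
      _ = 306 * m * X ^ 2 := by ring
      _ ≤ 306 * m * (128 * m * L) := by gcongr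
      _ = 39168 * m ^ 2 * L := by ring
  · rw [hR]; ring
  · have h3 : 17 * m * X < R := by
      rw [hR]
      have h4 : 0 < m * X := Nat.mul_pos hm hX0
      have h5 : 17 < 4 * X := by omega
      calc 17 * m * X = 17 * (m * X) := by ring
        _ < (4 * X) * (m * X) := by gcongr
        _ = 4 * m * X ^ 2 := by ring
    omega

lemma lamN_diff (N a b : ℕ) (hab : a ≤ b) :
    lamN N b - lamN N a = 2 * N * (∑ l ∈ Ioc a b, (N.choose l : ℝ)) / 2 ^ N := by
  induction b, hab using Nat.le_induction with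
  | base => simp
  | succ b hab ih =>
    have h1 : Ioc a (b + 1) = insert (b + 1) (Ioc a b) := by
      ext x; simp only [mem_Ioc, mem_insert]; omega
    rw [h1, Finset.sum_insert (by simp)]
    have h2 := lamN_step N b
    have h3 : lamN N (b + 1) - lamN N a =
        (lamN N (b + 1) - lamN N b) + (lamN N b - lamN N a) := by ring
    rw [h3, h2, ih]
    ring

lemma lamN_diff_le (N i D : ℕ) : lamN N i - lamN N (i - D) ≤ winN N i D := by
  rw [lamN_diff N (i - D) i (Nat.sub_le i D), winN]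
  have h1 : ∑ l ∈ Ioc (i - D) i, (N.choose l : ℝ) ≤
      ∑ l ∈ Icc (i + 1 - D) (i + D), (N.choose l : ℝ) := by
    apply Finset.sum_le_sum_of_subset_of_nonneg
    · intro x hx
      rw [mem_Ioc] at hx
      rw [mem_Icc]; omega
    · intro _ _ _; positivity
  gcongr

lemma lamN_diff_le' (N i D : ℕ) : lamN N (i + D) - lamN N i ≤ winN N i D := by
  rw [lamN_diff N i (i + D) (Nat.le_add_right i D), winN]
  have h1 : ∑ l ∈ Ioc i (i + D), (N.choose l : ℝ) ≤
      ∑ l ∈ Icc (i + 1 - D) (i + D), (N.choose l : ℝ) := by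
    apply Finset.sum_le_sum_of_subset_of_nonneg
    · intro x hx
      rw [mem_Ioc] at hx
      rw [mem_Icc]; omega
    · intro _ _ _; positivity
  gcongr

/-- `α_i / C(2^m, i)` -/
noncomputable def pq' (m i : ℕ) : ℝ := (leaderCount m i : ℝ) / (2 ^ m).choose i

variable {m M : ℕ}

lemma choose_pos_real' (hM : 2 ^ m = 2 * M) (i : ℕ) (hi : i ≤ M) :
    (0 : ℝ) < (2 ^ m).choose i := by
  have := Nat.choose_pos (show i ≤ 2 ^ m by omega)
  exact_mod_cast this

lemma pq'_le_leaders (hM : 2 ^ m = 2 * M) (i : ℕ) (hi : i ≤ M) :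
    pq' m i ≤ prk i (fun A => ¬ bad (nz m) chi ((M : ℤ) - i + 1) A) := by
  rw [pq', div_le_iff₀ (choose_pos_real' hM i hi), mul_comm]
  exact le_leaders hM i hi

lemma le_pq' (hM : 2 ^ m = 2 * M) (i : ℕ) (hi : i < M) :
    1 - prk i (bad (nz m) chi ((M : ℤ) - i)) ≤ pq' m i := by
  rw [pq', le_div_iff₀ (choose_pos_real' hM i hi.le), mul_comm]
  exact unique_le hM i hi

lemma ode_rel' (hM : 2 ^ m = 2 * M) (i : ℕ) (hi : i + 1 ≤ M) :
    good (nz m) chi M i - good (nz m) chi M (i + 1) =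
      (lamN (2 ^ m) (i + 1) - lamN (2 ^ m) i) * pq' m (i + 1) := by
  rw [good_step hM, lamN_step, pq']
  have h := (choose_pos_real' hM (i + 1) hi).ne'
  push_cast
  field_simp

lemma aux1 (z : ℝ) (h0 : 0 ≤ z) (h1 : z ≤ 1 / 2000000) : 1 ≤ (1 + 24 * z) * (1 - 4 * z) := by
  nlinarith

lemma aux2 (z : ℝ) (h0 : 0 ≤ z) (h1 : z ≤ 1 / 2000000) : 1 ≤ (1 + 24 * z) * (1 - 12 * z) := by
  nlinarith

lemma aux3 (z a b : ℝ) (ha0 : 0 ≤ a) (ha : a ≤ 11 * z)
    (hb : b ≤ z) (hb0 : 0 ≤ b) : 1 - 12 * z ≤ (1 - a) * (1 - b) := by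
  nlinarith [mul_nonneg ha0 hb0]

lemma aux4 (X N l : ℝ) (hX1 : 2000000 ≤ X) (hXN : X * X ≤ N) (hl : l ≤ X) : l * X ≤ 1 * N := by
  nlinarith

lemma aux5 (η ln z : ℝ) (hη : η ≤ 1 / 50) (hz : 0 ≤ z) :
    η * (2 * (ln + 4 * z)) ≤ 2 * η * ln + 8 * z := by
  nlinarith

lemma aux6 (l : ℝ) (h0 : 0 ≤ l) (h1 : l ≤ 1 / 100) : 1 ≤ (1 + 2 * l) * (1 - l) := by
  nlinarith

lemma aux7 (M ln : ℝ) (hM : 1 ≤ M) (hln : 0 ≤ ln) :
    4 + (48 + 8 * (2 * (39168 * M) * ln + 8)) * (1 + ln) ≤ 2000000 * M * (1 + ln) ^ 2 := by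
  have h1 : 48 + 8 * (2 * (39168 * M) * ln + 8) ≤ 700000 * (M * (1 + ln)) := by
    nlinarith [mul_nonneg (sub_nonneg.2 hM) hln]
  have h2 : 0 ≤ 1 + ln := by linarith
  have h3 := mul_le_mul_of_nonneg_right h1 h2
  have h4 : 1 ≤ M * (1 + ln) ^ 2 := by
    have h5 : 1 ≤ (1 + ln) ^ 2 := by nlinarith
    nlinarith
  nlinarith

/-- The main estimate. -/
theorem far (m X M R D L : ℕ) (hm : 1 ≤ m) (hXe : X = 2 ^ (m / 4))
    (hM : 2 ^ m = 2 * M) (hR : R = 4 * m * X ^ 2) (hD : D = 16 * m * X + 1)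
    (hL : L = 2 ^ m / (16 * R)) (n : ℕ)
    (hlam : 2000000 * (m : ℝ) ^ 2 * (1 + lamN (2 ^ m) n) ≤ X) :
    n < M ∧ 0 < good (nz m) chi M n ∧ 0 < pq' m n ∧
    |Real.log (good (nz m) chi M n) + lamN (2 ^ m) n| ≤
      2000000 * (m : ℝ) ^ 2 * (1 + lamN (2 ^ m) n) ^ 2 / X ∧
    |Real.log (pq' m n) + lamN (2 ^ m) n| ≤
      2000000 * (m : ℝ) ^ 2 * (1 + lamN (2 ^ m) n) ^ 2 / X := by
  have hln0 := lamN_nonneg (2 ^ m) n
  set ln := lamN (2 ^ m) n with hln
  have hm1 : (1 : ℝ) ≤ m := by exact_mod_cast hm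
  have hm2 : (1 : ℝ) ≤ (m : ℝ) ^ 2 := one_le_pow₀ hm1
  have hX : 2000000 * m ^ 2 ≤ X := by
    have h1 : (2000000 : ℝ) * (m : ℝ) ^ 2 ≤ X := by nlinarith
    exact_mod_cast h1
  have hN1 : X ^ 4 ≤ 2 ^ m := by
    rw [hXe, ← pow_mul]
    exact Nat.pow_le_pow_right (by norm_num) (by omega)
  have hN2 : 2 ^ m ≤ 8 * X ^ 4 := by
    rw [hXe, ← pow_mul, show (8 : ℕ) = 2 ^ 3 by norm_num, ← pow_add]
    exact Nat.pow_le_pow_right (by norm_num) (by omega)
  obtain ⟨p1, p2, p3, p4, p5, p6, p7, p8, p9⟩ :=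
    params2 m X (2 ^ m) M R D L hm hX hN1 hN2 hM hR hD hL
  set N : ℝ := (2 : ℝ) ^ m with hN
  have hXr : (2000000 : ℝ) * (m : ℝ) ^ 2 ≤ X := by exact_mod_cast hX
  have hX1 : (2000000 : ℝ) ≤ X := by nlinarith
  have hXpos : (0 : ℝ) < X := by linarith
  have hNpos : 0 < N := by rw [hN]; positivity
  have hM0 : 0 < M := by omega
  have hR0 : 0 < R := by omega
  have hXN : (X : ℝ) * X ≤ N := by
    have h1 : X * X ≤ X ^ 4 := by
      have h2 : 1 ≤ X := by rw [hXe]; exact Nat.one_le_two_pow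
      calc X * X = X ^ 2 := by ring
        _ ≤ X ^ 4 := Nat.pow_le_pow_right h2 (by norm_num)
    have h2 : X * X ≤ 2 ^ m := h1.trans hN1
    rw [hN]; exact_mod_cast h2
  have hXN1 : (X : ℝ) ≤ N := by nlinarith
  have hm2' : (2 : ℝ) ≤ m := by
    have : 2 ≤ m := by
      by_contra hcon
      have : m = 1 := by omega
      subst this
      norm_num at hXe
      omega
    exact_mod_cast this
  have hN1r : 1 ≤ N := by linarith
  have hexp : Real.exp (-(4 * (m : ℝ))) ≤ 1 / N ^ 3 := by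
    rw [Real.exp_neg, ← one_div]
    apply one_div_le_one_div_of_le (by positivity)
    have h1 : N ^ 3 = (8 : ℝ) ^ m := by
      rw [hN, ← pow_mul, mul_comm, pow_mul]; norm_num
    have h2 : Real.exp (4 * (m : ℝ)) = Real.exp 4 ^ m := by
      rw [← Real.exp_nat_mul]; congr 1; ring
    rw [h1, h2]
    apply pow_le_pow_left₀ (by norm_num)
    have h3 : Real.exp 4 = Real.exp 1 ^ 4 := by rw [← Real.exp_nat_mul]; norm_num
    rw [h3]
    have h4 : (2 : ℝ) ≤ Real.exp 1 := by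
      have := Real.exp_one_gt_d9
      linarith
    calc (8 : ℝ) ≤ 2 ^ 4 := by norm_num
      _ ≤ Real.exp 1 ^ 4 := by gcongr
  have hRN : 2 * (m : ℝ) ^ 2 ≤ (R : ℝ) ^ 2 / N := by
    rw [le_div_iff₀ hNpos, hN, mul_comm]
    exact_mod_cast p6
  have he1 : Real.exp (-((R : ℝ) ^ 2 / N)) ≤ 1 / N ^ 3 := by
    refine le_trans (Real.exp_le_exp.2 ?_) hexp
    nlinarith
  have he2 : Real.exp (-(2 * (R : ℝ) ^ 2 / N)) ≤ 1 / N ^ 3 := by
    refine le_trans (Real.exp_le_exp.2 ?_) hexp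
    have : 2 * (R : ℝ) ^ 2 / N = 2 * ((R : ℝ) ^ 2 / N) := by ring
    rw [this]
    nlinarith
  have hNX : 1 / N ≤ 1 / X := one_div_le_one_div_of_le hXpos hXN1
  -- small levels
  have hsmall : ∀ j, j + R ≤ M → lamN (2 ^ m) j ≤ 4 / X := by
    intro j hj
    have h1 := lamN_small hM hM0 R j hj
    rw [← hN] at h1
    refine h1.trans ?_
    calc 4 * N * Real.exp (-(2 * (R : ℝ) ^ 2 / N)) ≤ 4 * N * (1 / N ^ 3) := by gcongr
      _ = 4 * (1 / N ^ 2) := by field_simp
      _ ≤ 4 * (1 / N) := by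
        gcongr
        exact le_self_pow₀ hN1r (by norm_num)
      _ ≤ 4 * (1 / X) := by gcongr
      _ = 4 / X := by ring
  have hbadsmall : ∀ j, j + R ≤ M → prk j (bad (nz m) chi ((M : ℤ) - j)) ≤ 2 / X := by
    intro j hj
    have h5 := bad_tail hM hM0 R j hj
    rw [← hN] at h5
    refine h5.trans ?_
    calc N * (2 * N * Real.exp (-((R : ℝ) ^ 2 / N))) ≤ N * (2 * N * (1 / N ^ 3)) := by gcongr
      _ = 2 * (1 / N) := by field_simp
      _ ≤ 2 * (1 / X) := by gcongr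
      _ = 2 / X := by ring
  -- windows
  set η : ℝ := 39168 * (m : ℝ) ^ 2 / X with hη
  have hη0 : 0 ≤ η := by positivity
  have hη1 : η ≤ 1 / 50 := by
    rw [hη, div_le_iff₀ hXpos]
    linarith
  have hwin : ∀ j, j < M → M ≤ j + R → winN (2 ^ m) j D ≤ η * lamN (2 ^ m) j := by
    intro j hj hjR
    have h1 := window_le M R L D j p1 hj hjR p3 p4 p5
    rw [← hM] at h1
    have h2 : (18 : ℝ) * D * X ≤ 39168 * m ^ 2 * L := by exact_mod_cast p7
    have hL0 : (0 : ℝ) < L := by exact_mod_cast p2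
    set S1 := ∑ l ∈ Icc (j + 1 - D) (j + D), ((2 ^ m).choose l : ℝ) with hS1
    set S2 := ∑ l ∈ range (j + 1), ((2 ^ m).choose l : ℝ) with hS2
    have hS2' : 0 ≤ S2 := by positivity
    have h3 : S1 ≤ η * S2 := by
      have h4 : (L : ℝ) * (S1 * X) ≤ L * (39168 * m ^ 2 * S2) := by
        calc (L : ℝ) * (S1 * X) = (L * S1) * X := by ring
          _ ≤ (18 * D * S2) * X := by gcongr
          _ = (18 * D * X) * S2 := by ring
          _ ≤ (39168 * m ^ 2 * L) * S2 := by gcongr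
          _ = _ := by ring
      have h5 := le_of_mul_le_mul_left h4 hL0
      rw [hη, div_mul_eq_mul_div, le_div_iff₀ hXpos]
      exact h5
    rw [winN, lamN, ← hS1, ← hS2]
    calc 2 * ((2 ^ m : ℕ) : ℝ) * S1 / 2 ^ 2 ^ m ≤
          2 * ((2 ^ m : ℕ) : ℝ) * (η * S2) / 2 ^ 2 ^ m := by gcongr
      _ = _ := by ring
  have hlnX' : 2000000 * ln ≤ X := by
    have h1 : 2000000 * (1 + ln) ≤ 2000000 * (m : ℝ) ^ 2 * (1 + ln) := by
      gcongr
      linarith
    linarith
  have hlnX : ln ≤ X := by linarith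
  -- n < M
  have hlarge : ∀ j, lamN (2 ^ m) j ≤ 2 * X + 2 → j < M := by
    intro j hj
    by_contra hcon
    push Not at hcon
    have h1 := lamN_large hM j hcon
    rw [← hN] at h1
    have h2 : 2000000 * (X : ℝ) ≤ X * X := by gcongr
    linarith
  have hnM : n < M := hlarge n (by linarith)
  -- j1
  set j1 := max n (M - R) with hj1
  have hj1M : j1 < M := by omega
  have hj1R : M ≤ j1 + R := by omega
  have hlj1 : lamN (2 ^ m) j1 ≤ ln + 4 / X := by
    have h4X : 0 < 4 / (X : ℝ) := by positivity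
    rcases le_total n (M - R) with h | h
    · have h1 : j1 = M - R := by omega
      rw [h1]
      have h2 := hsmall (M - R) (by omega)
      linarith
    · have h1 : j1 = n := by omega
      rw [h1]
      linarith
  have hlj1D : lamN (2 ^ m) (j1 + D) ≤ 2 * (ln + 4 / X) := by
    have h1 := hwin j1 hj1M hj1R
    have h2 := lamN_diff_le' (2 ^ m) j1 D
    have h3 := lamN_nonneg (2 ^ m) j1
    have h4 : η * lamN (2 ^ m) j1 ≤ 1 * lamN (2 ^ m) j1 := by
      apply mul_le_mul_of_nonneg_right _ h3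
      linarith
    linarith
  have h4X : 4 / (X : ℝ) ≤ 1 := by
    rw [div_le_one hXpos]; linarith
  have hj1DM : j1 + D < M := hlarge (j1 + D) (by linarith)
  have hle : ∀ j, j ≤ n + D → j < M ∧ lamN (2 ^ m) j ≤ 2 * (ln + 4 / X) := by
    intro j hj
    have h1 : j ≤ j1 + D := by omega
    exact ⟨by omega, (lamN_monotone _ h1).trans hlj1D⟩
  -- the error factor
  have htau : tau #(nz m) (Fintype.card (Vec m)) (4 * R) ((16 * m * X : ℕ) : ℝ) ≤ 11 / X := by
    rw [tau]
    have h1 : (((16 * m * X : ℕ) : ℝ)) ^ 2 / (4 * (4 * (R : ℝ))) = 4 * m := by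
      have h2 : (((16 * m * X : ℕ) : ℝ)) ^ 2 = 64 * m * R := by exact_mod_cast p8
      have h3 : (R : ℝ) ≠ 0 := by exact_mod_cast hR0.ne'
      rw [h2]
      field_simp
      norm_num
    rw [h1, card_vec]
    have h2 : (#(nz m) : ℝ) ≤ N := by
      have : #(nz m) ≤ 2 ^ m := by rw [← card_vec (m := m)]; exact Finset.card_le_univ _
      rw [hN]
      exact_mod_cast this
    have h3 : ((2 ^ m : ℕ) : ℝ) = N := by rw [hN]; push_cast; rfl
    rw [h3]
    have h4 : Real.exp (-(4 * (m : ℝ)) + 1) ≤ (1 / N ^ 3) * 2.75 := by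
      rw [Real.exp_add]
      have h5 := Real.exp_one_lt_d9
      have h6 : Real.exp 1 ≤ 2.75 := by linarith
      gcongr
    calc (#(nz m) : ℝ) * (2 * ((N + 1) * Real.exp (-(4 * (m : ℝ)) + 1))) ≤
          N * (2 * ((N + N) * ((1 / N ^ 3) * 2.75))) := by gcongr
      _ = 11 * (1 / N) := by field_simp; norm_num
      _ ≤ 11 * (1 / X) := by gcongr
      _ = 11 / X := by ring
  set τ := tau #(nz m) (Fintype.card (Vec m)) (4 * R) ((16 * m * X : ℕ) : ℝ) with hτ
  have hτ0 : 0 ≤ τ := tau_nonneg _ _ _ _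
  set t : ℝ := 24 / X with ht
  have ht0 : 0 ≤ t := by positivity
  have ht1 : t ≤ 1 / 2 := by rw [ht, div_le_iff₀ hXpos]; linarith
  have hinvX : 1 / (X : ℝ) ≤ 1 / 2000000 := one_div_le_one_div_of_le (by norm_num) hX1
  have hinvX0 : 0 < 1 / (X : ℝ) := by positivity
  have ht' : t = 24 * (1 / X) := by rw [ht]; ring
  have h11' : 11 / (X : ℝ) = 11 * (1 / X) := by ring
  have h4' : 4 / (X : ℝ) = 4 * (1 / X) := by ring
  have h2' : 2 / (X : ℝ) = 2 * (1 / X) := by ring
  set z : ℝ := 1 / (X : ℝ) with hz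
  have hDδ : D = 16 * m * X + 1 := hD
  -- upper relation
  have hup : ∀ j ≤ n + D, pq' m j ≤ (1 + t) * good (nz m) chi M (j - D) := by
    intro j hj
    obtain ⟨hjM, hlj⟩ := hle j hj
    rcases le_or_gt (j + R) M with hjR | hjR
    · have h1 : pq' m j ≤ 1 := (pq'_le_leaders hM j hjM.le).trans (prk_le_one _ _)
      have h2 := one_sub_good_le hM (j - D) (by omega)
      have h3 := hsmall (j - D) (by omega)
      rw [h4'] at h3
      have h4 : 1 - 4 * z ≤ good (nz m) chi M (j - D) := by linarith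
      have h5 : 1 ≤ (1 + t) * (1 - 4 * z) := by
        rw [ht']
        exact aux1 z hinvX0.le hinvX
      calc pq' m j ≤ 1 := h1
        _ ≤ (1 + t) * (1 - 4 * z) := h5
        _ ≤ (1 + t) * good (nz m) chi M (j - D) := by gcongr
    · have h1 := upper_mix (nz m) chi (fun a _ => chi_cases a)
        (fun a ha => chi_sum a (mem_nz.1 ha)) M j R (16 * m * X) (card_vec_M hM) hjM hjR.le
        (by omega) p1 (by
          have : 8 * R * (16 * m * X) ≤ 8 * R * D := by gcongr; omega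
          omega)
      rw [← hτ, ← hDδ, card_vec] at h1
      have h2 : lamN (2 ^ m) (j - D) / ((2 ^ m : ℕ) : ℝ) ≤ z := by
        have h3 : lamN (2 ^ m) (j - D) ≤ X := by
          refine (lamN_monotone _ (Nat.sub_le j D)).trans (hlj.trans ?_)
          linarith
        have h4 : ((2 ^ m : ℕ) : ℝ) = N := by rw [hN]; push_cast; rfl
        rw [h4, hz, div_le_div_iff₀ hNpos hXpos]
        exact aux4 X N _ hX1 hXN h3
      have h3 := pq'_le_leaders hM j hjM.le
      set g := prk j (fun A => ¬ bad (nz m) chi ((M : ℤ) - j + 1) A) with hg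
      have hg0 : 0 ≤ g := prk_nonneg _ _
      have h4 : (1 - 12 * z) * g ≤ good (nz m) chi M (j - D) := by
        refine le_trans ?_ h1
        apply mul_le_mul_of_nonneg_right _ hg0
        rw [h11'] at htau
        exact aux3 z _ _ hτ0 htau h2 (div_nonneg (lamN_nonneg _ _) (by positivity))
      refine h3.trans ?_
      have h5 : g ≤ (1 + t) * ((1 - 12 * z) * g) := by
        have h6 : 1 ≤ (1 + t) * (1 - 12 * z) := by
          rw [ht']
          exact aux2 z hinvX0.le hinvX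
        calc g = 1 * g := (one_mul g).symm
          _ ≤ ((1 + t) * (1 - 12 * z)) * g := by gcongr
          _ = _ := by ring
      calc g ≤ (1 + t) * ((1 - 12 * z) * g) := h5
        _ ≤ (1 + t) * good (nz m) chi M (j - D) := by gcongr
  -- lower relation
  have hlow : ∀ j ≤ n, (1 - t) * good (nz m) chi M (j + D) ≤ pq' m j := by
    intro j hj
    obtain ⟨hjM, hlj⟩ := hle j (by omega)
    have h0 := le_pq' hM j hjM
    have hg0 := good_nonneg (m := m) (M := M) (j + D)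
    have h1t : 0 ≤ 1 - t := by linarith
    rcases le_or_gt (j + R) M with hjR | hjR
    · have h2 := hbadsmall j hjR
      have h3 := good_le_one hM (j + D)
      rw [h2'] at h2
      calc (1 - t) * good (nz m) chi M (j + D) ≤ (1 - t) * 1 := by gcongr
        _ ≤ 1 - 2 * z := by rw [ht']; linarith
        _ ≤ pq' m j := by linarith
    · have h1 := lower_mix (nz m) chi (fun a _ => chi_cases a)
        (fun a ha => chi_sum a (mem_nz.1 ha)) M j R (16 * m * X) (card_vec_M hM) hjM hjR.le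
        (by omega) p1 (by
          have : 8 * R * (16 * m * X) ≤ 8 * R * D := by gcongr; omega
          omega)
      rw [← hτ, prk_not j (by rw [card_vec]; omega)] at h1
      have h2 : good (nz m) chi M (j + D) ≤ good (nz m) chi M (j + 16 * m * X) :=
        good_anti hM (by omega)
      have h3 : 1 - t ≤ 1 - τ := by
        rw [h11'] at htau
        rw [ht']
        linarith
      calc (1 - t) * good (nz m) chi M (j + D) ≤ (1 - τ) * good (nz m) chi M (j + D) := by
            gcongr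
        _ ≤ (1 - τ) * good (nz m) chi M (j + 16 * m * X) := by
            apply mul_le_mul_of_nonneg_left h2
            linarith
        _ ≤ _ := h1
        _ ≤ _ := h0
  -- windows
  set w : ℝ := 2 * η * ln + 8 / X with hw
  have hw0 : 0 ≤ w := by positivity
  have h8' : 8 / (X : ℝ) = 8 * z := by rw [hz]; ring
  have hηln : η * ln ≤ 39168 / 2000000 := by
    rw [hη, div_mul_eq_mul_div, div_le_div_iff₀ hXpos (by norm_num)]
    have h1 : 2000000 * (m : ℝ) ^ 2 * (1 + ln) = 2000000 * (m : ℝ) ^ 2 +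
      2000000 * ((m : ℝ) ^ 2 * ln) := by ring
    rw [h1] at hlam
    have h2 : 39168 * (m : ℝ) ^ 2 * ln * 2000000 = 39168 * (2000000 * ((m : ℝ) ^ 2 * ln)) := by
      ring
    rw [h2]
    have h3 : 0 ≤ 2000000 * (m : ℝ) ^ 2 := by positivity
    linarith
  have hw1 : w ≤ 1 / 16 := by
    rw [hw, h8']
    linarith
  have hwin' : ∀ j ≤ n + D, lamN (2 ^ m) j - lamN (2 ^ m) (j - D) ≤ w := by
    intro j hj
    obtain ⟨hjM, hlj⟩ := hle j hj
    rcases le_or_gt (j + R) M with hjR | hjR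
    · have h1 := hsmall j hjR
      have h2 := lamN_nonneg (2 ^ m) (j - D)
      have h3 : 0 ≤ 2 * η * ln := by positivity
      rw [hw, h8']
      rw [h4'] at h1
      linarith
    · have h1 := hwin j hjM hjR.le
      have h2 := lamN_diff_le (2 ^ m) j D
      have h3 : η * lamN (2 ^ m) j ≤ η * (2 * (ln + 4 / X)) := by gcongr
      have h4 : η * (2 * (ln + 4 / X)) ≤ w := by
        rw [hw, h4', h8']
        exact aux5 η ln z hη1 hinvX0.le
      linarith
  have h0small : lamN (2 ^ m) 0 ≤ 4 / X := hsmall 0 (by omega)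
  have h0nn := lamN_nonneg (2 ^ m) 0
  have hu0 : 1 - lamN (2 ^ m) 0 ≤ good (nz m) chi M 0 := by
    have := one_sub_good_le hM 0 (by omega)
    linarith
  have hu0pos : 0 < good (nz m) chi M 0 := by
    rw [h4'] at h0small
    linarith
  have hstart : |Real.log (good (nz m) chi M 0) + lamN (2 ^ m) 0| ≤ 4 / X := by
    have h1 : Real.log (good (nz m) chi M 0) ≤ 0 :=
      Real.log_nonpos hu0pos.le (good_le_one hM 0)
    have hlpos : 0 < 1 - lamN (2 ^ m) 0 := by
      rw [h4'] at h0small; linarith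
    have h2 : Real.log (1 - lamN (2 ^ m) 0) ≤ Real.log (good (nz m) chi M 0) :=
      Real.log_le_log hlpos hu0
    have h3 := Real.one_sub_inv_le_log_of_pos hlpos
    have h4 : (1 - lamN (2 ^ m) 0)⁻¹ ≤ 1 + 2 * lamN (2 ^ m) 0 := by
      rw [inv_le_comm₀ hlpos (by linarith), ← one_div, div_le_iff₀ (by linarith)]
      rw [h4'] at h0small
      have := aux6 (lamN (2 ^ m) 0) h0nn (by linarith)
      linarith
    rw [abs_le]
    constructor <;> linarith
  have hmain := delay (good (nz m) chi M) (pq' m) (lamN (2 ^ m)) D n w t (4 / X) (by omega) ht0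
    ht1 hw0 hw1 (good_anti hM) (lamN_monotone _) h0nn
    (fun j hj => ode_rel' hM j (by have := (hle (j + 1) hj).1; omega)) hup hlow hwin' hu0pos
    hstart n le_rfl
  obtain ⟨q1, q2, q3, q4⟩ := hmain
  have hfin : 4 / (X : ℝ) + (2 * t + 8 * w) * (1 + ln) ≤
      2000000 * (m : ℝ) ^ 2 * (1 + ln) ^ 2 / X := by
    have e1 : 2000000 * (m : ℝ) ^ 2 * (1 + ln) ^ 2 / X =
        (2000000 * (m : ℝ) ^ 2 * (1 + ln) ^ 2) * z := by rw [hz]; ring
    have e2 : 4 / (X : ℝ) + (2 * t + 8 * w) * (1 + ln) =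
        (4 + (48 + 8 * (2 * (39168 * (m : ℝ) ^ 2) * ln + 8)) * (1 + ln)) * z := by
      rw [hw, hη, ht, hz]
      ring
    rw [e1, e2]
    apply mul_le_mul_of_nonneg_right _ hinvX0.le
    exact aux7 _ ln hm2 hln0
  refine ⟨hnM, q1, q2, q3.trans ?_, q4.trans hfin⟩
  refine le_trans ?_ hfin
  have : 0 ≤ 2 * t + 8 * w := by positivity
  have h2 : (2 * t + 8 * w) * ln ≤ (2 * t + 8 * w) * (1 + ln) := by
    apply mul_le_mul_of_nonneg_left _ this
    linarith
  linarith

end Pool.Agent.RMC68
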