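import Pool.Agent.RMC68.Param

/-!
# The asymptotic law of the coset leader weights
-/

set_option autoImplicit false

open Finset

namespace Pool.Agent.RMC68

open Pool.Agent.RMC

variable {m M : ℕ}

/-- `α_i / C(2^m, i)` -/
noncomputable def pq (m i : ℕ) : ℝ := (leaderCount m i : ℝ) / (2 ^ m).choose i

lemma choose_pos_real (hM : 2 ^ m = 2 * M) (i : ℕ) (hi : i ≤ M) :
    (0 : ℝ) < (2 ^ m).choose i := by
  have := Nat.choose_pos (show i ≤ 2 ^ m by omega)
  exact_mod_cast this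

lemma pq_nonneg (m i : ℕ) : 0 ≤ pq m i := by rw [pq]; positivity

lemma pq_le_leaders (hM : 2 ^ m = 2 * M) (i : ℕ) (hi : i ≤ M) :
    pq m i ≤ prk i (fun A => ¬ bad (nz m) chi ((M : ℤ) - i + 1) A) := by
  rw [pq, div_le_iff₀ (choose_pos_real hM i hi), mul_comm]
  exact le_leaders hM i hi

lemma pq_le_one (hM : 2 ^ m = 2 * M) (i : ℕ) (hi : i ≤ M) : pq m i ≤ 1 :=
  (pq_le_leaders hM i hi).trans (prk_le_one _ _)

lemma le_pq (hM : 2 ^ m = 2 * M) (i : ℕ) (hi : i < M) :
    1 - prk i (bad (nz m) chi ((M : ℤ) - i)) ≤ pq m i := by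
  rw [pq, le_div_iff₀ (choose_pos_real hM i hi.le), mul_comm]
  exact unique_le hM i hi

lemma ode_rel (hM : 2 ^ m = 2 * M) (i : ℕ) (hi : i + 1 ≤ M) :
    good (nz m) chi M i - good (nz m) chi M (i + 1) =
      (lamN (2 ^ m) (i + 1) - lamN (2 ^ m) i) * pq m (i + 1) := by
  rw [good_step hM, lamN_step, pq]
  have h := (choose_pos_real hM (i + 1) hi).ne'
  push_cast
  field_simp

/-- the local comparison -/
lemma local_bound (hM : 2 ^ m = 2 * M) (i R δ : ℕ) (hi : i < M) (hR : M ≤ i + R) (hδ : 0 < δ) :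
    |pq m i - good (nz m) chi M i| ≤ 2 * (err (2 ^ m) R δ + winN (2 ^ m) i δ) +
      lamN (2 ^ m) i / 2 ^ m + 2 * Real.exp (-(2 * (R : ℝ) ^ 2 / 2 ^ m)) ∧
    prk i (fun A => ¬ bad (nz m) chi ((M : ℤ) - i + 1) A) ≤ good (nz m) chi M i +
      (2 * (err (2 ^ m) R δ + winN (2 ^ m) i δ) +
      lamN (2 ^ m) i / 2 ^ m + 2 * Real.exp (-(2 * (R : ℝ) ^ 2 / 2 ^ m))) := by
  have hcard : #(nz m) ≤ Fintype.card (Vec m) := Finset.card_le_univ _
  have h1 := level_bound (nz m) chi (fun a _ => chi_cases a)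
    (fun a ha => chi_sum a (mem_nz.1 ha)) M (card_vec_M hM) hcard i R δ hi hR hδ
  rw [card_vec] at h1
  push_cast at h1
  obtain ⟨h2, h3⟩ := h1
  have h4 : prk i (fun A => ¬ bad (nz m) chi ((M : ℤ) - i + 1) A) ≤
      (1 - prk i (bad (nz m) chi ((M : ℤ) - i))) + prk i (tie (nz m) chi ((M : ℤ) - i)) := by
    rw [← prk_not i (by rw [card_vec]; omega)]
    obtain ⟨A0, -, hA⟩ := Finset.exists_subset_card_eq (s := (univ : Finset (Vec m))) (n := i)
      (by rw [Finset.card_univ, card_vec]; omega)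
    rw [← hA, ← prP_map A0, ← prP_map A0, ← prP_map A0, hA]
    refine (prP_mono fun σ hσ => ?_).trans (prP_or _ _)
    by_cases hb : bad (nz m) chi ((M : ℤ) - i) (A0.map σ.toEmbedding)
    · right
      obtain ⟨a, ha, h⟩ := hb
      refine ⟨a, ha, ?_⟩
      by_contra hne
      apply hσ
      refine ⟨a, ha, ?_⟩
      have : (M : ℤ) - i < |∑ x ∈ A0.map σ.toEmbedding, chi a x| := lt_of_le_of_ne h (Ne.symm hne)
      omega
    · left; exact hb
  have h5 := pq_le_leaders hM i hi.le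
  have h6 := le_pq hM i hi
  have h7 : 0 ≤ lamN (2 ^ m) i / 2 ^ m := div_nonneg (lamN_nonneg _ _) (by positivity)
  have h8 := Real.exp_pos (-(2 * (R : ℝ) ^ 2 / 2 ^ m))
  have h9 : 0 ≤ err (2 ^ m) R δ + winN (2 ^ m) i δ := by rw [err, winN]; positivity
  rw [abs_le] at h2
  obtain ⟨h10, h11⟩ := h2
  constructor
  · rw [abs_le]
    constructor <;> linarith
  · linarith

/-- The main estimate below the middle level. -/
theorem core (m X M R δ L : ℕ) (hm : 1 ≤ m) (hX : 100000 * m ^ 3 < X) (hXe : X = 2 ^ (m / 4))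
    (hM : 2 ^ m = 2 * M) (hR : R = 4 * m * X ^ 2) (hδ : δ = 8 * m * X)
    (hL : L = 2 ^ m / (16 * R)) (i : ℕ) (hi : i < M) :
    |good (nz m) chi M i - Real.exp (-lamN (2 ^ m) i)| ≤ 100000 * ((m : ℝ) ^ 3 / X) ∧
    |pq m i - Real.exp (-lamN (2 ^ m) i)| ≤ 100000 * ((m : ℝ) ^ 3 / X) := by
  have hN1 : X ^ 4 ≤ 2 ^ m := by
    rw [hXe, ← pow_mul]
    exact Nat.pow_le_pow_right (by norm_num) (by omega)
  have hN2 : 2 ^ m ≤ 8 * X ^ 4 := by
    rw [hXe, ← pow_mul, show (8 : ℕ) = 2 ^ 3 by norm_num, ← pow_add]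
    exact Nat.pow_le_pow_right (by norm_num) (by omega)
  obtain ⟨p1, p2, p3, p4, p5, p6, p7, p8⟩ := params m X (2 ^ m) M R δ L hm hX hN1 hN2 hM hR hδ hL
  set B : ℝ := (m : ℝ) ^ 3 / X with hB
  set N : ℝ := (2 : ℝ) ^ m with hN
  have hm1 : (1 : ℝ) ≤ m := by exact_mod_cast hm
  have hXpos : 0 < X := by omega
  have hXr : (0 : ℝ) < X := by exact_mod_cast hXpos
  have hX1 : (1 : ℝ) ≤ X := by exact_mod_cast hXpos
  have hNpos : 0 < N := by rw [hN]; positivity
  have hM0 : 0 < M := by omega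
  have hR0 : 0 < R := by omega
  have hδ0 : 0 < δ := by rw [hδ]; positivity
  have hXN : (X : ℝ) ≤ N := by
    have h1 : X ≤ X ^ 4 := Nat.le_self_pow (by norm_num) X
    have h2 : X ≤ 2 ^ m := h1.trans hN1
    rw [hN]; exact_mod_cast h2
  have hm3 : (m : ℝ) ≤ (m : ℝ) ^ 3 := by
    calc (m : ℝ) = m ^ 1 := (pow_one _).symm
      _ ≤ m ^ 3 := pow_le_pow_right₀ hm1 (by norm_num)
  have hm2 : (2 : ℝ) ≤ m := by
    have : 2 ≤ m := by
      by_contra hcon
      have : m = 1 := by omega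
      subst this
      norm_num at hXe
      omega
    exact_mod_cast this
  have hBpos : 0 < B := by positivity
  have hinvN : 1 / N ≤ B := by
    rw [hB, div_le_div_iff₀ hNpos hXr]
    have : (1 : ℝ) ≤ (m : ℝ) ^ 3 := one_le_pow₀ hm1
    nlinarith
  have hmN : m / N ≤ B := by
    rw [hB, div_le_div_iff₀ hNpos hXr]
    have h1 : (m : ℝ) * X ≤ m ^ 3 * N := by gcongr
    exact h1
  have hBsmall : 100000 * B < 1 := by
    rw [hB, ← mul_div_assoc, div_lt_one hXr]
    exact_mod_cast hX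
  -- exponentials
  have hexp : Real.exp (-(4 * (m : ℝ))) ≤ 1 / N ^ 3 := by
    rw [Real.exp_neg, ← one_div]
    apply one_div_le_one_div_of_le (by positivity)
    have h1 : N ^ 3 = (8 : ℝ) ^ m := by
      rw [hN, ← pow_mul, mul_comm, pow_mul]; norm_num
    have h2 : Real.exp (4 * (m : ℝ)) = Real.exp 4 ^ m := by
      rw [← Real.exp_nat_mul]; congr 1; ring
    rw [h1, h2]
    apply pow_le_pow_left₀ (by norm_num)
    have h3 : Real.exp 4 = Real.exp 1 ^ 4 := by rw [← Real.exp_nat_mul]; norm_num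
    rw [h3]
    have h4 : (2 : ℝ) ≤ Real.exp 1 := by
      have := Real.exp_one_gt_d9
      linarith
    calc (8 : ℝ) ≤ 2 ^ 4 := by norm_num
      _ ≤ Real.exp 1 ^ 4 := by gcongr
  have hRN : 2 * (m : ℝ) ^ 2 ≤ (R : ℝ) ^ 2 / N := by
    rw [le_div_iff₀ hNpos, hN, mul_comm]
    exact_mod_cast p6
  have he1 : Real.exp (-((R : ℝ) ^ 2 / N)) ≤ 1 / N ^ 3 := by
    refine le_trans (Real.exp_le_exp.2 ?_) hexp
    nlinarith
  have he2 : Real.exp (-(2 * (R : ℝ) ^ 2 / N)) ≤ 1 / N ^ 3 := by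
    refine le_trans (Real.exp_le_exp.2 ?_) hexp
    have : 2 * (R : ℝ) ^ 2 / N = 2 * ((R : ℝ) ^ 2 / N) := by ring
    rw [this]
    nlinarith
  have hN1r : 1 ≤ N := by linarith
  have hN3 : 1 / N ^ 3 ≤ B := by
    refine le_trans ?_ hinvN
    apply one_div_le_one_div_of_le hNpos
    exact le_self_pow₀ hN1r (by norm_num)
  have herr : err (2 ^ m) R δ ≤ 2 * B := by
    rw [err]
    have h1 : (δ : ℝ) ^ 2 / (2 * (2 * R)) = 4 * m := by
      have h2 : (δ : ℝ) ^ 2 = 16 * m * R := by exact_mod_cast p8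
      have h3 : (R : ℝ) ≠ 0 := by exact_mod_cast hR0.ne'
      rw [h2]
      field_simp
      norm_num
    rw [h1]
    push_cast
    rw [← hN]
    calc N * (2 * N * Real.exp (-(4 * (m : ℝ)))) ≤ N * (2 * N * (1 / N ^ 3)) := by gcongr
      _ = 2 * (1 / N) := by field_simp
      _ ≤ 2 * B := by gcongr
  have hwin : ∀ j, j < M → M ≤ j + R → lamN (2 ^ m) j ≤ m → winN (2 ^ m) j δ ≤ 18432 * B := by
    intro j hj hjR hlam
    have h1 := window_le M R L δ j p1 hj hjR p3 p4 p5
    rw [← hM] at h1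
    have h2 : (18 : ℝ) * δ * X ≤ 18432 * m ^ 2 * L := by exact_mod_cast p7
    have hL0 : (0 : ℝ) < L := by exact_mod_cast p2
    set S1 := ∑ l ∈ Icc (j + 1 - δ) (j + δ), ((2 ^ m).choose l : ℝ) with hS1
    set S2 := ∑ l ∈ range (j + 1), ((2 ^ m).choose l : ℝ) with hS2
    have hS2' : 0 ≤ S2 := by positivity
    have h3 : S1 ≤ 18432 * m ^ 2 / X * S2 := by
      have h4 : (L : ℝ) * (S1 * X) ≤ L * (18432 * m ^ 2 * S2) := by
        calc (L : ℝ) * (S1 * X) = (L * S1) * X := by ring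
          _ ≤ (18 * δ * S2) * X := by gcongr
          _ = (18 * δ * X) * S2 := by ring
          _ ≤ (18432 * m ^ 2 * L) * S2 := by gcongr
          _ = _ := by ring
      have h5 := le_of_mul_le_mul_left h4 hL0
      rw [div_mul_eq_mul_div, le_div_iff₀ hXr]
      exact h5
    rw [lamN, ← hS2] at hlam
    rw [winN, ← hS1]
    calc 2 * ((2 ^ m : ℕ) : ℝ) * S1 / 2 ^ 2 ^ m ≤
          2 * ((2 ^ m : ℕ) : ℝ) * (18432 * m ^ 2 / X * S2) / 2 ^ 2 ^ m := by gcongr
      _ = 18432 * m ^ 2 / X * (2 * ((2 ^ m : ℕ) : ℝ) * S2 / 2 ^ 2 ^ m) := by ring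
      _ ≤ 18432 * m ^ 2 / X * m := by gcongr
      _ = 18432 * B := by rw [hB]; ring
  have hloc : ∀ j, j < M → M ≤ j + R → lamN (2 ^ m) j ≤ m →
      |pq m j - good (nz m) chi M j| ≤ 36871 * B ∧
      prk j (fun A => ¬ bad (nz m) chi ((M : ℤ) - j + 1) A) ≤
        good (nz m) chi M j + 36871 * B := by
    intro j hj hjR hlam
    have h1 := local_bound hM j R δ hj hjR hδ0
    have h2 := hwin j hj hjR hlam
    rw [← hN] at h1
    have h3 : lamN (2 ^ m) j / N ≤ B := by
      refine le_trans ?_ hmN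
      gcongr
    have h4 : 2 * (err (2 ^ m) R δ + winN (2 ^ m) j δ) + lamN (2 ^ m) j / N +
        2 * Real.exp (-(2 * (R : ℝ) ^ 2 / N)) ≤ 36871 * B := by
      linarith
    exact ⟨h1.1.trans h4, h1.2.trans (by linarith)⟩
  have hinc : ∀ j, j + 1 < M → M ≤ j + 1 + R → lamN (2 ^ m) (j + 1) ≤ m →
      lamN (2 ^ m) (j + 1) - lamN (2 ^ m) j ≤ 18432 * B := by
    intro j hj hjR hlam
    exact (lamN_step_le_win _ _ δ hδ0).trans (hwin (j + 1) hj hjR hlam)
  have hsmall : ∀ j, j + R ≤ M → lamN (2 ^ m) j ≤ 4 * B := by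
    intro j hj
    have h1 := lamN_small hM hM0 R j hj
    rw [← hN] at h1
    refine h1.trans ?_
    calc 4 * N * Real.exp (-(2 * (R : ℝ) ^ 2 / N)) ≤ 4 * N * (1 / N ^ 3) := by gcongr
      _ = 4 * (1 / N ^ 2) := by field_simp
      _ ≤ 4 * (1 / N) := by
        gcongr
        exact le_self_pow₀ hN1r (by norm_num)
      _ ≤ 4 * B := by gcongr
  have hexpbd : ∀ j, 1 - lamN (2 ^ m) j ≤ Real.exp (-lamN (2 ^ m) j) ∧
      Real.exp (-lamN (2 ^ m) j) ≤ 1 := by
    intro j
    constructor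
    · have := Real.add_one_le_exp (-lamN (2 ^ m) j)
      linarith
    · exact Real.exp_le_one_iff.2 (by linarith [lamN_nonneg (2 ^ m) j])
  have hgoodsmall : ∀ j, j + R ≤ M →
      |good (nz m) chi M j - Real.exp (-lamN (2 ^ m) j)| ≤ 4 * B := by
    intro j hj
    have h1 := hsmall j hj
    have h2 := one_sub_good_le hM j (by omega)
    have h3 := good_le_one hM j
    have h4 := hexpbd j
    rw [abs_le]
    constructor <;> linarith [h4.1, h4.2]
  have hode : ∀ j, M ≤ j + R → j < M → lamN (2 ^ m) j ≤ m →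
      |good (nz m) chi M j - Real.exp (-lamN (2 ^ m) j)| ≤ 55303 * B := by
    intro j hjR hj hlam
    have hRM : R ≤ M := by omega
    refine ode (good (nz m) chi M) (pq m) (lamN (2 ^ m)) (M - R) j (55303 * B) ?_
      (lamN_nonneg _) ?_ (lamN_mono _) ?_ j (by omega) le_rfl
    · exact (hgoodsmall (M - R) (by omega)).trans (by linarith)
    · intro k _ hk
      exact ode_rel hM k (by omega)
    · intro k hk1 hk2
      have hlk : lamN (2 ^ m) (k + 1) ≤ m := (lamN_monotone _ hk2).trans hlam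
      have h1 := (hloc (k + 1) (by omega) (by omega) hlk).1
      have h2 := hinc k (by omega) (by omega) hlk
      linarith
  have hfar : ∀ j, j < M → (m : ℝ) < lamN (2 ^ m) j →
      ∃ k, k ≤ j ∧ M ≤ k + R ∧ lamN (2 ^ m) k ≤ m ∧ Real.exp (-lamN (2 ^ m) k) ≤ B := by
    intro j hj hlam
    have hex : ∃ k, (m : ℝ) < lamN (2 ^ m) k := ⟨j, hlam⟩
    classical
    set k1 := Nat.find hex with hk1
    have hk1a := Nat.find_spec hex
    have hk1b := fun k hk => Nat.find_min hex (m := k) hk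
    have hk1c : k1 ≤ j := Nat.find_min' hex hlam
    have hk1R : M < k1 + R := by
      by_contra hcon
      push Not at hcon
      have h1 := hsmall k1 hcon
      have h2 : (m : ℝ) < lamN (2 ^ m) k1 := hk1a
      linarith
    have hRM : R ≤ M := by omega
    have hk10 : 1 ≤ k1 := by omega
    refine ⟨k1 - 1, by omega, by omega, ?_, ?_⟩
    · have := hk1b (k1 - 1) (by omega)
      exact not_lt.1 this
    · have h1 : (m : ℝ) < lamN (2 ^ m) (k1 - 1 + 1) := by
        rw [Nat.sub_add_cancel hk10]; exact hk1a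
      have h2 : lamN (2 ^ m) (k1 - 1 + 1) ≤ 4 * lamN (2 ^ m) (k1 - 1) := by
        have h3 := lamN_step (2 ^ m) (k1 - 1)
        have h4 := choose_add_le M R (k1 - 1) 1 p1 hM0 (by omega) (by
          have : 8 * R * 1 ≤ 8 * R * L := by gcongr
          omega)
        rw [← hM] at h4
        have h5 : 2 * ((2 ^ m : ℕ) : ℝ) * ((2 ^ m).choose (k1 - 1) : ℝ) / 2 ^ 2 ^ m ≤
            lamN (2 ^ m) (k1 - 1) := by
          rw [lamN]
          have h6 : ((2 ^ m).choose (k1 - 1) : ℝ) ≤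
              ∑ l ∈ range (k1 - 1 + 1), ((2 ^ m).choose l : ℝ) :=
            Finset.single_le_sum (f := fun l => ((2 ^ m).choose l : ℝ))
              (fun _ _ => by positivity) (by rw [mem_range]; omega)
          gcongr
        have h7 : 2 * ((2 ^ m : ℕ) : ℝ) * ((2 ^ m).choose (k1 - 1 + 1) : ℝ) / 2 ^ 2 ^ m ≤
            3 * (2 * ((2 ^ m : ℕ) : ℝ) * ((2 ^ m).choose (k1 - 1) : ℝ) / 2 ^ 2 ^ m) := by
          calc 2 * ((2 ^ m : ℕ) : ℝ) * ((2 ^ m).choose (k1 - 1 + 1) : ℝ) / 2 ^ 2 ^ m ≤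
                2 * ((2 ^ m : ℕ) : ℝ) * (3 * ((2 ^ m).choose (k1 - 1) : ℝ)) / 2 ^ 2 ^ m := by
                gcongr
            _ = _ := by ring
        linarith
      have h3 : ((m / 4 : ℕ) : ℝ) ≤ lamN (2 ^ m) (k1 - 1) := by
        have h4 : (4 : ℝ) * ((m / 4 : ℕ) : ℝ) ≤ m := by
          exact_mod_cast Nat.mul_div_le m 4
        linarith
      have h4 : Real.exp (-lamN (2 ^ m) (k1 - 1)) ≤ 1 / X := by
        rw [Real.exp_neg, ← one_div]
        apply one_div_le_one_div_of_le hXr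
        rw [hXe]
        push_cast
        calc (2 : ℝ) ^ (m / 4) ≤ Real.exp 1 ^ (m / 4) := by
              apply pow_le_pow_left₀ (by norm_num)
              have := Real.exp_one_gt_d9
              linarith
          _ = Real.exp ((m / 4 : ℕ) : ℝ) := by rw [← Real.exp_nat_mul, mul_one]
          _ ≤ _ := Real.exp_le_exp.2 h3
      refine h4.trans ?_
      rw [hB]
      have : (1 : ℝ) ≤ (m : ℝ) ^ 3 := one_le_pow₀ hm1
      gcongr
  -- conclusion
  rcases le_or_gt (i + R) M with hiR | hiR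
  · constructor
    · exact (hgoodsmall i hiR).trans (by linarith)
    · have h1 := hsmall i hiR
      have h2 := le_pq hM i hi
      have h3 := pq_le_one hM i hi.le
      have h4 := hexpbd i
      have h5 := bad_tail hM hM0 R i hiR
      rw [← hN] at h5
      have h6 : N * (2 * N * Real.exp (-((R : ℝ) ^ 2 / N))) ≤ 2 * B := by
        calc N * (2 * N * Real.exp (-((R : ℝ) ^ 2 / N))) ≤ N * (2 * N * (1 / N ^ 3)) := by gcongr
          _ = 2 * (1 / N) := by field_simp
          _ ≤ 2 * B := by gcongr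
      rw [abs_le]
      constructor <;> linarith [h4.1, h4.2]
  · rcases le_or_gt (lamN (2 ^ m) i) m with hlam | hlam
    · have h1 := hode i hiR.le hi hlam
      have h2 := (hloc i hi hiR.le hlam).1
      refine ⟨h1.trans (by linarith), ?_⟩
      have h3 := abs_add_le (pq m i - good (nz m) chi M i)
        (good (nz m) chi M i - Real.exp (-lamN (2 ^ m) i))
      rw [sub_add_sub_cancel] at h3
      linarith
    · obtain ⟨k, hk1, hk2, hk3, hk4⟩ := hfar i hi hlam
      have h1 := hode k hk2 (by omega) hk3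
      have h2 := (hloc k (by omega) hk2 hk3).2
      have h3 := good_anti hM hk1
      have h4 := leaders_anti hM k i hk1 hi.le
      have h5 := pq_le_leaders hM i hi.le
      have h6 : Real.exp (-lamN (2 ^ m) i) ≤ Real.exp (-lamN (2 ^ m) k) :=
        Real.exp_le_exp.2 (neg_le_neg (lamN_monotone _ hk1))
      have h7 := Real.exp_pos (-lamN (2 ^ m) i)
      have h8 := good_nonneg (m := m) (M := M) i
      have h9 := pq_nonneg m i
      rw [abs_le] at h1
      constructor
      · rw [abs_le]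
        constructor <;> linarith [h1.1, h1.2]
      · rw [abs_le]
        constructor <;> linarith [h1.1, h1.2]

/-- The asymptotic law with explicit constant. -/
theorem law (m : ℕ) (hm : 1 ≤ m) (i : ℕ) :
    |(leaderCount m i : ℝ) - Real.exp (-lamN (2 ^ m) i) * (2 ^ m).choose i| ≤
      100000 * (m : ℝ) ^ 3 / 2 ^ (m / 4) * (2 ^ m).choose i ∧
    |(∑ j ∈ range (i + 1), (leaderCount m j : ℝ)) -
        (1 - Real.exp (-lamN (2 ^ m) i)) * 2 ^ (2 ^ m - m - 1)| ≤
      100000 * (m : ℝ) ^ 3 / 2 ^ (m / 4) * 2 ^ (2 ^ m - m - 1) := by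
  obtain ⟨M, hM⟩ : ∃ M, 2 ^ m = 2 * M := by
    obtain ⟨k, rfl⟩ := Nat.exists_eq_add_of_le hm
    exact ⟨2 ^ k, by rw [pow_add, pow_one]⟩
  set X : ℕ := 2 ^ (m / 4) with hX
  set B : ℝ := (m : ℝ) ^ 3 / X with hB
  have hXr : (X : ℝ) = 2 ^ (m / 4) := by rw [hX]; push_cast; rfl
  have hXpos : (0 : ℝ) < X := by rw [hXr]; positivity
  have hBe : 100000 * (m : ℝ) ^ 3 / 2 ^ (m / 4) = 100000 * B := by
    rw [hB, hXr]; ring
  rw [hBe]
  have hmain : (i < M → |pq m i - Real.exp (-lamN (2 ^ m) i)| ≤ 100000 * B) ∧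
      |good (nz m) chi M i - Real.exp (-lamN (2 ^ m) i)| ≤ 100000 * B := by
    have he1 : Real.exp (-lamN (2 ^ m) i) ≤ 1 :=
      Real.exp_le_one_iff.2 (by linarith [lamN_nonneg (2 ^ m) i])
    have he0 := Real.exp_pos (-lamN (2 ^ m) i)
    have hg0 := good_nonneg (m := m) (M := M) i
    have hg1 := good_le_one hM i
    rcases le_or_gt (X : ℝ) (100000 * m ^ 3) with hbig | hbig
    · have h1 : 1 ≤ 100000 * B := by
        rw [hB, ← mul_div_assoc, le_div_iff₀ hXpos]
        linarith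
      constructor
      · intro hi
        have h2 := pq_nonneg m i
        have h3 := pq_le_one hM i hi.le
        rw [abs_le]
        constructor <;> linarith
      · rw [abs_le]
        constructor <;> linarith
    · have hbig' : 100000 * m ^ 3 < X := by exact_mod_cast hbig
      constructor
      · intro hi
        exact (core m X M (4 * m * X ^ 2) (8 * m * X) (2 ^ m / (16 * (4 * m * X ^ 2))) hm hbig' hX
          hM rfl rfl rfl i hi).2
      · rcases lt_or_ge i M with hi | hi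
        · exact (core m X M (4 * m * X ^ 2) (8 * m * X) (2 ^ m / (16 * (4 * m * X ^ 2))) hm hbig'
            hX hM rfl rfl rfl i hi).1
        · rw [good_zero i hi, zero_sub, abs_neg, abs_of_pos he0]
          have h1 := lamN_large hM i hi
          have h2 : Real.exp (-lamN (2 ^ m) i) ≤ 1 / 2 ^ m := by
            rw [Real.exp_neg, ← one_div]
            apply one_div_le_one_div_of_le (by positivity)
            have := Real.add_one_le_exp (lamN (2 ^ m) i)
            linarith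
          have h3 : 1 / (2 : ℝ) ^ m ≤ B := by
            rw [hB, hXr, div_le_div_iff₀ (by positivity) (by positivity)]
            have h4 : (1 : ℝ) ≤ (m : ℝ) ^ 3 := one_le_pow₀ (by exact_mod_cast hm)
            have h5 : (2 : ℝ) ^ (m / 4) ≤ 2 ^ m :=
              pow_le_pow_right₀ (by norm_num) (Nat.div_le_self m 4)
            have h6 : (0 : ℝ) < 2 ^ m := by positivity
            nlinarith
          have h4 : 0 ≤ B := by positivity
          linarith
  have hBnn : 0 ≤ 100000 * B := by positivity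
  constructor
  · rcases lt_or_ge i M with hi | hi
    · have h1 := hmain.1 hi
      have h2 := choose_pos_real hM i hi.le
      have h3 : (leaderCount m i : ℝ) = pq m i * (2 ^ m).choose i := by
        rw [pq, div_mul_cancel₀ _ h2.ne']
      rw [h3, ← sub_mul, abs_mul, abs_of_pos h2]
      gcongr
    · rw [count_zero hm hM i hi, Nat.cast_zero, zero_sub, abs_neg, abs_mul,
        abs_of_pos (Real.exp_pos _), abs_of_nonneg (by positivity)]
      have h1 := hmain.2
      rw [good_zero i hi, zero_sub, abs_neg, abs_of_pos (Real.exp_pos _)] at h1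
      gcongr
  · have h1 := cumulative hM i
    have h2 : ((2 : ℝ) ^ (2 ^ m)) = 2 ^ (2 ^ m - m - 1) * 2 ^ (m + 1) := by
      rw [← pow_add]
      congr 1
      have : m < 2 ^ m := Nat.lt_two_pow_self
      omega
    have h3 : (∑ j ∈ range (i + 1), (leaderCount m j : ℝ)) =
        2 ^ (2 ^ m - m - 1) * (1 - good (nz m) chi M i) := by
      have h4 : (0 : ℝ) < 2 ^ (m + 1) := by positivity
      rw [h2] at h1
      have h5 : (∑ j ∈ range (i + 1), (leaderCount m j : ℝ)) * 2 ^ (m + 1) =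
        (2 ^ (2 ^ m - m - 1) * (1 - good (nz m) chi M i)) * 2 ^ (m + 1) := by
        rw [h1]; ring
      exact mul_right_cancel₀ h4.ne' h5
    rw [h3]
    have h4 : (2 : ℝ) ^ (2 ^ m - m - 1) * (1 - good (nz m) chi M i) -
        (1 - Real.exp (-lamN (2 ^ m) i)) * 2 ^ (2 ^ m - m - 1) =
        -((good (nz m) chi M i - Real.exp (-lamN (2 ^ m) i)) * 2 ^ (2 ^ m - m - 1)) := by ring
    rw [h4, abs_neg, abs_mul, abs_of_pos (by positivity : (0 : ℝ) < 2 ^ (2 ^ m - m - 1))]
    have h5 := hmain.2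
    gcongr

end Pool.Agent.RMC68
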