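import Pool.Agent.RMC68.Far

/-!
# The number of cosets of large weight
-/

set_option autoImplicit false

open Finset

namespace Pool.Agent.RMC68

open Pool.Agent.RMC

variable {m M : ℕ}

lemma heavy_eq (hM : 2 ^ m = 2 * M) (i : ℕ) :
    (Nat.card {q : (Vec m → ZMod 2) ⧸ reedMuller m // i < leaderWeight q} : ℝ) =
      2 ^ (2 ^ m - m - 1) * good (nz m) chi M i := by
  classical
  have h1 := card_fun_eq m (fun q => i < leaderWeight q)
  have h2 : Nat.card {g : Vec m → ZMod 2 // i < leaderWeight ((reedMuller m).mkQ g)} =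
      #{A : Finset (Vec m) | ¬ bad (nz m) chi ((M : ℤ) - i) A ∧
        |(#A : ℤ) - M| < (M : ℤ) - i} := by
    rw [Nat.card_eq_fintype_card, Fintype.card_subtype]
    refine (Finset.card_equiv (indE m) fun A => ?_).symm
    rw [mem_filter, mem_filter]
    simp only [mem_univ, true_and]
    have h3 := far_iff hM i A
    have h4 : i < leaderWeight ((reedMuller m).mkQ (ind A)) ↔
        ¬ leaderWeight ((reedMuller m).mkQ (ind A)) ≤ i := not_le.symm
    rw [h3, not_not] at h4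
    exact h4.symm
  rw [h2] at h1
  have h3 : ((2 : ℝ) ^ (2 ^ m)) = 2 ^ (2 ^ m - m - 1) * 2 ^ (m + 1) := by
    rw [← pow_add]
    congr 1
    have : m < 2 ^ m := Nat.lt_two_pow_self
    omega
  rw [good, pr_eq_card, card_vec, h3, h1]
  push_cast
  have h4 : (2 : ℝ) ^ (m + 1) ≠ 0 := by positivity
  have h5 : (2 : ℝ) ^ (2 ^ m - m - 1) ≠ 0 := by positivity
  field_simp

/-- The law with relative error, for the numbers `α_i` and for the numbers of cosets of weight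
larger than `i`. -/
theorem law_rel (m : ℕ) (hm : 1 ≤ m) (i : ℕ)
    (h : 2000000 * (m : ℝ) ^ 2 * (1 + lamN (2 ^ m) i) ≤ 2 ^ (m / 4)) :
    (∃ θ : ℝ, |θ| ≤ 2000000 * (m : ℝ) ^ 2 * (1 + lamN (2 ^ m) i) ^ 2 / 2 ^ (m / 4) ∧
      (leaderCount m i : ℝ) = (2 ^ m).choose i * Real.exp (-lamN (2 ^ m) i + θ)) ∧
    (∃ θ : ℝ, |θ| ≤ 2000000 * (m : ℝ) ^ 2 * (1 + lamN (2 ^ m) i) ^ 2 / 2 ^ (m / 4) ∧
      (Nat.card {q : (Vec m → ZMod 2) ⧸ reedMuller m // i < leaderWeight q} : ℝ) =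
        2 ^ (2 ^ m - m - 1) * Real.exp (-lamN (2 ^ m) i + θ)) := by
  obtain ⟨M, hM⟩ : ∃ M, 2 ^ m = 2 * M := by
    obtain ⟨k, rfl⟩ := Nat.exists_eq_add_of_le hm
    exact ⟨2 ^ k, by rw [pow_add, pow_one]⟩
  set X : ℕ := 2 ^ (m / 4) with hX
  have hXr : ((2 : ℝ) ^ (m / 4)) = X := by rw [hX]; push_cast; rfl
  rw [hXr] at h ⊢
  obtain ⟨h0, h1, h2, h3, h4⟩ := far m X M (4 * m * X ^ 2) (16 * m * X + 1)
    (2 ^ m / (16 * (4 * m * X ^ 2))) hm hX hM rfl rfl rfl i h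
  constructor
  · refine ⟨Real.log (pq' m i) + lamN (2 ^ m) i, h4, ?_⟩
    have h5 : -lamN (2 ^ m) i + (Real.log (pq' m i) + lamN (2 ^ m) i) = Real.log (pq' m i) := by
      ring
    rw [h5, Real.exp_log h2, pq', mul_div_cancel₀ _ (choose_pos_real' hM i h0.le).ne']
  · refine ⟨Real.log (good (nz m) chi M i) + lamN (2 ^ m) i, h3, ?_⟩
    have h5 : -lamN (2 ^ m) i + (Real.log (good (nz m) chi M i) + lamN (2 ^ m) i) =
      Real.log (good (nz m) chi M i) := by ring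
    rw [h5, Real.exp_log h1, heavy_eq hM]

end Pool.Agent.RMC68
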