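import Pool.Agent.RMC68.Couple

/-!
# Level `i` against all levels
-/

set_option autoImplicit false

open Finset

namespace Pool.Agent.RMC68

variable {α : Type*} [Fintype α] [DecidableEq α]

open Classical in
/-- proportion of the subsets with property `p` -/
noncomputable def pr (p : Finset α → Prop) : ℝ :=
  (#{A : Finset α | p A} : ℝ) / 2 ^ Fintype.card α

omit [DecidableEq α] in
lemma pr_eq_card (p : Finset α → Prop) [DecidablePred p] :
    pr p = (#{A : Finset α | p A} : ℝ) / 2 ^ Fintype.card α := by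
  rw [pr]
  congr

omit [DecidableEq α] in
lemma prk_eq_card (k : ℕ) (p : Finset α → Prop) [DecidablePred p] :
    prk k p = (#{S ∈ powersetCard k (univ : Finset α) | p S} : ℝ) /
      (Fintype.card α).choose k := by
  rw [prk]
  congr

omit [DecidableEq α] in
lemma pr_nonneg (p : Finset α → Prop) : 0 ≤ pr p := by
  rw [pr]; positivity

omit [DecidableEq α] in
lemma pr_mono {p r : Finset α → Prop} (h : ∀ S, p S → r S) : pr p ≤ pr r := by
  classical
  rw [pr, pr]
  gcongr with S hS
  exact h S

omit [DecidableEq α] in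
lemma pr_exists {ι : Type*} (s : Finset ι) (q : ι → Finset α → Prop) :
    pr (fun S => ∃ a ∈ s, q a S) ≤ ∑ a ∈ s, pr (q a) := by
  classical
  simp_rw [pr]
  rw [← Finset.sum_div]
  gcongr
  have : (univ.filter fun S : Finset α => ∃ a ∈ s, q a S) =
      s.biUnion fun a => univ.filter fun S => q a S := by
    ext S; simp
  rw [this]
  exact_mod_cast Finset.card_biUnion_le

/-- weight of the level `j` -/
noncomputable def lw (N j : ℕ) : ℝ := (N.choose j : ℝ) / 2 ^ N

lemma lw_nonneg (N j : ℕ) : 0 ≤ lw N j := by rw [lw]; positivity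

lemma sum_lw (N : ℕ) : ∑ j ∈ range (N + 1), lw N j = 1 := by
  simp_rw [lw]
  rw [← Finset.sum_div, div_eq_one_iff_eq (by positivity)]
  have := Nat.sum_range_choose N
  exact_mod_cast this

omit [DecidableEq α] in
open Classical in
/-- decomposition into levels -/
lemma pr_eq_sum (p : Finset α → Prop) :
    pr p = ∑ j ∈ range (Fintype.card α + 1), lw (Fintype.card α) j * prk j p := by
  rw [pr]
  have h1 : #{A : Finset α | p A} = ∑ j ∈ range (Fintype.card α + 1),
      #{S ∈ powersetCard j (univ : Finset α) | p S} := by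
    rw [Finset.card_eq_sum_card_fiberwise (f := fun A : Finset α => #A)
      (t := range (Fintype.card α + 1))]
    · refine Finset.sum_congr rfl fun j _ => ?_
      congr 1
      ext S
      simp only [mem_filter, mem_univ, true_and, mem_powersetCard, subset_univ]
      tauto
    · intro A _
      rw [Finset.mem_coe, mem_range]
      exact Nat.lt_succ_of_le (Finset.card_le_univ A)
  rw [h1]
  push_cast
  rw [Finset.sum_div]
  refine Finset.sum_congr rfl fun j hj => ?_
  have h2 : ((Fintype.card α).choose j : ℝ) ≠ 0 := by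
    have := Nat.choose_pos (Nat.lt_succ_iff.1 (mem_range.1 hj))
    exact_mod_cast this.ne'
  rw [lw, prk]
  field_simp

omit [DecidableEq α] in
lemma prk_not (k : ℕ) (hk : k ≤ Fintype.card α) (p : Finset α → Prop) :
    prk k (fun A => ¬ p A) = 1 - prk k p := by
  classical
  have h2 : ((Fintype.card α).choose k : ℝ) ≠ 0 := by
    have := Nat.choose_pos hk
    exact_mod_cast this.ne'
  rw [prk_eq_card, prk_eq_card, eq_sub_iff_add_eq, ← add_div, div_eq_one_iff_eq h2]
  have h3 := Finset.card_filter_add_card_filter_not (s := powersetCard k (univ : Finset α))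
    (p := p)
  rw [card_powersetCard, Finset.card_univ] at h3
  rw [← h3]
  push_cast
  rw [add_comm]

open Classical in
/-- a balanced sign sum over a uniform subset is distributed as `|B| - M` -/
lemma balanced_count (χ : α → ℤ) (hχ : ∀ x, χ x = 1 ∨ χ x = -1) (hsum : ∑ x, χ x = 0)
    (M : ℕ) (hM : Fintype.card α = 2 * M) (P : ℤ → Prop) :
    #{B : Finset α | P (∑ x ∈ B, χ x)} = #{B : Finset α | P ((#B : ℤ) - M)} := by
  set H : Finset α := {x | χ x = -1} with hH
  have hval : ∀ D : Finset α, (∑ x ∈ D, χ x) = (#D : ℤ) - 2 * #(D ∩ H) := by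
    intro D
    have h1 : ∀ x ∈ D, χ x = 1 - 2 * (if x ∈ H then 1 else 0) := by
      intro x _
      rcases hχ x with h | h
      · rw [if_neg (by rw [hH, mem_filter]; rintro ⟨-, h'⟩; rw [h] at h'; norm_num at h'), h]
        norm_num
      · rw [if_pos (by rw [hH, mem_filter]; exact ⟨mem_univ _, h⟩), h]; norm_num
    rw [Finset.sum_congr rfl h1, Finset.sum_sub_distrib, ← Finset.mul_sum, Finset.sum_boole,
      Finset.filter_mem_eq_inter]
    simp
  have hHc : #H = M := by
    have := hval univ
    rw [hsum, Finset.univ_inter, Finset.card_univ] at this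
    omega
  have hsd : ∀ B : Finset α, (#(symmDiff B H) : ℤ) = #B + #H - 2 * #(B ∩ H) := by
    intro B
    have h1 : #(symmDiff B H) = #(B \ H) + #(H \ B) := by
      rw [symmDiff_def]
      exact Finset.card_union_of_disjoint disjoint_sdiff_sdiff
    have h2 := Finset.card_inter_add_card_sdiff B H
    have h3 := Finset.card_inter_add_card_sdiff H B
    rw [Finset.inter_comm H B] at h3
    omega
  have hinv : Function.Involutive fun B : Finset α => symmDiff B H := by
    intro B
    simp only [symmDiff_symmDiff_cancel_right]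
  refine Finset.card_equiv (hinv.toPerm _) fun B => ?_
  simp only [mem_filter, mem_univ, true_and, Function.Involutive.coe_toPerm]
  rw [hsd, hval, hHc]
  have : (#B : ℤ) - 2 * #(B ∩ H) = #B + M - 2 * #(B ∩ H) - M := by ring
  rw [this]

omit [DecidableEq α] in
/-- number of subsets with size in a given set -/
lemma card_size_mem (I : Finset ℕ) :
    #{B : Finset α | #B ∈ I} = ∑ l ∈ I, (Fintype.card α).choose l := by
  classical
  rw [Finset.card_eq_sum_card_fiberwise (f := fun A : Finset α => #A) (t := I)]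
  · refine Finset.sum_congr rfl fun l hl => ?_
    rw [← Finset.card_univ, ← card_powersetCard]
    congr 1
    ext S
    simp only [mem_filter, mem_univ, true_and, mem_powersetCard, subset_univ]
    constructor
    · exact fun h => h.2
    · intro h; exact ⟨by rw [h]; exact hl, h⟩
  · intro B hB
    rw [Finset.mem_coe, mem_filter] at hB
    exact hB.2

open Classical in
/-- subsets whose size, or whose complement's size, lies in `I` -/
lemma card_size_le (p : Finset α → Prop) (I : Finset ℕ)
    (h : ∀ B : Finset α, p B → #B ∈ I ∨ #(Bᶜ) ∈ I) :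
    #{B : Finset α | p B} ≤ 2 * ∑ l ∈ I, (Fintype.card α).choose l := by
  have h1 : #{B : Finset α | p B} ≤ #{B : Finset α | #B ∈ I} + #{B : Finset α | #(Bᶜ) ∈ I} := by
    refine le_trans (Finset.card_le_card ?_) (Finset.card_union_le _ _)
    intro B hB
    rw [mem_filter] at hB
    rw [mem_union, mem_filter, mem_filter]
    rcases h B hB.2 with h2 | h2
    · exact Or.inl ⟨mem_univ _, h2⟩
    · exact Or.inr ⟨mem_univ _, h2⟩
  have h2 : #{B : Finset α | #(Bᶜ) ∈ I} = #{B : Finset α | #B ∈ I} := by
    have hinv : Function.Involutive fun B : Finset α => Bᶜ := fun B => compl_compl B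
    refine Finset.card_equiv (hinv.toPerm _) fun B => ?_
    simp
  rw [h2, card_size_mem] at h1
  omega

/-- the mean number of far functions -/
noncomputable def lamN (N i : ℕ) : ℝ := 2 * N * (∑ l ∈ range (i + 1), (N.choose l : ℝ)) / 2 ^ N

/-- the increment of `lamN` in a window -/
noncomputable def winN (N i δ : ℕ) : ℝ :=
  2 * N * (∑ l ∈ Icc (i + 1 - δ) (i + δ), (N.choose l : ℝ)) / 2 ^ N

lemma pr_center (M i : ℕ) (hM : Fintype.card α = 2 * M) (hi : i < M) :
    pr (fun A : Finset α => (M : ℤ) - i ≤ |(#A : ℤ) - M|) ≤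
      lamN (Fintype.card α) i / Fintype.card α := by
  classical
  have h1 := card_size_le (fun A : Finset α => (M : ℤ) - i ≤ |(#A : ℤ) - M|) (range (i + 1)) ?_
  · have hN : (Fintype.card α : ℝ) ≠ 0 := by
      have : Fintype.card α ≠ 0 := by omega
      exact_mod_cast this
    have h2 : ((#{A : Finset α | (M : ℤ) - i ≤ |(#A : ℤ) - M|} : ℕ) : ℝ) ≤
        2 * (∑ l ∈ range (i + 1), ((Fintype.card α).choose l : ℝ)) := by
      refine le_trans ?_ (le_of_eq ?_) (b := ((2 * (∑ l ∈ range (i + 1),
        (Fintype.card α).choose l) : ℕ) : ℝ))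
      · exact_mod_cast h1
      · push_cast; rfl
    rw [pr_eq_card, lamN, div_div, div_le_div_iff₀ (by positivity) (by positivity)]
    calc _ ≤ (2 * (∑ l ∈ range (i + 1), ((Fintype.card α).choose l : ℝ))) *
          (2 ^ Fintype.card α * Fintype.card α) := by gcongr
      _ = _ := by ring
  · intro A hA
    have hc : #(Aᶜ) = 2 * M - #A := by rw [Finset.card_compl, hM]
    have hle : #A ≤ 2 * M := by rw [← hM]; exact Finset.card_le_univ A
    rw [mem_range, mem_range, hc]
    rcases le_abs.1 hA with h | h <;> omega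

lemma pr_win (χ : α → ℤ) (hχ : ∀ x, χ x = 1 ∨ χ x = -1) (hsum : ∑ x, χ x = 0)
    (M i δ : ℕ) (hM : Fintype.card α = 2 * M) :
    Fintype.card α * pr (fun B : Finset α => (M : ℤ) - i - δ ≤ |∑ x ∈ B, χ x| ∧
      |∑ x ∈ B, χ x| < (M : ℤ) - i + δ) ≤ winN (Fintype.card α) i δ := by
  classical
  rw [pr, balanced_count χ hχ hsum M hM
    (fun t => (M : ℤ) - i - δ ≤ |t| ∧ |t| < (M : ℤ) - i + δ)]
  have h1 := card_size_le (fun B : Finset α => (M : ℤ) - i - δ ≤ |(#B : ℤ) - M| ∧
    |(#B : ℤ) - M| < (M : ℤ) - i + δ) (Icc (i + 1 - δ) (i + δ)) ?_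
  · have h2 : ((#{B : Finset α | (M : ℤ) - i - δ ≤ |(#B : ℤ) - M| ∧
        |(#B : ℤ) - M| < (M : ℤ) - i + δ} : ℕ) : ℝ) ≤
        2 * (∑ l ∈ Icc (i + 1 - δ) (i + δ), ((Fintype.card α).choose l : ℝ)) := by
      refine le_trans ?_ (le_of_eq ?_) (b := ((2 * (∑ l ∈ Icc (i + 1 - δ) (i + δ),
        (Fintype.card α).choose l) : ℕ) : ℝ))
      · exact_mod_cast h1
      · push_cast; rfl
    rw [winN, ← mul_div_assoc]
    apply div_le_div_of_nonneg_right _ (by positivity)
    calc _ ≤ (Fintype.card α : ℝ) * (2 * (∑ l ∈ Icc (i + 1 - δ) (i + δ),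
          ((Fintype.card α).choose l : ℝ))) := by
          apply mul_le_mul_of_nonneg_left _ (by positivity)
          refine le_trans (le_of_eq ?_) h2
          congr
      _ = _ := by ring
  · intro B hB
    have hc : #(Bᶜ) = 2 * M - #B := by rw [Finset.card_compl, hM]
    have hle : #B ≤ 2 * M := by rw [← hM]; exact Finset.card_le_univ B
    rw [mem_Icc, mem_Icc, hc]
    obtain ⟨hB1, hB2⟩ := hB
    rw [abs_lt] at hB2
    rcases le_abs.1 hB1 with h | h
    · rcases le_total (#B) M with h' | h'
      · left; omega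
      · right; omega
    · rcases le_total (#B) M with h' | h'
      · left; omega
      · right; omega

lemma pr_far (M R : ℕ) (hM : Fintype.card α = 2 * M) (hM0 : 0 < M) :
    pr (fun A : Finset α => (R : ℤ) ≤ |(#A : ℤ) - M|) ≤
      2 * Real.exp (-(2 * (R : ℝ) ^ 2 / Fintype.card α)) := by
  classical
  have hN : (0 : ℝ) < Fintype.card α := by
    have : 0 < Fintype.card α := by omega
    exact_mod_cast this
  have h1 := tail_all (univ : Finset α) (Fintype.card α) (2 * R) (by rw [Finset.card_univ])
    hN (by positivity)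
  rw [pr_eq_card, div_le_iff₀ (by positivity)]
  have h2 : #{A : Finset α | (R : ℤ) ≤ |(#A : ℤ) - M|} ≤
      #{H : Finset α | (2 * (R : ℝ)) ≤ |2 * (#(univ ∩ H) : ℝ) - #(univ : Finset α)|} := by
    apply Finset.card_le_card
    intro A hA
    rw [mem_filter] at hA ⊢
    refine ⟨mem_univ _, ?_⟩
    rw [Finset.univ_inter, Finset.card_univ, hM]
    have h3 : ((R : ℤ) : ℝ) ≤ ((|(#A : ℤ) - M| : ℤ) : ℝ) := by exact_mod_cast hA.2
    push_cast at h3 ⊢
    have h4 : (2 : ℝ) * #A - 2 * M = 2 * (#A - M) := by ring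
    rw [h4, abs_mul, abs_of_pos (by norm_num : (0 : ℝ) < 2)]
    linarith
  have h3 : ((#{A : Finset α | (R : ℤ) ≤ |(#A : ℤ) - M|} : ℕ) : ℝ) ≤
      ((#{H : Finset α | (2 * (R : ℝ)) ≤ |2 * (#(univ ∩ H) : ℝ) - #(univ : Finset α)|} : ℕ) : ℝ) := by
    exact_mod_cast h2
  have h5 : ((#{A : Finset α | (R : ℤ) ≤ |(#A : ℤ) - M|} : ℕ) : ℝ) ≤
      2 * 2 ^ Fintype.card α *
        Real.exp (-((2 * (R : ℝ)) ^ 2 / (2 * (Fintype.card α : ℝ)))) := by
    refine h3.trans ?_
    convert h1
  refine h5.trans (le_of_eq ?_)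
  have h4 : (2 * (R : ℝ)) ^ 2 / (2 * (Fintype.card α : ℝ)) =
      2 * (R : ℝ) ^ 2 / Fintype.card α := by
    field_simp
  rw [h4]
  ring

variable {ι : Type*} (s : Finset ι) (χ : ι → α → ℤ)

/-- the proportion of sets all of whose sums are small (including the size) -/
noncomputable def good (M i : ℕ) : ℝ :=
  pr (fun A : Finset α => ¬ bad s χ ((M : ℤ) - i) A ∧ |(#A : ℤ) - M| < (M : ℤ) - i)

/-- The error term. -/
noncomputable def err (N R δ : ℕ) : ℝ := N * (2 * N * Real.exp (-((δ : ℝ) ^ 2 / (2 * (2 * R)))))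

theorem level_bound (hχ : ∀ a ∈ s, ∀ x, χ a x = 1 ∨ χ a x = -1)
    (hsum : ∀ a ∈ s, ∑ x, χ a x = 0) (M : ℕ) (hM : Fintype.card α = 2 * M)
    (hs : #s ≤ Fintype.card α) (i R δ : ℕ) (hi : i < M) (hR : M ≤ i + R) (hδ : 0 < δ) :
    |1 - prk i (bad s χ ((M : ℤ) - i)) - good s χ M i| ≤
      err (Fintype.card α) R δ + winN (Fintype.card α) i δ +
        lamN (Fintype.card α) i / Fintype.card α ∧
    prk i (tie s χ ((M : ℤ) - i)) ≤
      err (Fintype.card α) R δ + winN (Fintype.card α) i δ +
        2 * Real.exp (-(2 * (R : ℝ) ^ 2 / Fintype.card α)) := by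
  classical
  set N := Fintype.card α with hN
  set k : ℤ := (M : ℤ) - i with hk
  have hN0 : 0 < N := by omega
  have hR0 : 0 < R := by omega
  have hcouple : ∀ j, j ≤ N → |(j : ℤ) - M| ≤ R →
      |prk i (bad s χ k) - prk j (bad s χ k)| ≤ err N R δ + ∑ a ∈ s, prk j (win χ k δ a) ∧
      prk i (tie s χ k) ≤ err N R δ + ∑ a ∈ s, prk j (win χ k δ a) := by
    intro j hj hjR
    have h1 := couple s χ hχ hsum (by rw [← hN]; exact hN0) i j (by rw [← hN]; omega)
      (by rw [← hN]; exact hj) (2 * R) (by positivity) (by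
        have h2 : |(i : ℤ) - j| ≤ 2 * R := by
          rw [abs_le] at *
          omega
        exact_mod_cast h2) k δ hδ
    have h3 : (#s : ℝ) * (2 * (Fintype.card α : ℝ) *
        Real.exp (-((δ : ℝ) ^ 2 / (2 * (2 * (R : ℝ)))))) ≤ err N R δ := by
      rw [err, ← hN]
      gcongr
    exact ⟨h1.1.trans (by linarith), h1.2.trans (by linarith)⟩
  have hwinsum : ∑ j ∈ range (N + 1), lw N j * ∑ a ∈ s, prk j (win χ k δ a) ≤ winN N i δ := by
    have h1 : ∑ j ∈ range (N + 1), lw N j * ∑ a ∈ s, prk j (win χ k δ a) =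
        ∑ a ∈ s, pr (win χ k δ a) := by
      simp_rw [pr_eq_sum, Finset.mul_sum]
      rw [Finset.sum_comm]
    rw [h1]
    have h2 : ∀ a ∈ s, pr (win χ k δ a) ≤ winN N i δ / N := by
      intro a ha
      have h3 := pr_win (χ a) (hχ a ha) (hsum a ha) M i δ hM
      rw [le_div_iff₀ (by exact_mod_cast hN0), mul_comm]
      exact h3
    refine (Finset.sum_le_sum h2).trans ?_
    rw [Finset.sum_const, nsmul_eq_mul]
    have h4 : (0 : ℝ) ≤ winN N i δ / N := by rw [winN]; positivity
    have h5 : (#s : ℝ) ≤ N := by exact_mod_cast hs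
    calc (#s : ℝ) * (winN N i δ / N) ≤ N * (winN N i δ / N) := by gcongr
      _ = winN N i δ := by
        have : (N : ℝ) ≠ 0 := by exact_mod_cast hN0.ne'
        field_simp
  have herr0 : 0 ≤ err N R δ := by rw [err]; positivity
  have hone := sum_lw N
  -- center sets
  have hcen : ∑ j ∈ range (N + 1), lw N j * (if |(j : ℤ) - M| < k then 0 else 1) ≤
      lamN N i / N := by
    have h1 := pr_center (α := α) M i hM hi
    rw [pr_eq_sum] at h1
    refine le_trans (Finset.sum_le_sum fun j hj => ?_) h1
    refine mul_le_mul_of_nonneg_left ?_ (lw_nonneg _ _)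
    split_ifs with h
    · exact prk_nonneg _ _
    · have h2 : prk j (fun A : Finset α => ¬ ((M : ℤ) - i ≤ |(#A : ℤ) - M|)) ≤ 0 := by
        refine (prk_mono (r := fun _ => False) ?_).trans ?_
        · intro S hS hS'
          rw [hS] at hS'
          exact hS' (not_lt.1 h)
        · rw [prk]; simp
      rw [prk_not j (by rw [mem_range] at hj; omega)] at h2
      linarith
  constructor
  · have h1 : good s χ M i = ∑ j ∈ range (N + 1), lw N j *
        (if |(j : ℤ) - M| < k then 1 - prk j (bad s χ k) else 0) := by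
      rw [good, pr_eq_sum]
      refine Finset.sum_congr rfl fun j hj => ?_
      congr 1
      split_ifs with h
      · rw [← prk_not j (by rw [mem_range] at hj; omega)]
        apply le_antisymm
        · exact prk_mono fun S hS hS' => hS'.1
        · refine prk_mono fun S hS hS' => ⟨hS', ?_⟩
          rw [hS]; exact h
      · apply le_antisymm _ (prk_nonneg _ _)
        refine (prk_mono (r := fun _ => False) ?_).trans ?_
        · intro S hS hS'
          rw [hS] at hS'
          exact h hS'.2
        · rw [prk]; simp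
    have h2 : 1 - prk i (bad s χ k) - good s χ M i = ∑ j ∈ range (N + 1), lw N j *
        ((1 - prk i (bad s χ k)) - (if |(j : ℤ) - M| < k then 1 - prk j (bad s χ k) else 0)) := by
      have h9 : 1 - prk i (bad s χ k) =
          ∑ j ∈ range (N + 1), lw N j * (1 - prk i (bad s χ k)) := by
        rw [← Finset.sum_mul, hone, one_mul]
      rw [h1, h9, ← Finset.sum_sub_distrib]
      refine Finset.sum_congr rfl fun j _ => ?_
      rw [← Finset.sum_mul, hone, one_mul]
      ring
    rw [h2]
    refine (Finset.abs_sum_le_sum_abs _ _).trans ?_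
    have h3 : ∀ j ∈ range (N + 1), |lw N j * ((1 - prk i (bad s χ k)) -
        (if |(j : ℤ) - M| < k then 1 - prk j (bad s χ k) else 0))| ≤
        lw N j * err N R δ + lw N j * ∑ a ∈ s, prk j (win χ k δ a) +
        lw N j * (if |(j : ℤ) - M| < k then 0 else 1) := by
      intro j hj
      rw [abs_mul, abs_of_nonneg (lw_nonneg N j), ← mul_add, ← mul_add]
      refine mul_le_mul_of_nonneg_left ?_ (lw_nonneg _ _)
      have hsnn : 0 ≤ ∑ a ∈ s, prk j (win χ k δ a) :=
        Finset.sum_nonneg fun a _ => prk_nonneg _ _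
      split_ifs with h
      · have h4 := (hcouple j (by rw [mem_range] at hj; omega) (by omega)).1
        rw [abs_le] at h4 ⊢
        constructor <;> linarith [h4.1, h4.2]
      · have h5 := prk_nonneg i (bad s χ k)
        have h6 := prk_le_one i (bad s χ k)
        rw [abs_le]
        constructor <;> linarith
    refine (Finset.sum_le_sum h3).trans ?_
    rw [Finset.sum_add_distrib, Finset.sum_add_distrib, ← Finset.sum_mul, hone, one_mul]
    linarith
  · have hfar : ∑ j ∈ range (N + 1), lw N j * (if |(j : ℤ) - M| ≤ R then 0 else 1) ≤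
        2 * Real.exp (-(2 * (R : ℝ) ^ 2 / N)) := by
      have h1 := pr_far (α := α) M R hM (by omega)
      rw [pr_eq_sum] at h1
      refine le_trans (Finset.sum_le_sum fun j hj => ?_) h1
      refine mul_le_mul_of_nonneg_left ?_ (lw_nonneg _ _)
      split_ifs with h
      · exact prk_nonneg _ _
      · have h2 : prk j (fun A : Finset α => ¬ ((R : ℤ) ≤ |(#A : ℤ) - M|)) ≤ 0 := by
          refine (prk_mono (r := fun _ => False) ?_).trans ?_
          · intro S hS hS'
            rw [hS] at hS'
            exact hS' (le_of_lt (not_le.1 h))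
          · rw [prk]; simp
        rw [prk_not j (by rw [mem_range] at hj; omega)] at h2
        linarith
    have h1 : prk i (tie s χ k) = ∑ j ∈ range (N + 1), lw N j * prk i (tie s χ k) := by
      rw [← Finset.sum_mul, hone, one_mul]
    rw [h1]
    have h3 : ∀ j ∈ range (N + 1), lw N j * prk i (tie s χ k) ≤
        lw N j * err N R δ + lw N j * ∑ a ∈ s, prk j (win χ k δ a) +
        lw N j * (if |(j : ℤ) - M| ≤ R then 0 else 1) := by
      intro j hj
      rw [← mul_add, ← mul_add]
      refine mul_le_mul_of_nonneg_left ?_ (lw_nonneg _ _)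
      have hsnn : 0 ≤ ∑ a ∈ s, prk j (win χ k δ a) :=
        Finset.sum_nonneg fun a _ => prk_nonneg _ _
      split_ifs with h
      · have h4 := (hcouple j (by rw [mem_range] at hj; omega) h).2
        linarith
      · have h6 := prk_le_one i (tie s χ k)
        linarith
    refine (Finset.sum_le_sum h3).trans ?_
    rw [Finset.sum_add_distrib, Finset.sum_add_distrib, ← Finset.sum_mul, hone, one_mul]
    linarith

end Pool.Agent.RMC68
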