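import Pool.Agent.RMC68.Base

/-!
# Cosets of `R(1,m)`, `m` even, of weight one below the covering radius
-/

set_option autoImplicit false

open Finset

namespace Pool.Agent.RMC68

open Pool.Agent.RMC

variable {m : ℕ}

/-- the indicator function of a point -/
def del (c : Vec m) : Vec m → ZMod 2 := Pi.single c 1

lemma walsh_add_del (f : Vec m → ZMod 2) (c a : Vec m) :
    walsh (f + del c) a = walsh f a - 2 * sg (f c + a ⬝ᵥ c) := by
  rw [walsh, walsh, ← Finset.add_sum_erase univ _ (mem_univ c),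
    ← Finset.add_sum_erase univ (fun x => sg (f x + a ⬝ᵥ x)) (mem_univ c)]
  have h1 : ∑ x ∈ univ.erase c, sg ((f + del c) x + a ⬝ᵥ x) =
      ∑ x ∈ univ.erase c, sg (f x + a ⬝ᵥ x) := by
    refine Finset.sum_congr rfl fun x hx => ?_
    rw [Pi.add_apply, del, Pi.single_eq_of_ne (Finset.ne_of_mem_erase hx), add_zero]
  have h2 : sg ((f + del c) c + a ⬝ᵥ c) = - sg (f c + a ⬝ᵥ c) := by
    rw [Pi.add_apply, del, Pi.single_eq_same]
    have : ∀ u v : ZMod 2, sg (u + 1 + v) = - sg (u + v) := by decide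
    exact this _ _
  rw [h1, h2]; ring

lemma del_add_del (f : Vec m → ZMod 2) (c : Vec m) : f + del c + del c = f := by
  rw [add_assoc, fun_add_self, add_zero]

/-- Walsh coefficients modulo 8 -/
lemma walsh_mod (hm : 4 ≤ m) (f : Vec m → ZMod 2) (a : Vec m) :
    (8 : ℤ) ∣ walsh f a - (4 * ((a ⬝ᵥ ∑ x with f x = 1, x).val : ℤ) - 2 * hammingNorm f) := by
  have h1 : ∀ x, sg (f x + a ⬝ᵥ x) = sg (f x) + (sg (a ⬝ᵥ x) - 1) +
      4 * (if f x = 1 ∧ a ⬝ᵥ x = 1 then 1 else 0) := by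
    intro x
    have : ∀ u v : ZMod 2, sg (u + v) = sg u + (sg v - 1) +
      4 * (if u = 1 ∧ v = 1 then 1 else 0) := by decide
    exact this _ _
  have h2 : walsh f a = (2 ^ m - 2 * (hammingNorm f : ℤ)) +
      ((if a = 0 then 2 ^ m else 0) - 2 ^ m) +
      4 * (#{x : Vec m | f x = 1 ∧ a ⬝ᵥ x = 1} : ℤ) := by
    rw [walsh]
    simp_rw [h1]
    rw [Finset.sum_add_distrib, Finset.sum_add_distrib, sum_sg, Finset.sum_sub_distrib,
      sum_sg_dot', ← Finset.mul_sum, Finset.sum_boole]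
    simp
  have h8 : (8 : ℤ) ∣ 2 ^ m := by
    obtain ⟨k, rfl⟩ := Nat.exists_eq_add_of_le hm
    exact ⟨2 * 2 ^ k, by rw [pow_add]; ring⟩
  have h3 : (8 : ℤ) ∣ (2 ^ m + ((if a = 0 then 2 ^ m else 0) - 2 ^ m)) := by
    split_ifs <;> omega
  have h4 : ((a ⬝ᵥ ∑ x with f x = 1, x).val : ℤ) % 2 =
      (#{x : Vec m | f x = 1 ∧ a ⬝ᵥ x = 1} : ℤ) % 2 := by
    have h5 : a ⬝ᵥ ∑ x with f x = 1, x = ((#{x : Vec m | f x = 1 ∧ a ⬝ᵥ x = 1} : ℕ) : ZMod 2) := by
      rw [dotProduct_sum, ← Finset.filter_filter, ← Finset.sum_boole]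
      refine Finset.sum_congr rfl fun x _ => ?_
      rcases zmod2_cases (a ⬝ᵥ x) with h | h <;> rw [h] <;> decide
    rw [h5, ZMod.val_natCast]
    omega
  obtain ⟨u, hu⟩ := h3
  rw [h2]
  omega

lemma le_of_mod {s v : ℤ} (hs : (4 : ℤ) ∣ s) (h1 : (8 : ℤ) ∣ v - s) (h2 : |v| ≤ s + 4) :
    |v| ≤ s := by
  rw [abs_le] at *
  omega

/-- The analytic part: if all coefficients are `≡ s + 4` modulo 8, and those with absolute value
`s + 4` have the sign of `Y`, this is impossible. -/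
lemma key_ineq {ι : Type*} [Fintype ι] (N s : ℤ) (Y : ι → ℤ) (hN : N = s ^ 2) (hs : 0 < s)
    (hcard : (Fintype.card ι : ℤ) = N)
    (h1 : ∀ a, Y a = s + 4 ∨ |Y a| ≤ s - 4) (h2 : ∑ a, Y a = N) (h3 : ∑ a, Y a ^ 2 = N ^ 2) :
    False := by
  have h4 : ∀ a, Y a ^ 2 - 8 * Y a - (s ^ 2 - 16) ≤ 0 := by
    intro a
    rcases h1 a with h | h
    · rw [h]; nlinarith
    · rw [abs_le] at h
      nlinarith
  have h5 : ∑ a, (Y a ^ 2 - 8 * Y a - (s ^ 2 - 16)) ≤ 0 := Finset.sum_nonpos fun a _ => h4 a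
  rw [Finset.sum_sub_distrib, Finset.sum_sub_distrib, ← Finset.mul_sum, h2, h3, Finset.sum_const,
    nsmul_eq_mul, Finset.card_univ, hcard] at h5
  have h6 : N ^ 2 - 8 * N - N * (s ^ 2 - 16) = 8 * N := by rw [hN]; ring
  have h7 : 0 < N := by rw [hN]; positivity
  omega

variable {h : ℕ}

lemma pow_sq (h : ℕ) : (2 : ℤ) ^ (2 * h) = (2 ^ h) ^ 2 := by
  rw [← pow_mul, mul_comm]

/-- flat spectrum from the upper bound -/
lemma flat_of_le (f : Vec (2 * h) → ZMod 2) (hf : ∀ a, |walsh f a| ≤ 2 ^ h) (a : Vec (2 * h)) :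
    |walsh f a| = 2 ^ h := by
  by_contra hne
  have hlt : |walsh f a| < 2 ^ h := lt_of_le_of_ne (hf a) hne
  have h1 : ∑ a : Vec (2 * h), walsh f a ^ 2 < ∑ a : Vec (2 * h), (2 : ℤ) ^ (2 * h) := by
    refine Finset.sum_lt_sum (fun b _ => ?_) ⟨a, mem_univ _, ?_⟩
    · rw [pow_sq, ← sq_abs]
      exact pow_le_pow_left₀ (abs_nonneg _) (hf b) 2
    · rw [pow_sq, ← sq_abs]
      exact pow_lt_pow_left₀ hlt (abs_nonneg _) two_ne_zero
  rw [parseval, Finset.sum_const, Finset.card_univ, nsmul_eq_mul, card_vec] at h1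
  push_cast at h1
  rw [pow_two] at h1
  exact lt_irrefl _ h1

/-- The main point: a coset whose Walsh coefficients are at most `2^h + 2`, of odd weight, becomes
bent after changing one value. -/
lemma exists_bent (hh : 2 ≤ h) (f : Vec (2 * h) → ZMod 2) (hodd : Odd (hammingNorm f))
    (hf : ∀ a, |walsh f a| ≤ 2 ^ h + 2) :
    ∃ c, ∀ a, |walsh (f + del c) a| ≤ 2 ^ h := by
  set c : Vec (2 * h) := ∑ x with f x = 1, x with hc
  set s : ℤ := 2 ^ h with hs
  have hs4 : (4 : ℤ) ∣ s := by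
    obtain ⟨k, rfl⟩ := Nat.exists_eq_add_of_le hh
    exact ⟨2 ^ k, by rw [hs, pow_add]; norm_num⟩
  have hspos : 0 < s := by positivity
  refine ⟨c, ?_⟩
  obtain ⟨w, hw⟩ := hodd
  -- W' mod 8
  have hmod : ∀ a, (8 : ℤ) ∣ walsh (f + del c) a + 2 * (hammingNorm f : ℤ) + 2 * sg (f c) := by
    intro a
    have h1 := walsh_mod (by omega : 4 ≤ 2 * h) f a
    rw [← hc] at h1
    rw [walsh_add_del, sg_add]
    rcases zmod2_cases (a ⬝ᵥ c) with h2 | h2
    · rw [h2] at h1 ⊢
      rw [sg_zero]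
      rw [ZMod.val_zero] at h1
      obtain ⟨u, hu⟩ := h1
      exact ⟨u, by push_cast at hu; linarith⟩
    · rw [h2] at h1 ⊢
      rw [sg_one]
      have h3 : (1 : ZMod 2).val = 1 := rfl
      rw [h3] at h1
      obtain ⟨u, hu⟩ := h1
      rcases sg_cases (f c) with h4 | h4 <;> rw [h4]
      · exact ⟨u + 1, by push_cast at hu; linarith⟩
      · exact ⟨u, by push_cast at hu; linarith⟩
  have hbound : ∀ a, |walsh (f + del c) a| ≤ s + 4 := by
    intro a
    rw [walsh_add_del]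
    have h1 := hf a
    rw [abs_le] at *
    rcases sg_cases (f c + a ⬝ᵥ c) with h4 | h4 <;> rw [h4] <;> constructor <;> linarith
  have hcases : (8 : ℤ) ∣ s + 2 * (hammingNorm f : ℤ) + 2 * sg (f c) ∨
      (8 : ℤ) ∣ s + 4 + 2 * (hammingNorm f : ℤ) + 2 * sg (f c) := by
    rw [hw]
    rcases sg_cases (f c) with h4 | h4 <;> rw [h4] <;> push_cast <;> omega
  rcases hcases with h8 | h8
  · intro a
    exact le_of_mod hs4 (by have := hmod a; omega) (hbound a)
  · exfalso
    set Y : Vec (2 * h) → ℤ := fun a => - (sg (f c) * sg (a ⬝ᵥ c)) * walsh (f + del c) a with hY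
    have hYa : ∀ a, Y a ^ 2 = walsh (f + del c) a ^ 2 := by
      intro a
      rw [hY]
      have h1 := sg_mul_self (f c)
      have h2 := sg_mul_self (a ⬝ᵥ c)
      simp only
      linear_combination (walsh (f + del c) a ^ 2 * (sg (a ⬝ᵥ c)) ^ 2) * h1 +
        walsh (f + del c) a ^ 2 * h2
    refine key_ineq (2 ^ (2 * h)) s Y (pow_sq h) hspos (by rw [card_vec]; push_cast; rfl) ?_ ?_ ?_
    · intro a
      have h1 := hmod a
      have h2 := hbound a
      have h3 := hf a
      have h4 := walsh_add_del f c a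
      rw [sg_add] at h4
      have h5 : (8 : ℤ) ∣ walsh (f + del c) a - (s + 4) := by omega
      rw [hY]
      simp only
      generalize walsh (f + del c) a = v at *
      generalize walsh f a = u at *
      rw [abs_le] at *
      rcases sg_cases (f c) with h6 | h6 <;> rcases sg_cases (a ⬝ᵥ c) with h7 | h7 <;>
        rw [h6, h7] at h4 ⊢ <;> omega
    · have h1 := walsh_inv (f + del c) c
      have h2 : sg ((f + del c) c) = - sg (f c) := by
        rw [Pi.add_apply, del, Pi.single_eq_same, sg_add, sg_one]; ring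
      rw [h2] at h1
      have h3 : ∑ a, Y a = - sg (f c) * ∑ a, sg (a ⬝ᵥ c) * walsh (f + del c) a := by
        rw [hY, Finset.mul_sum]
        exact Finset.sum_congr rfl fun a _ => by ring
      rw [h3, h1]
      have h4 := sg_mul_self (f c)
      linear_combination (2 : ℤ) ^ (2 * h) * h4
    · simp_rw [hYa]
      exact parseval _

/-- covering radius for even `m = 2h` -/
def rho (h : ℕ) : ℕ := 2 ^ (2 * h - 1) - 2 ^ (h - 1)

lemma rho_spec (hh : 2 ≤ h) : (2 : ℤ) ^ (2 * h) - 2 * (rho h : ℤ) = 2 ^ h ∧ 2 ≤ rho h := by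
  obtain ⟨k, rfl⟩ := Nat.exists_eq_add_of_le hh
  have h1 : 2 * (2 + k) - 1 = 3 + 2 * k := by omega
  have h2 : 2 + k - 1 = 1 + k := by omega
  have h3 : 2 ^ (1 + k) ≤ 2 ^ (3 + 2 * k) := Nat.pow_le_pow_right (by norm_num) (by omega)
  have h4 : 2 ^ (1 + k) + 2 ≤ 2 ^ (3 + 2 * k) := by
    have h5 : 2 ^ (3 + 2 * k) = 2 ^ (1 + k) * 2 ^ (2 + k) := by rw [← pow_add]; congr 1; omega
    have h6 : 4 ≤ 2 ^ (2 + k) := by
      rw [pow_add]; have := Nat.one_le_two_pow (n := k); omega
    have h7 : 2 ≤ 2 ^ (1 + k) := by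
      rw [pow_add]; have := Nat.one_le_two_pow (n := k); omega
    rw [h5]
    nlinarith
  rw [rho, h1, h2]
  constructor
  · rw [Nat.cast_sub h3]
    push_cast
    ring
  · omega

lemma bent_iff (hh : 2 ≤ h) (f : Vec (2 * h) → ZMod 2) :
    leaderWeight ((reedMuller (2 * h)).mkQ f) = rho h ↔ ∀ a, |walsh f a| ≤ 2 ^ h := by
  rw [leaderWeight_eq_iff, (rho_spec hh).1]
  constructor
  · exact fun h => h.1
  · intro hf
    exact ⟨hf, 0, flat_of_le f hf 0⟩

lemma nearBent_iff (hh : 2 ≤ h) (f : Vec (2 * h) → ZMod 2) :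
    leaderWeight ((reedMuller (2 * h)).mkQ f) = rho h - 1 ↔
      (∀ a, |walsh f a| ≤ 2 ^ h + 2) ∧ ∃ a, |walsh f a| = 2 ^ h + 2 := by
  rw [leaderWeight_eq_iff]
  have h1 := rho_spec hh
  have h2 : (2 : ℤ) ^ (2 * h) - 2 * ((rho h - 1 : ℕ) : ℤ) = 2 ^ h + 2 := by
    rw [Nat.cast_sub (by omega)]
    push_cast
    linarith [h1.1]
  rw [h2]

lemma four_le (hh : 2 ≤ h) : (4 : ℤ) ≤ 2 ^ h := by
  obtain ⟨k, rfl⟩ := Nat.exists_eq_add_of_le hh
  rw [pow_add]
  have : (1 : ℤ) ≤ 2 ^ k := one_le_pow₀ (by norm_num)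
  linarith

lemma bent_add_del (hh : 2 ≤ h) (f : Vec (2 * h) → ZMod 2) (c : Vec (2 * h))
    (hf : leaderWeight ((reedMuller (2 * h)).mkQ f) = rho h) :
    leaderWeight ((reedMuller (2 * h)).mkQ (f + del c)) = rho h - 1 := by
  rw [bent_iff hh] at hf
  rw [nearBent_iff hh]
  have h4 := four_le hh
  have hfl := flat_of_le f hf
  have hv : ∀ a, |walsh (f + del c) a| = 2 ^ h + 2 ∨ |walsh (f + del c) a| = 2 ^ h - 2 := by
    intro a
    rw [walsh_add_del]
    have h1 := hfl a
    generalize (2 : ℤ) ^ h = s at *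
    generalize walsh f a = v at *
    rcases abs_eq (by linarith : (0 : ℤ) ≤ s) |>.1 h1 with h2 | h2 <;>
      rcases sg_cases (f c + a ⬝ᵥ c) with h3 | h3 <;> rw [h2, h3]
    · right; rw [abs_of_nonneg (by linarith)]; ring
    · left; rw [abs_of_nonneg (by linarith)]; ring
    · left; rw [abs_of_nonpos (by linarith)]; ring
    · right; rw [abs_of_nonpos (by linarith)]; ring
  constructor
  · intro a
    rcases hv a with h1 | h1 <;> rw [h1] <;> linarith
  · by_contra hcon
    push Not at hcon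
    have h5 : ∀ a, |walsh (f + del c) a| = 2 ^ h - 2 := fun a => (hv a).resolve_left (hcon a)
    have h6 := flat_of_le (f + del c) (fun a => by rw [h5 a]; linarith) 0
    rw [h5 0] at h6
    linarith

lemma odd_of_nearBent (hh : 2 ≤ h) (f : Vec (2 * h) → ZMod 2)
    (hf : ∃ a, |walsh f a| = 2 ^ h + 2) : Odd (hammingNorm f) := by
  obtain ⟨a, ha⟩ := hf
  have h1 := walsh_mod (by omega : 4 ≤ 2 * h) f a
  have h2 : (4 : ℤ) ∣ 2 ^ h := by
    obtain ⟨k, rfl⟩ := Nat.exists_eq_add_of_le hh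
    exact ⟨2 ^ k, by rw [pow_add]; norm_num⟩
  rw [Nat.odd_iff]
  have h3 : walsh f a = 2 ^ h + 2 ∨ walsh f a = -(2 ^ h + 2) :=
    (abs_eq (by positivity)).1 ha
  rcases h3 with h3 | h3 <;> rw [h3] at h1 <;> omega

/-- Theorem: for even `m ≥ 4` the cosets of weight `ρ - 1` are the cosets at distance one from the
bent cosets, each from exactly one. -/
theorem count_near (hh : 2 ≤ h) :
    leaderCount (2 * h) (rho h - 1) = 2 ^ (2 * h) * leaderCount (2 * h) (rho h) := by
  have hcard : 2 ^ (2 * h) = Nat.card (Vec (2 * h)) := by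
    rw [Nat.card_eq_fintype_card, card_vec]
  rw [leaderCount, leaderCount, hcard, ← Nat.card_prod]
  symm
  have hmap : ∀ p : Vec (2 * h) × {q : (Vec (2 * h) → ZMod 2) ⧸ reedMuller (2 * h) // leaderWeight q = rho h},
      leaderWeight (p.2.1 + (reedMuller (2 * h)).mkQ (del p.1)) = rho h - 1 := by
    rintro ⟨c, q, hq⟩
    obtain ⟨f, rfl⟩ := (reedMuller (2 * h)).mkQ_surjective q
    simp only
    rw [← map_add]
    exact bent_add_del hh f c hq
  refine Nat.card_congr (Equiv.ofBijective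
    (fun p => (⟨p.2.1 + (reedMuller (2 * h)).mkQ (del p.1), hmap p⟩ :
      {q : (Vec (2 * h) → ZMod 2) ⧸ reedMuller (2 * h) // leaderWeight q = rho h - 1})) ⟨?_, ?_⟩)
  · rintro ⟨c, q, hq⟩ ⟨c', q', hq'⟩ heq
    rw [Subtype.mk.injEq] at heq
    simp only at heq
    obtain ⟨f, rfl⟩ := (reedMuller (2 * h)).mkQ_surjective q
    obtain ⟨f', rfl⟩ := (reedMuller (2 * h)).mkQ_surjective q'
    have hc : c = c' := by
      by_contra hne
      rw [← map_add, ← map_add] at heq
      obtain ⟨a, b, hab⟩ := (mkQ_eq_iff (f' + del c') (f + del c)).1 heq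
      -- g = f + del c + del c' is in the coset of f'
      have h1 : f + del c + del c' = f' + aff a b := by
        rw [hab]
        have : f' + del c' + aff a b + del c' = f' + aff a b + (del c' + del c') := by abel
        rw [this, fun_add_self, add_zero]
      have h2 : leaderWeight ((reedMuller (2 * h)).mkQ (f + del c + del c')) = rho h := by
        rw [h1, (mkQ_eq_iff f' (f' + aff a b)).2 ⟨a, b, rfl⟩]
        exact hq'
      rw [bent_iff hh] at h2
      have hq2 := (bent_iff hh f).1 hq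
      have h3 := flat_of_le _ h2
      have h4 := flat_of_le _ hq2
      have h5 : ∀ a, walsh (f + del c + del c') a = walsh f a := by
        intro a
        have h6 := h3 a
        have h7 := h4 a
        have h8 := walsh_add_del (f + del c) c' a
        rw [walsh_add_del f c a] at h8
        have h9 := four_le hh
        generalize (2 : ℤ) ^ h = s at *
        generalize walsh (f + del c + del c') a = v at *
        generalize walsh f a = u at *
        rcases (abs_eq (by linarith : (0 : ℤ) ≤ s)).1 h6 with h6 | h6 <;>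
        rcases (abs_eq (by linarith : (0 : ℤ) ≤ s)).1 h7 with h7 | h7 <;>
        rcases sg_cases (f c + a ⬝ᵥ c) with h10 | h10 <;>
        rcases sg_cases ((f + del c) c' + a ⬝ᵥ c') with h11 | h11 <;>
        rw [h10, h11] at h8 <;> omega
      have h6 := walsh_injective h5
      have h7 : del c + del c' = 0 := by
        have : f + (del c + del c') = f + 0 := by rw [← add_assoc, h6, add_zero]
        exact add_left_cancel this
      have h8 := congrFun h7 c
      rw [Pi.add_apply, del, del, Pi.single_eq_same, Pi.single_eq_of_ne hne] at h8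
      simp at h8
    subst hc
    have : (reedMuller (2 * h)).mkQ f = (reedMuller (2 * h)).mkQ f' := add_right_cancel heq
    simp only [this]
  · rintro ⟨q, hq⟩
    obtain ⟨f, rfl⟩ := (reedMuller (2 * h)).mkQ_surjective q
    have h1 := (nearBent_iff hh f).1 hq
    obtain ⟨c, hc⟩ := exists_bent hh f (odd_of_nearBent hh f h1.2) h1.1
    refine ⟨(c, ⟨(reedMuller (2 * h)).mkQ (f + del c), (bent_iff hh _).2 hc⟩), ?_⟩
    simp only [Subtype.mk.injEq]
    rw [← map_add, del_add_del]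

end Pool.Agent.RMC68
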