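import Mathlib

/-!
# A discrete differential equation and ratios of binomial coefficients
-/

set_option autoImplicit false

open Finset

namespace Pool.Agent.RMC68

lemma ode_step (w d e : ℝ) (hd : 0 ≤ d) (u0 u1 p l0 : ℝ) (hl0 : 0 ≤ l0)
    (hstep : u0 - u1 = d * p) (hp : |p - u1| ≤ e)
    (h0 : |u0 - Real.exp (-l0)| ≤ w) (he : e + d ≤ w) :
    |u1 - Real.exp (-(l0 + d))| ≤ w := by
  have h1 : Real.exp (-(l0 + d)) = Real.exp (-l0) * Real.exp (-d) := by
    rw [← Real.exp_add]; congr 1; ring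
  set x := Real.exp (-l0) with hx
  set y := Real.exp (-d) with hy
  have hx1 : x ≤ 1 := by rw [hx]; exact Real.exp_le_one_iff.2 (by linarith)
  have hx0 : 0 < x := Real.exp_pos _
  have hy1 : 1 - d ≤ y := by
    have := Real.add_one_le_exp (-d)
    rw [hy]; linarith
  have hy2 : (1 + d) * y ≤ 1 := by
    have h2 := Real.add_one_le_exp d
    have h3 : Real.exp d * y = 1 := by rw [hy, ← Real.exp_add]; simp
    have hy0 : 0 < y := Real.exp_pos _
    nlinarith
  have hy3 : 1 - d ^ 2 ≤ (1 + d) * y := by nlinarith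
  rw [h1]
  have h4 : (1 + d) * (u1 - x * y) = (u0 - x) + x * (1 - (1 + d) * y) - d * (p - u1) := by
    have : u0 = u1 + d * p := by linarith
    rw [this]; ring
  have h5 : |(u0 - x) + x * (1 - (1 + d) * y) - d * (p - u1)| ≤ w * (1 + d) := by
    have h6 : |x * (1 - (1 + d) * y)| ≤ d ^ 2 := by
      rw [abs_of_nonneg (by nlinarith)]
      nlinarith
    have h7 : |d * (p - u1)| ≤ d * e := by
      rw [abs_mul, abs_of_nonneg hd]
      exact mul_le_mul_of_nonneg_left hp hd
    have h8 := abs_sub ((u0 - x) + x * (1 - (1 + d) * y)) (d * (p - u1))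
    have h9 := abs_add_le (u0 - x) (x * (1 - (1 + d) * y))
    have h10 : d * (e + d) ≤ d * w := mul_le_mul_of_nonneg_left he hd
    nlinarith
  rw [← h4, abs_mul, abs_of_pos (by linarith : 0 < 1 + d)] at h5
  have h6 : 0 < 1 + d := by linarith
  nlinarith

/-- The discrete differential equation `u_i - u_(i+1) = (lam_(i+1) - lam_i) p_(i+1)` with `p`
close to `u` forces `u` close to `exp (-lam)`. -/
theorem ode (u p lam : ℕ → ℝ) (j0 n : ℕ) (w : ℝ)
    (h0 : |u j0 - Real.exp (-lam j0)| ≤ w) (hlam : ∀ i, 0 ≤ lam i)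
    (hstep : ∀ i, j0 ≤ i → i + 1 ≤ n → u i - u (i + 1) = (lam (i + 1) - lam i) * p (i + 1))
    (hmono : ∀ i, lam i ≤ lam (i + 1))
    (hbd : ∀ i, j0 ≤ i → i + 1 ≤ n → |p (i + 1) - u (i + 1)| + (lam (i + 1) - lam i) ≤ w) :
    ∀ i, j0 ≤ i → i ≤ n → |u i - Real.exp (-lam i)| ≤ w := by
  intro i hi
  induction i, hi using Nat.le_induction with
  | base => intro _; exact h0
  | succ i hi ih =>
    intro hn
    have h1 := ih (by omega)
    have h2 := ode_step w (lam (i + 1) - lam i) (|p (i + 1) - u (i + 1)|)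
      (by linarith [hmono i]) (u i) (u (i + 1)) (p (i + 1)) (lam i) (hlam i)
      (hstep i hi hn) le_rfl h1 (hbd i hi hn)
    rwa [add_sub_cancel] at h2

lemma choose_succ_le (M R l : ℕ) (hR : 4 * R ≤ M) (hM : 0 < M) (hl : M ≤ l + 2 * R) :
    ((2 * M).choose (l + 1) : ℝ) ≤ (1 + 8 * R / M) * (2 * M).choose l := by
  have hM' : (0 : ℝ) < M := by exact_mod_cast hM
  rcases le_or_gt l (2 * M) with h | h
  · have h1 := Nat.choose_succ_right_eq (2 * M) l
    have h2 : ((2 * M).choose (l + 1) : ℝ) * (l + 1) = (2 * M).choose l * (2 * M - l) := by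
      have h3 : (((2 * M - l : ℕ)) : ℝ) = 2 * M - l := by
        rw [Nat.cast_sub h]; push_cast; ring
      rw [← h3]
      exact_mod_cast h1
    have h4 : (2 * M - l : ℝ) ≤ (1 + 8 * R / M) * (l + 1) := by
      have h5 : (M : ℝ) - 2 * R ≤ l := by
        have : (M : ℝ) ≤ l + 2 * R := by exact_mod_cast hl
        linarith
      have h6 : (4 : ℝ) * R ≤ M := by exact_mod_cast hR
      have h7 : (0 : ℝ) ≤ R := by positivity
      have h8 : (2 * M - l : ℝ) * M ≤ (M + 8 * R) * (l + 1) := by nlinarith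
      have h9 : (1 + 8 * (R : ℝ) / M) * (l + 1) = (M + 8 * R) * (l + 1) / M := by
        field_simp
      rw [h9, le_div_iff₀ hM']
      exact h8
    have h5 : (0 : ℝ) < l + 1 := by positivity
    have h6 : ((2 * M).choose (l + 1) : ℝ) * (l + 1) ≤
        (1 + 8 * R / M) * (2 * M).choose l * (l + 1) := by
      rw [h2]
      have h7 : (0 : ℝ) ≤ (2 * M).choose l := by positivity
      nlinarith [mul_le_mul_of_nonneg_left h4 h7]
    exact le_of_mul_le_mul_right h6 h5
  · rw [Nat.choose_eq_zero_of_lt (by omega)]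
    push_cast
    positivity

lemma choose_add_le (M R l t : ℕ) (hR : 4 * R ≤ M) (hM : 0 < M) (hl : M ≤ l + 2 * R)
    (ht : 8 * R * t ≤ M) :
    ((2 * M).choose (l + t) : ℝ) ≤ 3 * (2 * M).choose l := by
  have hM' : (0 : ℝ) < M := by exact_mod_cast hM
  have h1 : ∀ t, ((2 * M).choose (l + t) : ℝ) ≤ (1 + 8 * R / M) ^ t * (2 * M).choose l := by
    intro t
    induction t with
    | zero => simp
    | succ t ih =>
      have h2 := choose_succ_le M R (l + t) hR hM (by omega)
      have h3 : (0 : ℝ) ≤ 1 + 8 * R / M := by positivity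
      rw [← add_assoc, pow_succ]
      nlinarith [mul_le_mul_of_nonneg_left ih h3]
  refine (h1 t).trans ?_
  have h2 : (1 + 8 * (R : ℝ) / M) ^ t ≤ 3 := by
    calc (1 + 8 * (R : ℝ) / M) ^ t ≤ Real.exp (8 * R / M) ^ t := by
          apply pow_le_pow_left₀ (by positivity)
          have := Real.add_one_le_exp (8 * (R : ℝ) / M)
          linarith
      _ = Real.exp (t * (8 * R / M)) := by rw [← Real.exp_nat_mul]
      _ ≤ Real.exp 1 := by
          apply Real.exp_le_exp.2
          have h3 : (8 * R * t : ℝ) ≤ M := by exact_mod_cast ht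
          have h4 : (t : ℝ) * (8 * R / M) = (8 * R * t) / M := by ring
          rw [h4]
          exact div_le_one_of_le₀ h3 hM'.le
      _ ≤ 3 := by
          have := Real.exp_one_lt_d9
          linarith
  gcongr

lemma choose_mono_half (M l i : ℕ) (hli : l ≤ i) (hi : i ≤ M) :
    (2 * M).choose l ≤ (2 * M).choose i := by
  induction i, hli using Nat.le_induction with
  | base => exact le_rfl
  | succ i hli ih =>
    refine (ih (by omega)).trans ?_
    apply Nat.choose_le_succ_of_lt_half_left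
    omega

/-- The window sum is small compared with the sum up to `i`. -/
theorem window_le (M R L δ i : ℕ) (hR : 4 * R ≤ M) (hi : i < M) (hiR : M ≤ i + R)
    (hLR : L ≤ R) (hL : 8 * R * L ≤ M) (hδL : 8 * R * δ ≤ M) :
    (L : ℝ) * ∑ l ∈ Icc (i + 1 - δ) (i + δ), ((2 * M).choose l : ℝ) ≤
      18 * δ * ∑ l ∈ range (i + 1), ((2 * M).choose l : ℝ) := by
  have hM : 0 < M := by omega
  -- terms of the window
  have h1 : ∀ l ∈ Icc (i + 1 - δ) (i + δ), ((2 * M).choose l : ℝ) ≤ 3 * (2 * M).choose i := by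
    intro l hl
    rw [mem_Icc] at hl
    rcases le_or_gt l i with h | h
    · have h2 := choose_mono_half M l i h hi.le
      have h3 : ((2 * M).choose l : ℝ) ≤ (2 * M).choose i := by exact_mod_cast h2
      have h4 : (0 : ℝ) ≤ (2 * M).choose i := by positivity
      linarith
    · obtain ⟨t, rfl⟩ := Nat.exists_eq_add_of_le h.le
      apply choose_add_le M R i t hR hM (by omega)
      have h5 : t ≤ δ := by omega
      calc 8 * R * t ≤ 8 * R * δ := by gcongr
        _ ≤ M := hδL
  have h2 : ∑ l ∈ Icc (i + 1 - δ) (i + δ), ((2 * M).choose l : ℝ) ≤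
      (2 * δ) * (3 * (2 * M).choose i) := by
    refine (Finset.sum_le_sum h1).trans ?_
    rw [Finset.sum_const, nsmul_eq_mul, Nat.card_Icc]
    have h3 : ((i + δ + 1 - (i + 1 - δ) : ℕ) : ℝ) ≤ 2 * δ := by
      have : i + δ + 1 - (i + 1 - δ) ≤ 2 * δ := by omega
      exact_mod_cast this
    gcongr
  -- terms below i
  have h3 : ∀ t ∈ range L, ((2 * M).choose i : ℝ) ≤ 3 * (2 * M).choose (i - t) := by
    intro t ht
    rw [mem_range] at ht
    have h4 : i - t + t = i := by omega
    have h5 := choose_add_le M R (i - t) t hR hM (by omega) (by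
      calc 8 * R * t ≤ 8 * R * L := by gcongr
        _ ≤ M := hL)
    rwa [h4] at h5
  have h4 : (L : ℝ) * (2 * M).choose i ≤ 3 * ∑ l ∈ range (i + 1), ((2 * M).choose l : ℝ) := by
    have h5 := Finset.sum_le_sum h3
    rw [Finset.sum_const, nsmul_eq_mul, card_range, ← Finset.mul_sum] at h5
    refine h5.trans ?_
    have h6 : ∑ t ∈ range L, ((2 * M).choose (i - t) : ℝ) ≤
        ∑ l ∈ range (i + 1), ((2 * M).choose l : ℝ) := by
      have h7 : ∑ t ∈ range L, ((2 * M).choose (i - t) : ℝ) =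
          ∑ l ∈ (range L).image (fun t => i - t), ((2 * M).choose l : ℝ) := by
        rw [Finset.sum_image]
        intro a ha b hb hab
        rw [Finset.mem_coe, mem_range] at ha hb
        simp only at hab
        omega
      rw [h7]
      apply Finset.sum_le_sum_of_subset_of_nonneg
      · intro x hx
        rw [mem_image] at hx
        obtain ⟨t, _, rfl⟩ := hx
        rw [mem_range]; omega
      · intro _ _ _; positivity
    linarith
  have h5 : (0 : ℝ) ≤ L := by positivity
  have h6 : (0 : ℝ) ≤ δ := by positivity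
  calc (L : ℝ) * ∑ l ∈ Icc (i + 1 - δ) (i + δ), ((2 * M).choose l : ℝ) ≤
        L * ((2 * δ) * (3 * (2 * M).choose i)) := by gcongr
    _ = 6 * δ * (L * (2 * M).choose i) := by ring
    _ ≤ 6 * δ * (3 * ∑ l ∈ range (i + 1), ((2 * M).choose l : ℝ)) := by gcongr
    _ = _ := by ring

end Pool.Agent.RMC68
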