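import Pool.Agent.RMC68.Link
import Pool.Agent.RMC68.Ode

/-!
# Parameters and elementary facts for the asymptotic law
-/

set_option autoImplicit false

open Finset

namespace Pool.Agent.RMC68

open Pool.Agent.RMC

lemma params (m X N M R δ L : ℕ) (hm : 1 ≤ m) (hX : 100000 * m ^ 3 < X)
    (hN1 : X ^ 4 ≤ N) (hN2 : N ≤ 8 * X ^ 4) (hM : N = 2 * M) (hR : R = 4 * m * X ^ 2)
    (hδ : δ = 8 * m * X) (hL : L = N / (16 * R)) :
    4 * R ≤ M ∧ 1 ≤ L ∧ L ≤ R ∧ 8 * R * L ≤ M ∧ 8 * R * δ ≤ M ∧ N * (2 * m ^ 2) ≤ R ^ 2 ∧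
      18 * δ * X ≤ 18432 * m ^ 2 * L ∧ δ ^ 2 = 16 * m * R := by
  have hm3 : 1 ≤ m ^ 3 := Nat.one_le_pow _ _ hm
  have hmm : m ≤ m ^ 3 := by
    calc m = m ^ 1 := (pow_one m).symm
      _ ≤ m ^ 3 := Nat.pow_le_pow_right hm (by norm_num)
  have hmm2 : m ^ 2 ≤ m ^ 3 := Nat.pow_le_pow_right hm (by norm_num)
  have hX0 : 0 < X := by omega
  have h1 : 512 * m ^ 2 ≤ X := by omega
  have h2 : 64 * m ≤ X := by omega
  have h16R : 16 * R ≤ N := by
    calc 16 * R = (64 * m) * X ^ 2 := by rw [hR]; ring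
      _ ≤ X * X ^ 2 := by gcongr
      _ ≤ X ^ 4 := by
        calc X * X ^ 2 = X ^ 3 := by ring
          _ ≤ X ^ 4 := Nat.pow_le_pow_right hX0 (by norm_num)
      _ ≤ N := hN1
  have hR0 : 0 < R := by rw [hR]; positivity
  have hL1 : 1 ≤ L := by
    rw [hL, Nat.one_le_div_iff (by omega)]
    exact h16R
  have hLR0 : L * (16 * R) ≤ N := by rw [hL]; exact Nat.div_mul_le_self _ _
  have hLN : N < 32 * R * L := by
    have h3 : N < (L + 1) * (16 * R) := by
      rw [hL, add_mul, one_mul]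
      exact Nat.lt_div_mul_add (by omega)
    calc N < (L + 1) * (16 * R) := h3
      _ ≤ (2 * L) * (16 * R) := by gcongr; omega
      _ = 32 * R * L := by ring
  have hRδ : 16 * R * δ ≤ N := by
    calc 16 * R * δ = (512 * m ^ 2) * X ^ 3 := by rw [hR, hδ]; ring
      _ ≤ X * X ^ 3 := by gcongr
      _ = X ^ 4 := by ring
      _ ≤ N := hN1
  have hRR : N * (2 * m ^ 2) ≤ R ^ 2 := by
    calc N * (2 * m ^ 2) ≤ (8 * X ^ 4) * (2 * m ^ 2) := by gcongr
      _ = R ^ 2 := by rw [hR]; ring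
  refine ⟨by omega, hL1, ?_, ?_, ?_, hRR, ?_, ?_⟩
  · by_contra hlt
    push Not at hlt
    have h3 : R * (16 * R) ≤ L * (16 * R) := by gcongr
    have h4 : N < R * (16 * R) := by
      have h5 : 1 ≤ m ^ 2 := Nat.one_le_pow _ _ hm
      have h6 : N * 2 ≤ N * (2 * m ^ 2) := by gcongr; omega
      have h7 : 0 < N := by omega
      nlinarith
    omega
  · have : 16 * R * L ≤ N := by rw [mul_comm] at hLR0; exact hLR0
    have h3 : 16 * R * L = 2 * (8 * R * L) := by ring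
    omega
  · have h3 : 16 * R * δ = 2 * (8 * R * δ) := by ring
    omega
  · have h3 : X ^ 2 * X ^ 2 ≤ X ^ 2 * (128 * m * L) := by
      calc X ^ 2 * X ^ 2 = X ^ 4 := by ring
        _ ≤ N := hN1
        _ ≤ 32 * R * L := hLN.le
        _ = X ^ 2 * (128 * m * L) := by rw [hR]; ring
    have h4 : X ^ 2 ≤ 128 * m * L := Nat.le_of_mul_le_mul_left h3 (by positivity)
    calc 18 * δ * X = 144 * m * X ^ 2 := by rw [hδ]; ring
      _ ≤ 144 * m * (128 * m * L) := by gcongr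
      _ = 18432 * m ^ 2 * L := by ring
  · rw [hδ, hR]; ring

lemma lamN_nonneg (N i : ℕ) : 0 ≤ lamN N i := by rw [lamN]; positivity

lemma lamN_step (N i : ℕ) :
    lamN N (i + 1) - lamN N i = 2 * N * (N.choose (i + 1) : ℝ) / 2 ^ N := by
  rw [lamN, lamN, Finset.sum_range_succ _ (i + 1)]
  ring

lemma lamN_mono (N i : ℕ) : lamN N i ≤ lamN N (i + 1) := by
  have h := lamN_step N i
  have h2 : 0 ≤ 2 * N * (N.choose (i + 1) : ℝ) / 2 ^ N := by positivity
  linarith

lemma lamN_monotone (N : ℕ) : Monotone (lamN N) := monotone_nat_of_le_succ (lamN_mono N)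

lemma lamN_step_le_win (N i δ : ℕ) (hδ : 1 ≤ δ) :
    lamN N (i + 1) - lamN N i ≤ winN N (i + 1) δ := by
  rw [lamN_step, winN]
  have h1 : (N.choose (i + 1) : ℝ) ≤
      ∑ l ∈ Icc (i + 1 + 1 - δ) (i + 1 + δ), (N.choose l : ℝ) := by
    apply Finset.single_le_sum (f := fun l => (N.choose l : ℝ)) (fun _ _ => by positivity)
    rw [mem_Icc]; omega
  gcongr

lemma lamN_large {m M : ℕ} (hM : 2 ^ m = 2 * M) (i : ℕ) (hi : M ≤ i) :
    ((2 : ℝ) ^ m) ≤ lamN (2 ^ m) i := by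
  classical
  refine le_trans ?_ (lamN_monotone (2 ^ m) hi)
  have h1 := card_size_le (α := Vec m) (fun _ => True) (range (M + 1)) (by
    intro B _
    have hc : #(Bᶜ) = 2 * M - #B := by rw [Finset.card_compl, card_vec, hM]
    rw [mem_range, mem_range, hc]
    omega)
  rw [Finset.filter_true, Finset.card_univ, Fintype.card_finset, card_vec] at h1
  rw [lamN, le_div_iff₀ (by positivity)]
  have h2 : ((2 : ℝ) ^ (2 ^ m)) ≤ 2 * (∑ l ∈ range (M + 1), ((2 ^ m).choose l : ℝ)) := by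
    have h3 : ((2 ^ (2 ^ m) : ℕ) : ℝ) ≤
        ((2 * (∑ l ∈ range (M + 1), (2 ^ m).choose l) : ℕ) : ℝ) := by exact_mod_cast h1
    push_cast at h3
    exact h3
  push_cast
  have h4 : (0 : ℝ) < 2 ^ m := by positivity
  nlinarith

lemma lamN_small {m M : ℕ} (hM : 2 ^ m = 2 * M) (hM0 : 0 < M) (R i : ℕ) (hi : i + R ≤ M) :
    lamN (2 ^ m) i ≤ 4 * 2 ^ m * Real.exp (-(2 * (R : ℝ) ^ 2 / 2 ^ m)) := by
  classical
  have h1 := pr_far (α := Vec m) M R (card_vec_M hM) hM0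
  rw [pr_eq_card, card_vec, div_le_iff₀ (by positivity)] at h1
  have h2 : ∑ l ∈ range (i + 1), (2 ^ m).choose l ≤
      #{A : Finset (Vec m) | (R : ℤ) ≤ |(#A : ℤ) - M|} := by
    have h3 := card_size_mem (α := Vec m) (range (i + 1))
    rw [card_vec] at h3
    rw [← h3]
    apply Finset.card_le_card
    intro A hA
    rw [mem_filter, mem_range] at hA
    rw [mem_filter]
    refine ⟨mem_univ _, ?_⟩
    rw [abs_of_nonpos (by omega)]
    omega
  have h3 : (∑ l ∈ range (i + 1), ((2 ^ m).choose l : ℝ)) ≤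
      2 * Real.exp (-(2 * (R : ℝ) ^ 2 / 2 ^ m)) * 2 ^ (2 ^ m) := by
    refine le_trans ?_ (h1.trans (le_of_eq ?_))
    · exact_mod_cast h2
    · push_cast; rfl
  rw [lamN, div_le_iff₀ (by positivity)]
  push_cast
  have h4 : (0 : ℝ) < 2 ^ m := by positivity
  nlinarith

variable {m M : ℕ}

lemma good_nonneg (i : ℕ) : 0 ≤ good (nz m) chi M i := pr_nonneg _

lemma good_le_one (hM : 2 ^ m = 2 * M) (i : ℕ) : good (nz m) chi M i ≤ 1 := by
  have h1 := cumulative hM i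
  have h2 : (0 : ℝ) ≤ (∑ j ∈ range (i + 1), (leaderCount m j : ℝ)) * 2 ^ (m + 1) := by positivity
  rw [h1] at h2
  have h3 : (0 : ℝ) < 2 ^ (2 ^ m) := by positivity
  by_contra hcon
  push Not at hcon
  nlinarith

lemma good_step (hM : 2 ^ m = 2 * M) (i : ℕ) :
    good (nz m) chi M i - good (nz m) chi M (i + 1) =
      2 * 2 ^ m * (leaderCount m (i + 1) : ℝ) / 2 ^ (2 ^ m) := by
  have h1 := cumulative hM i
  have h2 := cumulative hM (i + 1)
  rw [Finset.sum_range_succ] at h2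
  rw [eq_div_iff (by positivity)]
  rw [pow_succ] at h1 h2
  linarith

lemma good_anti (hM : 2 ^ m = 2 * M) : Antitone (good (nz m) chi M) := by
  apply antitone_nat_of_succ_le
  intro i
  have h := good_step hM i
  have h2 : (0 : ℝ) ≤ 2 * 2 ^ m * (leaderCount m (i + 1) : ℝ) / 2 ^ (2 ^ m) := by positivity
  linarith

lemma count_le_choose (hM : 2 ^ m = 2 * M) (i : ℕ) (hi : i ≤ M) :
    (leaderCount m i : ℝ) ≤ (2 ^ m).choose i := by
  refine (le_leaders hM i hi).trans ?_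
  have h1 := prk_le_one i (fun A => ¬ bad (nz m) chi ((M : ℤ) - i + 1) A)
  have h2 : (0 : ℝ) ≤ (2 ^ m).choose i := by positivity
  nlinarith

lemma one_sub_good_le (hM : 2 ^ m = 2 * M) (i : ℕ) (hi : i ≤ M) :
    1 - good (nz m) chi M i ≤ lamN (2 ^ m) i := by
  have h1 := cumulative hM i
  have h2 : (∑ j ∈ range (i + 1), (leaderCount m j : ℝ)) ≤
      ∑ l ∈ range (i + 1), ((2 ^ m).choose l : ℝ) :=
    Finset.sum_le_sum fun j hj => count_le_choose hM j (by rw [mem_range] at hj; omega)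
  rw [lamN, le_div_iff₀ (by positivity)]
  push_cast
  have h3 : (1 - good (nz m) chi M i) * 2 ^ (2 ^ m) =
      (∑ j ∈ range (i + 1), (leaderCount m j : ℝ)) * 2 ^ (m + 1) := by rw [h1]; ring
  rw [h3, pow_succ]
  have h4 : (0 : ℝ) < 2 ^ m := by positivity
  nlinarith

lemma good_zero (i : ℕ) (hi : M ≤ i) : good (nz m) chi M i = 0 := by
  classical
  rw [good, pr_eq_card, Finset.filter_false_of_mem]
  · simp
  · rintro A _ ⟨-, h⟩
    have h1 := abs_nonneg ((#A : ℤ) - M)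
    omega

lemma count_zero (hm : 1 ≤ m) (hM : 2 ^ m = 2 * M) (i : ℕ) (hi : M ≤ i) :
    leaderCount m i = 0 := by
  rw [leaderCount]
  have hemp : IsEmpty {q : (Vec m → ZMod 2) ⧸ reedMuller m // leaderWeight q = i} := by
    constructor
    rintro ⟨q, hq⟩
    obtain ⟨f, rfl⟩ := (reedMuller m).mkQ_surjective q
    have hM0 : 1 ≤ M := by
      by_contra hcon
      have : M = 0 := by omega
      rw [this] at hM
      have h0 : 0 < 2 ^ m := by positivity
      omega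
    have h1 : leaderWeight ((reedMuller m).mkQ f) ≤ M - 1 := by
      rw [leaderWeight_le_iff]
      by_contra hcon
      push Not at hcon
      have hM' : (2 : ℤ) ^ m = 2 * M := by exact_mod_cast hM
      have h2 : ∀ a, walsh f a ^ 2 ≤ 1 := by
        intro a
        have h3 := hcon a
        have h4 : ((M - 1 : ℕ) : ℤ) = (M : ℤ) - 1 := by
          rw [Nat.cast_sub hM0]; simp
        rw [h4, hM'] at h3
        rw [← sq_abs]
        have h5 := abs_nonneg (walsh f a)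
        nlinarith
      have h3 := parseval f
      have h4 : ∑ a : Vec m, walsh f a ^ 2 ≤ ∑ a : Vec m, (1 : ℤ) :=
        Finset.sum_le_sum fun a _ => h2 a
      rw [h3, Finset.sum_const, Finset.card_univ, card_vec, nsmul_eq_mul, mul_one] at h4
      push_cast at h4
      have h5 : (2 : ℤ) ≤ 2 ^ m := by
        calc (2 : ℤ) = 2 ^ 1 := (pow_one 2).symm
          _ ≤ 2 ^ m := pow_le_pow_right₀ (by norm_num) hm
      nlinarith
    rw [hq] at h1
    omega
  exact Nat.card_of_isEmpty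

/-- monotonicity of the proportion of leaders -/
lemma leaders_anti (hM : 2 ^ m = 2 * M) (i j : ℕ) (hij : i ≤ j) (hj : j ≤ M) :
    prk j (fun A => ¬ bad (nz m) chi ((M : ℤ) - j + 1) A) ≤
      prk i (fun A => ¬ bad (nz m) chi ((M : ℤ) - i + 1) A) := by
  obtain ⟨B0, -, hB⟩ := Finset.exists_subset_card_eq (s := (univ : Finset (Vec m))) (n := j)
    (by rw [Finset.card_univ, card_vec]; omega)
  obtain ⟨A0, hAB, hA⟩ := Finset.exists_subset_card_eq (s := B0) (n := i) (by omega)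
  rw [← hA, ← hB, ← prP_map A0, ← prP_map B0, hA, hB]
  apply prP_mono
  rintro σ h ⟨a, ha, hbad⟩
  apply h
  refine ⟨a, ha, ?_⟩
  have h1 : ∑ x ∈ B0.map σ.toEmbedding, chi a x = ∑ x ∈ (B0 \ A0).map σ.toEmbedding, chi a x +
      ∑ x ∈ A0.map σ.toEmbedding, chi a x := by
    rw [Finset.sum_map, Finset.sum_map, Finset.sum_map]
    exact (Finset.sum_sdiff hAB).symm
  have h2 : |∑ x ∈ (B0 \ A0).map σ.toEmbedding, chi a x| ≤ (j : ℤ) - i := by
    refine (Finset.abs_sum_le_sum_abs _ _).trans ?_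
    have h3 : ∀ x ∈ (B0 \ A0).map σ.toEmbedding, |chi a x| ≤ 1 := by
      intro x _
      rcases chi_cases a x with h | h <;> rw [h] <;> norm_num
    refine (Finset.sum_le_sum h3).trans ?_
    rw [Finset.sum_const, Finset.card_map, Finset.card_sdiff_of_subset hAB, hA, hB, nsmul_eq_mul,
      mul_one, Nat.cast_sub hij]
  have h3 : |∑ x ∈ A0.map σ.toEmbedding, chi a x| ≤
      |∑ x ∈ B0.map σ.toEmbedding, chi a x| + |∑ x ∈ (B0 \ A0).map σ.toEmbedding, chi a x| := by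
    rw [h1]
    have := abs_sub (∑ x ∈ (B0 \ A0).map σ.toEmbedding, chi a x +
      ∑ x ∈ A0.map σ.toEmbedding, chi a x) (∑ x ∈ (B0 \ A0).map σ.toEmbedding, chi a x)
    rwa [add_sub_cancel_left] at this
  linarith

/-- the tail bound for one level -/
lemma bad_tail (hM : 2 ^ m = 2 * M) (hM0 : 0 < M) (R i : ℕ) (hi : i + R ≤ M) :
    prk i (bad (nz m) chi ((M : ℤ) - i)) ≤
      2 ^ m * (2 * 2 ^ m * Real.exp (-((R : ℝ) ^ 2 / 2 ^ m))) := by
  have hMr : (2 : ℝ) ^ m = 2 * M := by exact_mod_cast hM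
  have h1 : prk i (bad (nz m) chi ((M : ℤ) - i)) ≤
      ∑ a ∈ nz m, prk i (fun A : Finset (Vec m) => (R : ℝ) ≤ |((∑ x ∈ A, chi a x : ℤ) : ℝ)|) := by
    refine le_trans ?_ (prk_exists (nz m) i
      (fun a (A : Finset (Vec m)) => (R : ℝ) ≤ |((∑ x ∈ A, chi a x : ℤ) : ℝ)|))
    apply prk_mono
    rintro A _ ⟨a, ha, h⟩
    refine ⟨a, ha, ?_⟩
    have h2 : (R : ℤ) ≤ |∑ x ∈ A, chi a x| := by omega
    exact_mod_cast h2
  refine h1.trans ?_
  have h2 : ∀ a ∈ nz m, prk i (fun A : Finset (Vec m) =>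
      (R : ℝ) ≤ |((∑ x ∈ A, chi a x : ℤ) : ℝ)|) ≤
      2 * 2 ^ m * Real.exp (-((R : ℝ) ^ 2 / 2 ^ m)) := by
    intro a ha
    have h3 := tail_balanced (chi a) (chi_cases a) (chi_sum a (mem_nz.1 ha))
      (by rw [card_vec]; positivity) i (by rw [card_vec]; omega) M R
      (by exact_mod_cast (by omega : i ≤ M)) (by exact_mod_cast hM0) (by positivity)
    rw [card_vec, ← hMr, Nat.cast_pow, Nat.cast_ofNat] at h3
    exact h3
  refine (Finset.sum_le_sum h2).trans ?_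
  rw [Finset.sum_const, nsmul_eq_mul]
  have h3 : (#(nz m) : ℝ) ≤ 2 ^ m := by
    have : #(nz m) ≤ 2 ^ m := by rw [← card_vec (m := m)]; exact Finset.card_le_univ _
    exact_mod_cast this
  gcongr

end Pool.Agent.RMC68
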