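import Mathlib

/-!
# Uniform subsets of given size through uniform permutations
-/

set_option autoImplicit false

open Finset

namespace Pool.Agent.RMC68

variable {α : Type*} [Fintype α] [DecidableEq α]

/-- a permutation carrying a set to another of the same size -/
lemma exists_perm {S T : Finset α} (h : #S = #T) :
    ∃ τ : Equiv.Perm α, S.map τ.toEmbedding = T := by
  classical
  let e : {x // x ∈ S} ≃ {x // x ∈ T} := Finset.equivOfCardEq h
  refine ⟨e.extendSubtype, ?_⟩
  apply Finset.eq_of_subset_of_card_le
  · intro y hy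
    rw [Finset.mem_map] at hy
    obtain ⟨x, hx, rfl⟩ := hy
    exact e.extendSubtype_mem x hx
  · rw [Finset.card_map, h]

/-- number of permutations carrying `S0` to `S` -/
lemma fiber_eq (S0 S T : Finset α) (h : #S = #T) :
    #{σ : Equiv.Perm α | S0.map σ.toEmbedding = S} =
      #{σ : Equiv.Perm α | S0.map σ.toEmbedding = T} := by
  obtain ⟨τ, hτ⟩ := exists_perm h
  refine Finset.card_equiv (Equiv.mulLeft τ) fun σ => ?_
  simp only [mem_filter, mem_univ, true_and, Equiv.coe_mulLeft]
  have h1 : S0.map (τ * σ).toEmbedding = (S0.map σ.toEmbedding).map τ.toEmbedding := by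
    rw [Finset.map_map]; rfl
  rw [h1, ← hτ]
  constructor
  · intro h2; rw [h2]
  · intro h2; exact Finset.map_injective _ h2

open Classical in
/-- proportion of the subsets of size `k` with property `p` -/
noncomputable def prk (k : ℕ) (p : Finset α → Prop) : ℝ :=
  (#{S ∈ powersetCard k (univ : Finset α) | p S} : ℝ) / (Fintype.card α).choose k

open Classical in
/-- proportion of the permutations with property `q` -/
noncomputable def prP (q : Equiv.Perm α → Prop) : ℝ :=
  (#{σ : Equiv.Perm α | q σ} : ℝ) / (Fintype.card α).factorial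

open Classical in
/-- a uniform permutation carries a fixed set to a uniform set of the same size -/
theorem prP_map (S0 : Finset α) (p : Finset α → Prop) :
    prP (fun σ : Equiv.Perm α => p (S0.map σ.toEmbedding)) = prk #S0 p := by
  set g := #{σ : Equiv.Perm α | S0.map σ.toEmbedding = S0} with hg
  have h1 : ∀ S ∈ powersetCard #S0 (univ : Finset α),
      #{σ : Equiv.Perm α | S0.map σ.toEmbedding = S} = g := by
    intro S hS
    rw [mem_powersetCard] at hS
    exact fiber_eq S0 S S0 hS.2
  have h2 : (Fintype.card α).choose #S0 * g = (Fintype.card α).factorial := by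
    have h3 : #(univ : Finset (Equiv.Perm α)) =
        ∑ S ∈ powersetCard #S0 (univ : Finset α),
          #{σ : Equiv.Perm α | S0.map σ.toEmbedding = S} := by
      apply Finset.card_eq_sum_card_fiberwise
      intro σ _
      rw [Finset.mem_coe, mem_powersetCard]
      exact ⟨subset_univ _, Finset.card_map _⟩
    rw [Finset.sum_congr rfl h1, Finset.sum_const, card_powersetCard, Finset.card_univ,
      Finset.card_univ, Fintype.card_perm, smul_eq_mul] at h3
    exact h3.symm
  have h4 : #{σ : Equiv.Perm α | p (S0.map σ.toEmbedding)} =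
      #{S ∈ powersetCard #S0 (univ : Finset α) | p S} * g := by
    have h5 : #{σ : Equiv.Perm α | p (S0.map σ.toEmbedding)} =
        ∑ S ∈ powersetCard #S0 (univ : Finset α) with p S,
          #{σ ∈ ({σ : Equiv.Perm α | p (S0.map σ.toEmbedding)} : Finset _) |
            S0.map σ.toEmbedding = S} := by
      apply Finset.card_eq_sum_card_fiberwise
      intro σ hσ
      rw [Finset.mem_coe, mem_filter] at hσ
      rw [Finset.mem_coe, mem_filter, mem_powersetCard]
      exact ⟨⟨subset_univ _, Finset.card_map _⟩, hσ.2⟩
    rw [h5, ← smul_eq_mul, ← Finset.sum_const]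
    refine Finset.sum_congr rfl fun S hS => ?_
    rw [mem_filter] at hS
    rw [← h1 S hS.1]
    congr 1
    ext σ
    simp only [mem_filter, mem_univ, true_and]
    constructor
    · exact fun h => h.2
    · intro h; exact ⟨by rw [h]; exact hS.2, h⟩
  rw [prP, prk, h4, ← h2]
  have hgpos : (g : ℝ) ≠ 0 := by
    have : (Fintype.card α).factorial ≠ 0 := Nat.factorial_ne_zero _
    rw [← h2] at this
    exact_mod_cast (Nat.ne_zero_of_mul_ne_zero_right this)
  push_cast
  rw [mul_div_mul_right _ _ hgpos]

lemma prP_mono {q r : Equiv.Perm α → Prop} (h : ∀ σ, q σ → r σ) : prP q ≤ prP r := by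
  classical
  rw [prP, prP]
  gcongr with σ hσ
  exact h σ

lemma prP_nonneg (q : Equiv.Perm α → Prop) : 0 ≤ prP q := by
  rw [prP]; positivity

omit [DecidableEq α] in
lemma prk_nonneg (k : ℕ) (p : Finset α → Prop) : 0 ≤ prk k p := by
  rw [prk]; positivity

lemma prP_or (q r : Equiv.Perm α → Prop) : prP (fun σ => q σ ∨ r σ) ≤ prP q + prP r := by
  classical
  rw [prP, prP, prP, ← add_div]
  gcongr
  have h := Finset.card_union_le (univ.filter fun σ : Equiv.Perm α => q σ)
    (univ.filter fun σ => r σ)
  rw [← Finset.filter_or] at h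
  norm_cast
  convert h

lemma prP_exists {ι : Type*} (s : Finset ι) (q : ι → Equiv.Perm α → Prop) :
    prP (fun σ => ∃ a ∈ s, q a σ) ≤ ∑ a ∈ s, prP (q a) := by
  classical
  simp_rw [prP]
  rw [← Finset.sum_div]
  gcongr
  have : (univ.filter fun σ : Equiv.Perm α => ∃ a ∈ s, q a σ) =
      s.biUnion fun a => univ.filter fun σ => q a σ := by
    ext σ; simp
  rw [this]
  exact_mod_cast Finset.card_biUnion_le

/-- two events which agree off an event `G` -/
lemma prP_sub_le {q r G : Equiv.Perm α → Prop} (h : ∀ σ, q σ → ¬ r σ → G σ) :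
    prP q - prP r ≤ prP G := by
  rw [sub_le_iff_le_add]
  refine le_trans (prP_mono (r := fun σ => G σ ∨ r σ) fun σ hσ => ?_) (prP_or _ _)
  by_cases hr : r σ
  · exact Or.inr hr
  · exact Or.inl (h σ hσ hr)

/-- inverse permutations -/
lemma prP_inv (q : Equiv.Perm α → Prop) : prP (fun σ => q σ⁻¹) = prP q := by
  classical
  rw [prP, prP]
  congr 2
  refine Finset.card_equiv (Equiv.inv _) fun σ => ?_
  simp

omit [DecidableEq α] in
lemma prk_le_one (k : ℕ) (p : Finset α → Prop) : prk k p ≤ 1 := by
  classical
  rw [prk]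
  apply div_le_one_of_le₀ _ (by positivity)
  rw [← Finset.card_univ, ← card_powersetCard]
  exact_mod_cast Finset.card_filter_le _ _

omit [DecidableEq α] in
lemma prk_mono {k : ℕ} {p r : Finset α → Prop} (h : ∀ S, #S = k → p S → r S) :
    prk k p ≤ prk k r := by
  classical
  rw [prk, prk]
  gcongr with S hS
  exact h S (mem_powersetCard.1 hS).2

lemma prk_exists {ι : Type*} (s : Finset ι) (k : ℕ) (q : ι → Finset α → Prop) :
    prk k (fun S => ∃ a ∈ s, q a S) ≤ ∑ a ∈ s, prk k (q a) := by
  classical
  simp_rw [prk]
  rw [← Finset.sum_div]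
  gcongr
  have : ((powersetCard k (univ : Finset α)).filter fun S => ∃ a ∈ s, q a S) =
      s.biUnion fun a => (powersetCard k (univ : Finset α)).filter fun S => q a S := by
    ext S; simp only [mem_filter, mem_biUnion]; tauto
  rw [this]
  exact_mod_cast Finset.card_biUnion_le

end Pool.Agent.RMC68
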