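import Pool.Agent.RMC68.Perm

/-!
# Exponential tail bounds for uniform subsets
-/

set_option autoImplicit false

open Finset

namespace Pool.Agent.RMC68

variable {α : Type*} [Fintype α] [DecidableEq α]

lemma sum_exp (D : Finset α) (θ : ℝ) :
    ∑ H : Finset α, Real.exp (θ * (2 * (#(D ∩ H) : ℝ) - #D)) =
      2 ^ Fintype.card α * Real.cosh θ ^ #D := by
  have h1 := Finset.prod_add (fun x : α => if x ∈ D then Real.exp θ else 1)
    (fun x : α => if x ∈ D then Real.exp (-θ) else 1) univ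
  have h2 : ∏ x : α, ((if x ∈ D then Real.exp θ else 1) + if x ∈ D then Real.exp (-θ) else 1) =
      2 ^ Fintype.card α * Real.cosh θ ^ #D := by
    have h3 : ∀ x : α, ((if x ∈ D then Real.exp θ else 1) +
        if x ∈ D then Real.exp (-θ) else 1) = 2 * (if x ∈ D then Real.cosh θ else 1) := by
      intro x
      split_ifs
      · rw [Real.cosh_eq]; ring
      · norm_num
    simp_rw [h3]
    rw [Finset.prod_mul_distrib, Finset.prod_const, Finset.card_univ, Finset.prod_ite_mem,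
      Finset.univ_inter, Finset.prod_const]
  rw [h2, Finset.powerset_univ] at h1
  rw [h1]
  refine Finset.sum_congr rfl fun H _ => ?_
  rw [Finset.prod_ite_mem, Finset.prod_ite_mem, Finset.prod_const, Finset.prod_const,
    ← Real.exp_nat_mul, ← Real.exp_nat_mul, ← Real.exp_add]
  congr 1
  have h4 : #(univ \ H ∩ D) = #D - #(D ∩ H) := by
    have h5 : univ \ H ∩ D = D \ (D ∩ H) := by
      ext x; simp only [mem_inter, mem_sdiff, mem_univ, true_and]; tauto
    rw [h5, Finset.card_sdiff_of_subset Finset.inter_subset_left]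
  rw [h4, Nat.cast_sub (Finset.card_le_card Finset.inter_subset_left), Finset.inter_comm H D]
  ring

lemma cosh_pow_le (d : ℕ) (dm θ : ℝ) (hd : (d : ℝ) ≤ dm) :
    Real.cosh θ ^ d ≤ Real.exp (dm * θ ^ 2 / 2) := by
  have h1 := Real.cosh_le_exp_half_sq θ
  calc Real.cosh θ ^ d ≤ Real.exp (θ ^ 2 / 2) ^ d :=
        pow_le_pow_left₀ (Real.cosh_pos θ).le h1 d
    _ = Real.exp (d * (θ ^ 2 / 2)) := by rw [← Real.exp_nat_mul]
    _ ≤ Real.exp (dm * θ ^ 2 / 2) := by
        apply Real.exp_le_exp.2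
        have : 0 ≤ θ ^ 2 / 2 := by positivity
        nlinarith

open Classical in
lemma tail_one (D : Finset α) (dm δ s : ℝ) (hs : s = 1 ∨ s = -1) (hd : (#D : ℝ) ≤ dm)
    (hdm : 0 < dm) (hδ : 0 ≤ δ) :
    (#{H : Finset α | δ ≤ s * (2 * (#(D ∩ H) : ℝ) - #D)} : ℝ) ≤
      2 ^ Fintype.card α * Real.exp (-(δ ^ 2 / (2 * dm))) := by
  set θ : ℝ := δ / dm with hθ
  have hθ0 : 0 ≤ θ := by positivity
  have h1 := sum_exp D (s * θ)
  have h2 : (#{H : Finset α | δ ≤ s * (2 * (#(D ∩ H) : ℝ) - #D)} : ℝ) * Real.exp (θ * δ) ≤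
      ∑ H : Finset α, Real.exp (s * θ * (2 * (#(D ∩ H) : ℝ) - #D)) := by
    rw [← nsmul_eq_mul, ← Finset.sum_const]
    refine le_trans (Finset.sum_le_sum fun H hH => ?_)
      (Finset.sum_le_sum_of_subset_of_nonneg (Finset.filter_subset _ _) fun _ _ _ =>
        (Real.exp_pos _).le)
    apply Real.exp_le_exp.2
    rw [mem_filter] at hH
    have := mul_le_mul_of_nonneg_left hH.2 hθ0
    linarith
  rw [h1] at h2
  have h3 : Real.cosh (s * θ) ^ #D ≤ Real.exp (dm * θ ^ 2 / 2) := by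
    have h4 : Real.cosh (s * θ) = Real.cosh θ := by
      rcases hs with rfl | rfl
      · rw [one_mul]
      · rw [neg_one_mul, Real.cosh_neg]
    rw [h4]
    exact cosh_pow_le _ _ _ hd
  have h5 : (0 : ℝ) < Real.exp (θ * δ) := Real.exp_pos _
  have h6 : (#{H : Finset α | δ ≤ s * (2 * (#(D ∩ H) : ℝ) - #D)} : ℝ) ≤
      2 ^ Fintype.card α * Real.exp (dm * θ ^ 2 / 2) / Real.exp (θ * δ) := by
    rw [le_div_iff₀ h5]
    refine h2.trans ?_
    gcongr
  refine h6.trans (le_of_eq ?_)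
  rw [mul_div_assoc, ← Real.exp_sub]
  congr 2
  rw [hθ]
  field_simp
  ring

open Classical in
/-- Hoeffding bound for `|2|D ∩ H| - |D||`, `H` uniform among all subsets. -/
theorem tail_all (D : Finset α) (dm δ : ℝ) (hd : (#D : ℝ) ≤ dm) (hdm : 0 < dm) (hδ : 0 ≤ δ) :
    (#{H : Finset α | δ ≤ |2 * (#(D ∩ H) : ℝ) - #D|} : ℝ) ≤
      2 * 2 ^ Fintype.card α * Real.exp (-(δ ^ 2 / (2 * dm))) := by
  have h1 := tail_one D dm δ 1 (Or.inl rfl) hd hdm hδ
  have h2 := tail_one D dm δ (-1) (Or.inr rfl) hd hdm hδ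
  have h3 : #{H : Finset α | δ ≤ |2 * (#(D ∩ H) : ℝ) - #D|} ≤
      #{H : Finset α | δ ≤ 1 * (2 * (#(D ∩ H) : ℝ) - #D)} +
      #{H : Finset α | δ ≤ -1 * (2 * (#(D ∩ H) : ℝ) - #D)} := by
    refine le_trans (Finset.card_le_card ?_) (Finset.card_union_le _ _)
    intro H hH
    rw [mem_filter] at hH
    rw [mem_union, mem_filter, mem_filter]
    rcases le_abs.1 hH.2 with h | h
    · left; exact ⟨mem_univ _, by linarith⟩
    · right; exact ⟨mem_univ _, by linarith⟩
  have h4 : (#{H : Finset α | δ ≤ |2 * (#(D ∩ H) : ℝ) - #D|} : ℝ) ≤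
      #{H : Finset α | δ ≤ 1 * (2 * (#(D ∩ H) : ℝ) - #D)} +
      #{H : Finset α | δ ≤ -1 * (2 * (#(D ∩ H) : ℝ) - #D)} := by exact_mod_cast h3
  linarith

/-- Tail bound for a sum of a balanced sign function over a uniform subset of given size. -/
theorem tail_balanced (χ : α → ℤ) (hχ : ∀ x, χ x = 1 ∨ χ x = -1) (hsum : ∑ x, χ x = 0)
    (hα : 0 < Fintype.card α) (d : ℕ) (hdc : d ≤ Fintype.card α) (dm δ : ℝ) (hd : (d : ℝ) ≤ dm)
    (hdm : 0 < dm) (hδ : 0 ≤ δ) :
    prk d (fun D : Finset α => δ ≤ |((∑ x ∈ D, χ x : ℤ) : ℝ)|) ≤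
      2 * Fintype.card α * Real.exp (-(δ ^ 2 / (2 * dm))) := by
  classical
  obtain ⟨D0, hD0⟩ : ∃ D0 : Finset α, #D0 = d := by
    obtain ⟨D0, -, h⟩ := Finset.exists_subset_card_eq (s := (univ : Finset α)) (n := d)
      (by rwa [Finset.card_univ])
    exact ⟨D0, h⟩
  set H0 : Finset α := {x | χ x = 1} with hH0
  have hval : ∀ D : Finset α, (∑ x ∈ D, χ x) = 2 * (#(D ∩ H0) : ℤ) - #D := by
    intro D
    have h1 : ∀ x ∈ D, χ x = 2 * (if x ∈ H0 then 1 else 0) - 1 := by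
      intro x _
      rcases hχ x with h | h
      · rw [if_pos (by rw [hH0, mem_filter]; exact ⟨mem_univ _, h⟩), h]; norm_num
      · rw [if_neg (by rw [hH0, mem_filter]; rintro ⟨-, h'⟩; rw [h] at h'; norm_num at h'), h]
        norm_num
    rw [Finset.sum_congr rfl h1, Finset.sum_sub_distrib, ← Finset.mul_sum, Finset.sum_boole,
      Finset.filter_mem_eq_inter]
    simp
  have hH0c : 2 * #H0 = Fintype.card α := by
    have := hval univ
    rw [hsum, Finset.univ_inter, Finset.card_univ] at this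
    omega
  have h1 : prk d (fun D : Finset α => δ ≤ |((∑ x ∈ D, χ x : ℤ) : ℝ)|) =
      prk #H0 (fun H : Finset α => δ ≤ |2 * (#(D0 ∩ H) : ℝ) - #D0|) := by
    rw [← prP_map H0, ← prP_inv, ← hD0, ← prP_map D0]
    congr 1
    funext σ
    rw [hval, Finset.card_map]
    have h2 : #(D0.map σ.toEmbedding ∩ H0) = #(D0 ∩ H0.map (σ⁻¹ : Equiv.Perm α).toEmbedding) := by
      have h3 : D0.map σ.toEmbedding ∩ H0 =
          (D0 ∩ H0.map (σ⁻¹ : Equiv.Perm α).toEmbedding).map σ.toEmbedding := by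
        ext x
        simp only [mem_inter, Finset.mem_map_equiv, Equiv.Perm.inv_def, Equiv.symm_symm,
          Equiv.apply_symm_apply]
      rw [h3, Finset.card_map]
    rw [h2]
    push_cast
    rfl
  rw [h1, prk]
  have h4 := tail_all D0 dm δ (by rwa [hD0]) hdm hδ
  have hn : 0 < #H0 := by omega
  have h5 := Nat.four_pow_le_two_mul_self_mul_centralBinom #H0 hn
  have h6 : (2 : ℝ) ^ Fintype.card α ≤ Fintype.card α * (Fintype.card α).choose #H0 := by
    rw [← hH0c]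
    have h7 : (2 : ℕ) ^ (2 * #H0) ≤ 2 * #H0 * (2 * #H0).choose #H0 := by
      rw [pow_mul]; exact h5
    exact_mod_cast h7
  have h8 : (0 : ℝ) < (Fintype.card α).choose #H0 := by
    exact_mod_cast Nat.choose_pos (by omega)
  rw [div_le_iff₀ h8]
  have h9 : (#{S ∈ powersetCard #H0 (univ : Finset α) |
      δ ≤ |2 * (#(D0 ∩ S) : ℝ) - #D0|} : ℝ) ≤
      #{H : Finset α | δ ≤ |2 * (#(D0 ∩ H) : ℝ) - #D0|} := by
    have : #{S ∈ powersetCard #H0 (univ : Finset α) | δ ≤ |2 * (#(D0 ∩ S) : ℝ) - #D0|} ≤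
      #{H : Finset α | δ ≤ |2 * (#(D0 ∩ H) : ℝ) - #D0|} := by
      apply Finset.card_le_card
      apply Finset.filter_subset_filter
      exact subset_univ _
    exact_mod_cast this
  refine h9.trans (h4.trans ?_)
  have h10 := (Real.exp_pos (-(δ ^ 2 / (2 * dm)))).le
  have h11 := mul_le_mul_of_nonneg_right h6 h10
  linarith

end Pool.Agent.RMC68
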